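import Pool.Agent.Lib.MP_bcc336_al.Base

/-!
The action of the lattice on the decorated product.
-/

set_option autoImplicit false

namespace Pool.Agent.MPbcc336

section ActWAux

variable {V V' H : Type} [Group H] [MulAction H V] [MulAction H V'] {T : SimpleGraph V}
    {T' : SimpleGraph V'} {o : V} {o' : V'}

/-- the action on the oriented edges -/
def ActW_P (hL : IsLat H T T' o o') (h : H) (p : PP T) : PP T :=
  ⟨(h • p.1.1, h • p.1.2), (hL.adj h _ _).2 p.2⟩

/-- the action on the first factor -/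
def ActW_A (hL : IsLat H T T' o o') (h : H) : V ⊕ PP T → V ⊕ PP T
  | .inl v => .inl (h • v)
  | .inr p => .inr (ActW_P hL h p)

/-- the action on the second factor -/
def ActW_B (_hL : IsLat H T T' o o') (h : H) : V' ⊕ QQ V' T o → V' ⊕ QQ V' T o
  | .inl v => .inl (h • v)
  | .inr q => .inr (h • q.1, q.2)

/-- the base point of a vertex of the first factor -/
def ActW_a : V ⊕ PP T → V
  | .inl v => v
  | .inr p => p.1.1

/-- the base point of a vertex of the second factor -/
def ActW_b : V' ⊕ QQ V' T o → V'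
  | .inl v => v
  | .inr q => q.1

theorem ActW_A_one (hL : IsLat H T T' o o') (x : V ⊕ PP T) : ActW_A hL 1 x = x := by
  rcases x with v | p
  · simp [ActW_A]
  · simp [ActW_A, ActW_P]

theorem ActW_A_mul (hL : IsLat H T T' o o') (g h : H) (x : V ⊕ PP T) :
    ActW_A hL (g * h) x = ActW_A hL g (ActW_A hL h x) := by
  rcases x with v | p
  · simp [ActW_A, mul_smul]
  · simp [ActW_A, ActW_P, mul_smul]

theorem ActW_B_one (hL : IsLat H T T' o o') (x : V' ⊕ QQ V' T o) : ActW_B hL 1 x = x := by
  rcases x with v | p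
  · simp [ActW_B]
  · simp [ActW_B]

theorem ActW_B_mul (hL : IsLat H T T' o o') (g h : H) (x : V' ⊕ QQ V' T o) :
    ActW_B hL (g * h) x = ActW_B hL g (ActW_B hL h x) := by
  rcases x with v | p
  · simp [ActW_B, mul_smul]
  · simp [ActW_B, mul_smul]

theorem ActW_A_inj (hL : IsLat H T T' o o') (h : H) {x y : V ⊕ PP T} :
    ActW_A hL h x = ActW_A hL h y ↔ x = y := by
  constructor
  · intro hxy
    have h1 := congrArg (ActW_A hL h⁻¹) hxy
    rwa [← ActW_A_mul, ← ActW_A_mul, inv_mul_cancel, ActW_A_one, ActW_A_one] at h1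
  · rintro rfl
    rfl

theorem ActW_B_inj (hL : IsLat H T T' o o') (h : H) {x y : V' ⊕ QQ V' T o} :
    ActW_B hL h x = ActW_B hL h y ↔ x = y := by
  constructor
  · intro hxy
    have h1 := congrArg (ActW_B hL h⁻¹) hxy
    rwa [← ActW_B_mul, ← ActW_B_mul, inv_mul_cancel, ActW_B_one, ActW_B_one] at h1
  · rintro rfl
    rfl

theorem ActW_A_adj (hL : IsLat H T T' o o') (h : H) (x y : V ⊕ PP T) :
    (pend T (fun p : PP T => p.1.1)).Adj (ActW_A hL h x) (ActW_A hL h y) ↔
      (pend T (fun p : PP T => p.1.1)).Adj x y := by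
  rcases x with v | p <;> rcases y with w | q
  · exact hL.adj h v w
  · exact (MulAction.injective h).eq_iff
  · exact (MulAction.injective h).eq_iff
  · exact Iff.rfl

theorem ActW_B_adj (hL : IsLat H T T' o o') (h : H) (x y : V' ⊕ QQ V' T o) :
    (pend T' (fun q : QQ V' T o => q.1)).Adj (ActW_B hL h x) (ActW_B hL h y) ↔
      (pend T' (fun q : QQ V' T o => q.1)).Adj x y := by
  rcases x with v | p <;> rcases y with w | q
  · exact hL.adj' h v w
  · exact (MulAction.injective h).eq_iff
  · exact (MulAction.injective h).eq_iff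
  · exact Iff.rfl

theorem ActW_a_smul (hL : IsLat H T T' o o') (h : H) (x : V ⊕ PP T) :
    ActW_a (ActW_A hL h x) = h • ActW_a x := by
  rcases x with v | p
  · rfl
  · rfl

theorem ActW_b_smul (hL : IsLat H T T' o o') (h : H) (x : V' ⊕ QQ V' T o) :
    ActW_b (ActW_B hL h x) = h • ActW_b x := by
  rcases x with v | p
  · rfl
  · rfl

theorem ActW_mem (hL : IsLat H T T' o o') (h : H) (q : WW H T o o') :
    (ActW_A hL h q.1.1, ActW_B hL h q.1.2) ∈ XS (V := V) (V' := V') (MM H T o o') := by
  obtain ⟨⟨x, y⟩, hq⟩ := q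
  rintro p p' hp hp'
  dsimp only at hp hp'
  rcases x with v | r
  · simp [ActW_A] at hp
  · rcases y with w | s
    · simp [ActW_B] at hp'
    · have h1 : ActW_P hL h r = p := Sum.inr_injective hp
      have h2 : (h • s.1, s.2) = p' := Sum.inr_injective hp'
      obtain ⟨g, hg1, hg2, hg3⟩ := hq r s rfl rfl
      subst h1 h2
      refine ⟨h * g, ?_, ?_, ?_⟩
      · rw [mul_smul, hg1]
        rfl
      · rw [mul_smul, hg2]
        rfl
      · rw [mul_smul, hg3]

/-- the action on the decorated product -/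
@[reducible] def ActW_act (hL : IsLat H T T' o o') : MulAction H (WW H T o o') where
  smul h q := ⟨(ActW_A hL h q.1.1, ActW_B hL h q.1.2), ActW_mem hL h q⟩
  one_smul q := by
    apply Subtype.ext
    exact Prod.ext (ActW_A_one hL _) (ActW_B_one hL _)
  mul_smul g h q := by
    apply Subtype.ext
    exact Prod.ext (ActW_A_mul hL g h _) (ActW_B_mul hL g h _)

theorem ActW_uniq (hL : IsLat H T T' o o') (h : H) {v : V} {v' : V'} (h1 : h • v = v)
    (h2 : h • v' = v') : h = 1 := by
  obtain ⟨g, ⟨hg1, hg2⟩, hg3⟩ := hL.st v v'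
  have h3 := hg3 (h * g) ⟨by rw [mul_smul, hg1, h1], by rw [mul_smul, hg2, h2]⟩
  exact mul_eq_right.1 h3

end ActWAux

theorem exists_act {V V' H : Type} [Group H] [MulAction H V] [MulAction H V'] {T : SimpleGraph V}
    {T' : SimpleGraph V'} {o : V} {o' : V'} (hL : IsLat H T T' o o') :
    ∃ _ : MulAction H (WW H T o o'),
      (∀ (h : H) (x y : WW H T o o'), (WG H T T' o o').Adj (h • x) (h • y) ↔
        (WG H T T' o o').Adj x y) ∧
      (∀ v : WW H T o o', (MulAction.stabilizer H v : Set H).Finite) ∧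
      Finite (MulAction.orbitRel.Quotient H (WW H T o o')) := by
  refine ⟨ActW_act hL, ?_, ?_, ?_⟩
  · intro h x y
    letI := ActW_act hL
    have e : ∀ z : WW H T o o', (h • z).1 = (ActW_A hL h z.1.1, ActW_B hL h z.1.2) :=
      fun z => rfl
    unfold WG XG
    rw [SimpleGraph.comap_adj, SimpleGraph.comap_adj]
    simp only [Function.Embedding.subtype_apply]
    rw [SimpleGraph.boxProd_adj, SimpleGraph.boxProd_adj, e x, e y]
    simp only
    rw [ActW_A_adj, ActW_B_adj, ActW_A_inj, ActW_B_inj]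
  · intro v
    letI := ActW_act hL
    refine (Set.finite_singleton (1 : H)).subset fun h hh => ?_
    have h1 : h • v = v := hh
    have h2 := congrArg Subtype.val h1
    have h3 : ActW_A hL h v.1.1 = v.1.1 := congrArg Prod.fst h2
    have h4 : ActW_B hL h v.1.2 = v.1.2 := congrArg Prod.snd h2
    have h5 := congrArg ActW_a h3
    have h6 := congrArg ActW_b h4
    rw [ActW_a_smul] at h5
    rw [ActW_b_smul] at h6
    exact ActW_uniq hL h h5 h6
  · letI := ActW_act hL
    have hfin : Finite {t : V // T.Adj o t} := (hL.lf o).to_subtype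
    have hA : {x : V ⊕ PP T | ActW_a x = o}.Finite := by
      refine ((Set.finite_singleton (Sum.inl o : V ⊕ PP T)).union
        (Set.finite_range fun t : {t : V // T.Adj o t} =>
          (Sum.inr ⟨(o, t.1), t.2⟩ : V ⊕ PP T))).subset ?_
      rintro (v | ⟨⟨a, b⟩, hab⟩) hx
      · left
        have h1 : v = o := hx
        rw [h1]
        rfl
      · right
        have h1 : a = o := hx
        subst h1
        exact ⟨⟨b, hab⟩, rfl⟩
    have hB : {x : V' ⊕ QQ V' T o | ActW_b x = o'}.Finite := by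
      refine ((Set.finite_singleton (Sum.inl o' : V' ⊕ QQ V' T o)).union
        (Set.finite_range fun t : {t : V // T.Adj o t} =>
          (Sum.inr (o', t) : V' ⊕ QQ V' T o))).subset ?_
      rintro (v | ⟨a, t⟩) hx
      · left
        have h1 : v = o' := hx
        rw [h1]
        rfl
      · right
        have h1 : a = o' := hx
        subst h1
        exact ⟨t, rfl⟩
    have hS : {q : WW H T o o' | ActW_a q.1.1 = o ∧ ActW_b q.1.2 = o'}.Finite := by
      refine Set.Finite.preimage Subtype.val_injective.injOn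
        ((hA.prod hB).subset ?_ : {q : (V ⊕ PP T) × (V' ⊕ QQ V' T o) |
          ActW_a q.1 = o ∧ ActW_b q.2 = o'}.Finite)
      rintro ⟨x, y⟩ ⟨h1, h2⟩
      exact ⟨h1, h2⟩
    have := hS.to_subtype
    refine Finite.of_surjective (fun q : {q : WW H T o o' | ActW_a q.1.1 = o ∧ ActW_b q.1.2 = o'} =>
      (Quotient.mk _ q.1 : MulAction.orbitRel.Quotient H (WW H T o o'))) ?_
    intro z
    obtain ⟨q, rfl⟩ := Quotient.exists_rep z
    obtain ⟨g, ⟨hg1, hg2⟩, -⟩ := hL.st (ActW_a q.1.1) (ActW_b q.1.2)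
    have h1 : ActW_a (ActW_A hL g⁻¹ q.1.1) = o := by
      rw [ActW_a_smul, ← hg1, inv_smul_smul]
    have h2 : ActW_b (ActW_B hL g⁻¹ q.1.2) = o' := by
      rw [ActW_b_smul, ← hg2, inv_smul_smul]
    refine ⟨⟨g⁻¹ • q, h1, h2⟩, ?_⟩
    apply Quotient.sound
    exact ⟨g⁻¹, rfl⟩

end Pool.Agent.MPbcc336
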