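import Pool.Agent.Lib.MP_bcc336_al.Base

/-!
The permutations of the free group defined by an invertible automaton.
-/

set_option autoImplicit false

namespace Pool.Agent.MPbcc336

theorem ltr_iv {α : Type} (s : α × Bool) : ltr (iv s) = (ltr s)⁻¹ := by
  sorry

theorem Auto.exists_perm {α ρ : Type} (A : Auto α ρ) :
    ∃ τ : ρ → Equiv.Perm (FreeGroup α),
      (∀ r, τ r 1 = 1) ∧
      (∀ r s x, τ r (ltr s * x) = ltr (A.out r s) * τ (A.nxt r s) x) ∧
      (∀ r, τ (A.bar r) = (τ r)⁻¹) ∧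
      (∀ r x s, ∃ s' : α × Bool, τ r (x * ltr s) = τ r x * ltr s') := by
  sorry

end Pool.Agent.MPbcc336
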