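import Mathlib

/-!
Convex embeddings of cocompact cube complexes into RAAG complexes: definitions.

The counterexample is a product of two trees (on which an irreducible lattice `H` acts simply
transitively) decorated by pendant edges; the square at the corner of two pendant edges is filled or
not according to an `H`-invariant pattern which has infinitely many different rows.
-/

set_option autoImplicit false

namespace Pool.Agent.MPbcc336

/-- The metric properties of trees which are used. -/
structure TL {V : Type} (G : SimpleGraph V) : Prop where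
  conn : G.Connected
  ne : ∀ u v w, G.Adj v w → G.dist u v ≠ G.dist u w
  uniq : ∀ u v w w', G.Adj v w → G.Adj v w' → G.dist u w < G.dist u v → G.dist u w' < G.dist u v →
    w = w'

/-- Median graphs (the connectedness is stated separately). -/
def Med {V : Type} (G : SimpleGraph V) : Prop :=
  ∀ x y z : V, ∃! m : V,
    G.dist x m + G.dist m y = G.dist x y ∧
    G.dist y m + G.dist m z = G.dist y z ∧
    G.dist x m + G.dist m z = G.dist x z

/-- The adjacency relation of `pend`. -/
def pendAdj {V P : Type} (G : SimpleGraph V) (b : P → V) : V ⊕ P → V ⊕ P → Prop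
  | .inl v, .inl w => G.Adj v w
  | .inl v, .inr p => b p = v
  | .inr p, .inl v => b p = v
  | .inr _, .inr _ => False

/-- The graph `G` with a new vertex `p` of degree one attached at `b p`, for every `p : P`. -/
def pend {V P : Type} (G : SimpleGraph V) (b : P → V) : SimpleGraph (V ⊕ P) where
  Adj := pendAdj G b
  symm := ⟨by
    rintro (v | p) (w | q) h
    · exact (show G.Adj v w from h).symm
    · exact h
    · exact h
    · exact h⟩
  loopless := ⟨by
    rintro (v | p) h
    · exact G.irrefl h
    · exact h⟩

/-- The vertices of the product of two graphs with pendant vertices, where the corner `(p, p')` is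
kept exactly when `M p p'` holds. -/
def XS {V P V' P' : Type} (M : P → P' → Prop) : Set ((V ⊕ P) × (V' ⊕ P')) :=
  {q | ∀ p p', q.1 = Sum.inr p → q.2 = Sum.inr p' → M p p'}

/-- The decorated product. -/
def XG {V P V' P' : Type} (G : SimpleGraph V) (b : P → V) (G' : SimpleGraph V') (b' : P' → V')
    (M : P → P' → Prop) : SimpleGraph (XS (V := V) (V' := V') M) :=
  (pend G b □ pend G' b').induce (XS M)

/-- The relators of the right-angled Artin group of the graph `Γ`. -/
def raagRels {n : ℕ} (Γ : SimpleGraph (Fin n)) : Set (FreeGroup (Fin n)) :=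
  {r | ∃ i j : Fin n, Γ.Adj i j ∧
    r = FreeGroup.of i * FreeGroup.of j * (FreeGroup.of i)⁻¹ * (FreeGroup.of j)⁻¹}

/-- The inverse letter. -/
def iv {α : Type} (s : α × Bool) : α × Bool := (s.1, !s.2)

/-- The element of the free group given by a letter. -/
def ltr {α : Type} (s : α × Bool) : FreeGroup α := FreeGroup.mk [s]

/-- The Cayley graph of the free group. -/
def cay (α : Type) : SimpleGraph (FreeGroup α) :=
  SimpleGraph.fromRel fun x y => ∃ s : α × Bool, y = x * ltr s

/-- Invertible automata acting on the words in the letters `α × Bool`, with the states `ρ`. -/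
structure Auto (α ρ : Type) where
  out : ρ → α × Bool → α × Bool
  nxt : ρ → α × Bool → ρ
  bar : ρ → ρ
  bar_bar : ∀ r, bar (bar r) = r
  out_iv : ∀ r s, out (nxt r s) (iv s) = iv (out r s)
  nxt_iv : ∀ r s, nxt (nxt r s) (iv s) = r
  out_bar : ∀ r s, out (bar r) (out r s) = s
  nxt_bar : ∀ r s, nxt (bar r) (out r s) = bar (nxt r s)

/-- A group acting simply transitively on the product of two locally finite trees. -/
structure IsLat {V V' : Type} (H : Type) [Group H] [MulAction H V] [MulAction H V']
    (T : SimpleGraph V) (T' : SimpleGraph V') (o : V) (o' : V') : Prop where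
  tl : TL T
  tl' : TL T'
  lf : ∀ v, (T.neighborSet v).Finite
  lf' : ∀ v, (T'.neighborSet v).Finite
  adj : ∀ (h : H) (x y : V), T.Adj (h • x) (h • y) ↔ T.Adj x y
  adj' : ∀ (h : H) (x y : V'), T'.Adj (h • x) (h • y) ↔ T'.Adj x y
  st : ∀ (v : V) (v' : V'), ∃! h : H, h • o = v ∧ h • o' = v'

/-- The pendant vertices of the first tree: the oriented edges. -/
abbrev PP {V : Type} (T : SimpleGraph V) : Type := {q : V × V // T.Adj q.1 q.2}

/-- The pendant vertices of the second tree: one for each vertex and each neighbour of `o`. -/
abbrev QQ {V : Type} (V' : Type) (T : SimpleGraph V) (o : V) : Type := V' × {t : V // T.Adj o t}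

/-- The pattern: the oriented edge `p` at the height `q.1` has the type `q.2`. -/
def MM {V V' : Type} (H : Type) [Group H] [MulAction H V] [MulAction H V'] (T : SimpleGraph V)
    (o : V) (o' : V') (p : PP T) (q : QQ V' T o) : Prop :=
  ∃ h : H, h • o = p.1.1 ∧ h • q.2.1 = p.1.2 ∧ h • o' = q.1

/-- The vertices of the counterexample. -/
abbrev WW {V V' : Type} (H : Type) [Group H] [MulAction H V] [MulAction H V'] (T : SimpleGraph V)
    (o : V) (o' : V') : Type := XS (V := V) (V' := V') (MM H T o o')

/-- The counterexample. -/
abbrev WG {V V' : Type} (H : Type) [Group H] [MulAction H V] [MulAction H V'] (T : SimpleGraph V)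
    (T' : SimpleGraph V') (o : V) (o' : V') : SimpleGraph (WW H T o o') :=
  XG T (fun p : PP T => p.1.1) T' (fun q : QQ V' T o => q.1) (MM H T o o')

end Pool.Agent.MPbcc336
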