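import Mathlib

/-!
# An odometer in the Bellaterra automaton (MP_bcc336_al)

States `0, 1, 2`; the state `2` changes the first letter. Every product of states with an odd number
of letters `2` and an odd number of the other letters acts on `{0,1}^n` as one cycle.
-/

set_option autoImplicit false

namespace BCC

/-- output letter -/
def bπ (s : Fin 3) (x : Bool) : Bool := if s = 2 then !x else x

/-- next state -/
def bρ (s : Fin 3) (x : Bool) : Fin 3 :=
  if s = 2 then 0 else if s = 0 then (if x then 1 else 2) else (if x then 2 else 1)

/-- action of a state on words -/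
def bact (s : Fin 3) : List Bool → List Bool
  | [] => []
  | x :: w => bπ s x :: bact (bρ s x) w

@[simp] theorem bact_nil (s : Fin 3) : bact s [] = [] := rfl

@[simp] theorem bact_cons (s : Fin 3) (x : Bool) (w : List Bool) :
    bact s (x :: w) = bπ s x :: bact (bρ s x) w := rfl

theorem length_bact (s : Fin 3) (w : List Bool) : (bact s w).length = w.length := by
  induction w generalizing s with
  | nil => rfl
  | cons x w ih => simp [ih]

theorem bπ_bπ (s : Fin 3) (x : Bool) : bπ s (bπ s x) = x := by revert s x; decide

theorem bρ_bπ (s : Fin 3) (x : Bool) : bρ s (bπ s x) = bρ s x := by revert s x; decide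

theorem bact_bact (s : Fin 3) (w : List Bool) : bact s (bact s w) = w := by
  induction w generalizing s with
  | nil => rfl
  | cons x w ih => rw [bact_cons, bact_cons, bπ_bπ, bρ_bπ, ih]

theorem bact_take (s : Fin 3) (w : List Bool) (k : ℕ) : bact s (w.take k) = (bact s w).take k := by
  induction w generalizing s k with
  | nil => simp
  | cons x w ih =>
    cases k with
    | zero => simp
    | succ k => simp [ih]

/-- action of a product of states -/
def wact : List (Fin 3) → List Bool → List Bool
  | [], w => w
  | s :: t, w => bact s (wact t w)

/-- action on a letter -/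
def wlet : List (Fin 3) → Bool → Bool
  | [], x => x
  | s :: t, x => bπ s (wlet t x)

/-- section at a letter -/
def wsec : List (Fin 3) → Bool → List (Fin 3)
  | [], _ => []
  | s :: t, x => bρ s (wlet t x) :: wsec t x

theorem wact_cons (t : List (Fin 3)) (x : Bool) (w : List Bool) :
    wact t (x :: w) = wlet t x :: wact (wsec t x) w := by
  induction t with
  | nil => rfl
  | cons s t ih => rw [wact, ih, bact_cons, wlet, wsec, wact]

theorem wact_append (t u : List (Fin 3)) (w : List Bool) : wact (t ++ u) w = wact t (wact u w) := by
  induction t with
  | nil => rfl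
  | cons s t ih => rw [List.cons_append, wact, ih, wact]

theorem length_wact (t : List (Fin 3)) (w : List Bool) : (wact t w).length = w.length := by
  induction t with
  | nil => rfl
  | cons s t ih => rw [wact, length_bact, ih]

theorem exists_wact_eq (t : List (Fin 3)) (w : List Bool) :
    ∃ v, v.length = w.length ∧ wact t v = w := by
  induction t generalizing w with
  | nil => exact ⟨w, rfl, rfl⟩
  | cons s t ih =>
    obtain ⟨v, hv, hv'⟩ := ih (bact s w)
    refine ⟨v, by rw [hv, length_bact], ?_⟩
    rw [wact, hv', bact_bact]

/-- parity of the number of `2` -/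
def cp : List (Fin 3) → Bool
  | [] => false
  | s :: t => xor (decide (s = 2)) (cp t)

/-- parity of the number of other letters -/
def np : List (Fin 3) → Bool
  | [] => false
  | s :: t => xor (decide (s ≠ 2)) (np t)

theorem cp_append (t u : List (Fin 3)) : cp (t ++ u) = xor (cp t) (cp u) := by
  induction t with
  | nil => simp [cp]
  | cons s t ih => rw [List.cons_append, cp, ih, cp, Bool.xor_assoc]

theorem np_append (t u : List (Fin 3)) : np (t ++ u) = xor (np t) (np u) := by
  induction t with
  | nil => simp [np]
  | cons s t ih => rw [List.cons_append, np, ih, np, Bool.xor_assoc]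

theorem wlet_eq (t : List (Fin 3)) (x : Bool) : wlet t x = xor x (cp t) := by
  induction t with
  | nil => simp [wlet, cp]
  | cons s t ih =>
    rw [wlet, ih, cp]
    have key : ∀ (s : Fin 3) (x c : Bool),
        bπ s (xor x c) = xor x (xor (decide (s = 2)) c) := by decide
    exact key s x _

theorem sec_aux1 (s : Fin 3) (c : Bool) (p q r : Bool) (h : xor p q = r) :
    xor (xor (decide (bρ s (xor false c) = 2)) p) (xor (decide (bρ s (xor true c) = 2)) q) =
      xor (decide (s ≠ 2)) r := by
  subst h
  revert s c p q
  decide

theorem sec_aux2 (s : Fin 3) (c : Bool) (p q r : Bool) (h : xor p q = r) :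
    xor (xor (decide (bρ s (xor false c) ≠ 2)) p) (xor (decide (bρ s (xor true c) ≠ 2)) q) =
      xor (decide (s ≠ 2)) r := by
  subst h
  revert s c p q
  decide

theorem cp_wsec (t : List (Fin 3)) : xor (cp (wsec t false)) (cp (wsec t true)) = np t := by
  induction t with
  | nil => rfl
  | cons s t ih =>
    rw [wsec, wsec, cp, cp, np, wlet_eq, wlet_eq]
    exact sec_aux1 s (cp t) _ _ _ ih

theorem np_wsec (t : List (Fin 3)) : xor (np (wsec t false)) (np (wsec t true)) = np t := by
  induction t with
  | nil => rfl
  | cons s t ih =>
    rw [wsec, wsec, np, np, np, wlet_eq, wlet_eq]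
    exact sec_aux2 s (cp t) _ _ _ ih

/-- transitivity on words of length `n` -/
theorem odometer (n : ℕ) : ∀ t : List (Fin 3), cp t = true → np t = true →
    ∀ w w' : List Bool, w.length = n → w'.length = n → ∃ k : ℕ, (wact t)^[k] w = w' := by
  induction n with
  | zero =>
    intro t _ _ w w' hw hw'
    rw [List.length_eq_zero_iff] at hw hw'
    exact ⟨0, by rw [hw, hw']; rfl⟩
  | succ n ih =>
    intro t hc hn
    have hfalse : ∀ v, wact t (false :: v) = true :: wact (wsec t false) v := by
      intro v
      rw [wact_cons, wlet_eq, hc]
      rfl
    have htrue : ∀ v, wact t (true :: v) = false :: wact (wsec t true) v := by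
      intro v
      rw [wact_cons, wlet_eq, hc]
      rfl
    -- the square on the words with first letter `false`
    have hsq : ∀ (k : ℕ) v, (wact t)^[2 * k] (false :: v) =
        false :: (wact (wsec t true ++ wsec t false))^[k] v := by
      intro k
      induction k with
      | zero => intro v; rfl
      | succ k ihk =>
        intro v
        have : 2 * (k + 1) = 2 * k + 1 + 1 := by ring
        rw [this, Function.iterate_succ_apply, Function.iterate_succ_apply, hfalse, htrue, ihk,
          ← wact_append, Function.iterate_succ_apply]
    have hc1 : cp (wsec t true ++ wsec t false) = true := by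
      rw [cp_append, Bool.xor_comm, cp_wsec, hn]
    have hn1 : np (wsec t true ++ wsec t false) = true := by
      rw [np_append, Bool.xor_comm, np_wsec, hn]
    have step : ∀ v v' : List Bool, v.length = n → v'.length = n →
        ∃ k : ℕ, (wact t)^[k] (false :: v) = false :: v' := by
      intro v v' hv hv'
      obtain ⟨k, hk⟩ := ih _ hc1 hn1 v v' hv hv'
      exact ⟨2 * k, by rw [hsq, hk]⟩
    have step2 : ∀ (v : List Bool) (w' : List Bool), v.length = n → w'.length = n + 1 →
        ∃ k : ℕ, (wact t)^[k] (false :: v) = w' := by
      intro v w' hv hw'
      cases w' with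
      | nil => simp at hw'
      | cons y v' =>
        rw [List.length_cons, Nat.add_right_cancel_iff] at hw'
        cases y with
        | false => exact step v v' hv hw'
        | true =>
          obtain ⟨u, hu, hu'⟩ := exists_wact_eq (wsec t false) v'
          obtain ⟨k, hk⟩ := step v u hv (hu.trans hw')
          refine ⟨k + 1, ?_⟩
          rw [Function.iterate_succ_apply', hk, hfalse, hu']
    intro w w' hw hw'
    cases w with
    | nil => simp at hw
    | cons x v =>
      rw [List.length_cons, Nat.add_right_cancel_iff] at hw
      cases x with
      | false => exact step2 v w' hw hw'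
      | true =>
        obtain ⟨k, hk⟩ := step2 (wact (wsec t true) v) w' (by rw [length_wact, hw]) hw'
        refine ⟨k + 1, ?_⟩
        rw [Function.iterate_succ_apply, htrue, hk]

end BCC
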