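import Pool.Agent.Lib.MP_bcc336_al.Cplx
import Pool.Agent.Lib.MP_bcc336_al.Odo

/-!
# The pair of machines of the Bellaterra automaton and its pattern of hyperplanes (MP_bcc336_al)

Letters: pairs `(x, e)`, `e = true` marks the inverse letter. States: `0, 1, 2` (involutions).
-/

set_option autoImplicit false

namespace BCC

/-- output -/
def mπ (s : Fin 3) (y : Bool × Bool) : Bool × Bool :=
  if y.2 = false then (bπ s y.1, false) else (if s = 0 then (!y.1, true) else (y.1, true))

/-- next state -/
def mρ (s : Fin 3) (y : Bool × Bool) : Fin 3 :=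
  if y.2 = false then bρ s y.1 else
    if s = 0 then 2 else
      if s = 1 then (if y.1 then 0 else 1) else (if y.1 then 1 else 0)

/-- output of the dual -/
def dπ (y : Bool × Bool) (t : Fin 3) : Fin 3 := mρ t (y.1, !y.2)

/-- next state of the dual -/
def dρ (y : Bool × Bool) (t : Fin 3) : Bool × Bool := ((mπ t (y.1, !y.2)).1, !(mπ t (y.1, !y.2)).2)

/-- the machine -/
def bm : Mach (Bool × Bool) (Fin 3) where
  iA y := (y.1, !y.2)
  iB s := s
  π := mπ
  ρ := mρ
  iA_iA := by decide
  iB_iB := by decide
  c1 := by decide
  c1' := by decide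
  c2 := by decide
  c2' := by decide

/-- the dual machine -/
def bd : Mach (Fin 3) (Bool × Bool) where
  iA s := s
  iB y := (y.1, !y.2)
  π := dπ
  ρ := dρ
  iA_iA := by decide
  iB_iB := by decide
  c1 := by decide
  c1' := by decide
  c2 := by decide
  c2' := by decide

/-- the pair -/
def BP : Pair (Bool × Bool) (Fin 3) where
  m := bm
  d := bd
  dA := rfl
  dB := rfl
  l1 := by decide
  l2 := by decide

end BCC
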