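import Pool.Agent.Lib.MP_bcc336_al.Dst

/-!
The Cayley graph of the free group is a tree.
-/

set_option autoImplicit false

namespace Pool.Agent.MPbcc336

theorem cay_adj {α : Type} (x y : FreeGroup α) :
    (cay α).Adj x y ↔ ∃ s : α × Bool, y = x * ltr s := by
  sorry

theorem cay_mul {α : Type} (g x y : FreeGroup α) :
    (cay α).Adj (g * x) (g * y) ↔ (cay α).Adj x y := by
  sorry

theorem cay_lf {α : Type} [Finite α] (x : FreeGroup α) : ((cay α).neighborSet x).Finite := by
  sorry

theorem cay_tl (α : Type) : TL (cay α) := by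
  sorry

end Pool.Agent.MPbcc336
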