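import Pool.Agent.Lib.MP_bcc336_al.Grp

/-!
# The complex: product of two trees with strips along the `x₀`-lines (MP_bcc336_al)
-/

set_option autoImplicit false

namespace BCC

namespace Pair

variable {A B : Type} [DecidableEq A] [DecidableEq B] (P : Pair A B) (x₀ : A)

/-- the generator `x₀` as an element of the group -/
def f0 : P.H := ⟨P.gA x₀, P.gA_mem x₀⟩

/-- The strip of a vertex. -/
noncomputable def cls (p : P.M) : P.H ⧸ Subgroup.zpowers (P.f0 x₀) := QuotientGroup.mk (P.el p)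

theorem cls_eq_iff (p q : P.M) :
    P.cls x₀ p = P.cls x₀ q ↔ ∃ k : ℤ, P.el q = P.el p * (P.f0 x₀) ^ k := by
  unfold cls
  rw [QuotientGroup.eq, Subgroup.mem_zpowers_iff]
  constructor
  · rintro ⟨k, hk⟩
    exact ⟨k, by rw [hk, mul_inv_cancel_left]⟩
  · rintro ⟨k, hk⟩
    exact ⟨k, by rw [hk, inv_mul_cancel_left]⟩

theorem cls_ap (g : P.H) (p q : P.M) :
    P.cls x₀ (P.ap g.1 p) = P.cls x₀ (P.ap g.1 q) ↔ P.cls x₀ p = P.cls x₀ q := by
  rw [cls_eq_iff, cls_eq_iff, el_ap, el_ap]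
  apply exists_congr
  intro k
  rw [mul_assoc, mul_right_inj]

variable {x₀}

theorem red_replicate {x : A} (hx : P.m.iA x ≠ x) (n : ℕ) : P.m.Red (List.replicate n x) := by
  unfold Mach.Red
  apply List.isChain_replicate_of_rel
  exact hx.symm

theorem wA_replicate (x : A) (n : ℕ) : P.wA (List.replicate n x) = P.gA x ^ n := by
  unfold wA
  rw [List.map_replicate, List.prod_replicate]

theorem ap_pow_o {x : A} (hx : P.m.iA x ≠ x) (n : ℕ) :
    P.ap (P.gA x ^ n) P.o = (⟨List.replicate n x, P.red_replicate hx n⟩, P.d.root) := by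
  rw [← wA_replicate]
  apply Prod.ext
  · exact Subtype.ext (P.wA_fst_root _ (P.red_replicate hx n))
  · exact P.wA_snd_root _

theorem iA_ne (hx : P.m.iA x₀ ≠ x₀) : P.m.iA (P.m.iA x₀) ≠ P.m.iA x₀ := by
  rw [P.m.iA_iA]
  exact hx.symm

theorem f0_zpow_o (hx : P.m.iA x₀ ≠ x₀) (k : ℤ) :
    (∃ n, P.ap ((P.f0 x₀) ^ k).1 P.o =
      (⟨List.replicate n x₀, P.red_replicate hx n⟩, P.d.root)) ∨
    ∃ n, P.ap ((P.f0 x₀) ^ k).1 P.o =
      (⟨List.replicate n (P.m.iA x₀), P.red_replicate (P.iA_ne hx) n⟩, P.d.root) := by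
  obtain ⟨n, rfl | rfl⟩ := Int.eq_nat_or_neg k
  · left
    refine ⟨n, ?_⟩
    rw [zpow_natCast, SubgroupClass.coe_pow]
    exact P.ap_pow_o hx n
  · right
    refine ⟨n, ?_⟩
    rw [zpow_neg, zpow_natCast, ← inv_pow, SubgroupClass.coe_pow, InvMemClass.coe_inv]
    change P.ap ((P.gA x₀)⁻¹ ^ n) P.o = _
    rw [gA_inv]
    exact P.ap_pow_o (P.iA_ne hx) n

theorem exists_zpow_o (hx : P.m.iA x₀ ≠ x₀) (n : ℕ) :
    (∃ k : ℤ, P.ap ((P.f0 x₀) ^ k).1 P.o =
      (⟨List.replicate n x₀, P.red_replicate hx n⟩, P.d.root)) ∧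
    ∃ k : ℤ, P.ap ((P.f0 x₀) ^ k).1 P.o =
      (⟨List.replicate n (P.m.iA x₀), P.red_replicate (P.iA_ne hx) n⟩, P.d.root) := by
  constructor
  · refine ⟨n, ?_⟩
    rw [zpow_natCast, SubgroupClass.coe_pow]
    exact P.ap_pow_o hx n
  · refine ⟨-n, ?_⟩
    rw [zpow_neg, zpow_natCast, ← inv_pow, SubgroupClass.coe_pow, InvMemClass.coe_inv]
    change P.ap ((P.gA x₀)⁻¹ ^ n) P.o = _
    rw [gA_inv]
    exact P.ap_pow_o (P.iA_ne hx) n

theorem btw_root₂ {u : P.d.Tree} (h : Btw P.F₂ P.d.root u P.d.root) : u = P.d.root := by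
  apply P.med₂.inj
  ext w
  have := h w
  tauto

theorem btw_replicate {x : A} (hx : P.m.iA x ≠ x) {n : ℕ} {u : P.m.Tree}
    (h : Btw P.F₁ P.m.root u ⟨List.replicate n x, P.red_replicate hx n⟩) :
    ∃ j, u = ⟨List.replicate j x, P.red_replicate hx j⟩ := by
  have h1 : u.1 <+: List.replicate n x := by
    apply prefix_of_pre_subset
    intro v hv
    rcases (h v).2 hv with h' | h'
    · exfalso
      have := (mem_pre.1 h')
      exact this.1 (List.prefix_nil.1 this.2)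
    · exact h'
  rw [List.prefix_replicate_iff] at h1
  exact ⟨u.1.length, Subtype.ext h1.2⟩

theorem line_btw (hx : P.m.iA x₀ ≠ x₀) (k : ℤ) (m : P.M)
    (h : Btw P.FM P.o m (P.ap ((P.f0 x₀) ^ k).1 P.o)) :
    ∃ j : ℤ, m = P.ap ((P.f0 x₀) ^ j).1 P.o := by
  rcases P.f0_zpow_o hx k with ⟨n, hn⟩ | ⟨n, hn⟩
  · rw [hn, btw_prodFam] at h
    obtain ⟨j, hj⟩ := P.btw_replicate hx h.1
    have h2 := P.btw_root₂ h.2
    obtain ⟨i, hi⟩ := (P.exists_zpow_o hx j).1
    exact ⟨i, by rw [hi]; exact Prod.ext hj h2⟩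
  · rw [hn, btw_prodFam] at h
    obtain ⟨j, hj⟩ := P.btw_replicate (P.iA_ne hx) h.1
    have h2 := P.btw_root₂ h.2
    obtain ⟨i, hi⟩ := (P.exists_zpow_o hx j).2
    exact ⟨i, by rw [hi]; exact Prod.ext hj h2⟩

theorem ap_el_inv (p : P.M) : P.ap (P.el p).1⁻¹ p = P.o := by
  have := P.ap_inv_ap (P.el p).1 P.o
  rwa [ap_el] at this

theorem cls_convex (hx : P.m.iA x₀ ≠ x₀) (p m q : P.M) (hpq : P.cls x₀ p = P.cls x₀ q)
    (h : Btw P.FM p m q) : P.cls x₀ m = P.cls x₀ p := by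
  rw [cls_eq_iff] at hpq
  obtain ⟨k, hk⟩ := hpq
  have h1 := P.btwM_ap (inv_mem (P.el p).2) h
  have e1 : P.ap (P.el p).1⁻¹ p = P.o := P.ap_el_inv p
  have e2 : P.ap (P.el p).1⁻¹ q = P.ap ((P.f0 x₀) ^ k).1 P.o := by
    conv_lhs => rw [← P.ap_el q, hk]
    change P.ap _ (P.ap ((P.el p).1 * ((P.f0 x₀) ^ k).1) P.o) = _
    rw [ap_mul, ap_inv_ap]
  rw [e1, e2] at h1
  obtain ⟨j, hj⟩ := P.line_btw hx k _ h1
  have h2 : P.el m = P.el p * (P.f0 x₀) ^ j := by
    apply P.el_eq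
    change P.ap ((P.el p).1 * ((P.f0 x₀) ^ j).1) P.o = m
    rw [ap_mul, ← hj, ap_ap_inv]
  symm
  rw [cls_eq_iff]
  exact ⟨j, h2⟩

variable (x₀)

/-- vertices of the complex -/
abbrev V : Type := P.M × Bool

open Classical in
/-- the family of the complex -/
noncomputable def FV : P.V → Finset ((List A ⊕ List B) ⊕ (P.H ⧸ Subgroup.zpowers (P.f0 x₀))) :=
  finFam P.FM (P.cls x₀)

open Classical in
theorem medV (hx : P.m.iA x₀ ≠ x₀) : MedFam (P.FV x₀) :=
  P.medM.fins (P.cls x₀) (P.cls_convex hx)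

open Classical in
/-- the graph -/
noncomputable def G : SimpleGraph P.V := famGraph (P.FV x₀)

theorem G_adj (x y : P.V) : (P.G x₀).Adj x y ↔
    (x.2 = false ∧ y.2 = false ∧ (famGraph P.FM).Adj x.1 y.1) ∨
    (x.2 = true ∧ y.2 = true ∧ P.cls x₀ x.1 = P.cls x₀ y.1 ∧ (famGraph P.FM).Adj x.1 y.1) ∨
    (x.1 = y.1 ∧ x.2 ≠ y.2) := finFam_adj _ P.medM.inj _ x y

/-- the action on the vertices -/
instance : MulAction P.H P.V where
  smul g x := (P.ap g.1 x.1, x.2)
  one_smul x := rfl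
  mul_smul g h x := rfl

theorem smul_def (g : P.H) (x : P.V) : g • x = (P.ap g.1 x.1, x.2) := rfl

theorem G_adj_smul (g : P.H) (x y : P.V) : (P.G x₀).Adj (g • x) (g • y) ↔ (P.G x₀).Adj x y := by
  rw [G_adj, G_adj, smul_def, smul_def]
  dsimp only
  rw [P.adjM_iff g.2, P.cls_ap]
  have : P.ap g.1 x.1 = P.ap g.1 y.1 ↔ x.1 = y.1 := by
    constructor
    · intro h
      rw [← P.ap_inv_ap g.1 x.1, h, P.ap_inv_ap]
    · intro h
      rw [h]
  rw [this]

theorem stabilizer_eq_bot (x : P.V) : MulAction.stabilizer P.H x = ⊥ := by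
  rw [eq_bot_iff]
  intro g hg
  rw [MulAction.mem_stabilizer_iff, smul_def] at hg
  have h1 : P.ap g.1 x.1 = x.1 := congrArg Prod.fst hg
  have h2 := P.el_ap g x.1
  rw [h1] at h2
  rw [Subgroup.mem_bot]
  exact (mul_eq_right.1 h2.symm)

theorem finite_quotient : Finite (MulAction.orbitRel.Quotient P.H P.V) := by
  have : Function.Surjective
      (fun b : Bool => (Quotient.mk'' (P.o, b) : MulAction.orbitRel.Quotient P.H P.V)) := by
    intro q
    induction q using Quotient.inductionOn' with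
    | h x =>
      refine ⟨x.2, ?_⟩
      apply Quotient.sound'
      rw [MulAction.orbitRel_apply, MulAction.mem_orbit_iff]
      refine ⟨(P.el x.1)⁻¹, ?_⟩
      rw [smul_def]
      apply Prod.ext
      · exact P.ap_el_inv x.1
      · rfl
  exact Finite.of_surjective _ this

theorem tree_finite₁ [Finite A] (u : P.m.Tree) :
    {w : P.m.Tree | (famGraph P.F₁).Adj u w}.Finite := by
  have h1 : {w : P.m.Tree | (famGraph P.F₁).Adj u w} ⊆
      (fun w : P.m.Tree => w.1) ⁻¹' (Set.range (fun a => u.1 ++ [a]) ∪ {u.1.dropLast}) := by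
    intro w hw
    rw [Set.mem_setOf_eq, wordFam_adj P.m.red_of_prefix] at hw
    rcases hw with ⟨a, ha⟩ | ⟨a, ha⟩
    · exact Or.inl ⟨a, ha.symm⟩
    · right
      change w.1 = u.1.dropLast
      rw [ha, List.dropLast_concat]
  refine Set.Finite.subset (Set.Finite.preimage ?_ ?_) h1
  · exact Subtype.val_injective.injOn
  · exact (Set.finite_range _).union (Set.finite_singleton _)

theorem tree_finite₂ [Finite B] (u : P.d.Tree) :
    {w : P.d.Tree | (famGraph P.F₂).Adj u w}.Finite := by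
  have h1 : {w : P.d.Tree | (famGraph P.F₂).Adj u w} ⊆
      (fun w : P.d.Tree => w.1) ⁻¹' (Set.range (fun a => u.1 ++ [a]) ∪ {u.1.dropLast}) := by
    intro w hw
    rw [Set.mem_setOf_eq, wordFam_adj P.d.red_of_prefix] at hw
    rcases hw with ⟨a, ha⟩ | ⟨a, ha⟩
    · exact Or.inl ⟨a, ha.symm⟩
    · right
      change w.1 = u.1.dropLast
      rw [ha, List.dropLast_concat]
  refine Set.Finite.subset (Set.Finite.preimage ?_ ?_) h1
  · exact Subtype.val_injective.injOn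
  · exact (Set.finite_range _).union (Set.finite_singleton _)

theorem G_locallyFinite [Finite A] [Finite B] (x : P.V) : ((P.G x₀).neighborSet x).Finite := by
  have h1 : (P.G x₀).neighborSet x ⊆
      ((({x.1.1} ∪ {w : P.m.Tree | (famGraph P.F₁).Adj x.1.1 w}) ×ˢ
        ({x.1.2} ∪ {w : P.d.Tree | (famGraph P.F₂).Adj x.1.2 w})) ×ˢ (Set.univ : Set Bool)) := by
    intro y hy
    rw [SimpleGraph.mem_neighborSet, G_adj] at hy
    have key : (famGraph P.FM).Adj x.1 y.1 →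
        y.1.1 ∈ ({x.1.1} ∪ {w : P.m.Tree | (famGraph P.F₁).Adj x.1.1 w}) ∧
        y.1.2 ∈ ({x.1.2} ∪ {w : P.d.Tree | (famGraph P.F₂).Adj x.1.2 w}) := by
      intro h
      rw [prodFam_adj _ _ P.med₁.inj P.med₂.inj] at h
      rcases h with ⟨h, h'⟩ | ⟨h, h'⟩
      · exact ⟨Or.inr h, Or.inl h'.symm⟩
      · exact ⟨Or.inl h.symm, Or.inr h'⟩
    rw [Set.mem_prod, Set.mem_prod]
    refine ⟨?_, trivial⟩
    rcases hy with hy | hy | hy
    · exact key hy.2.2
    · exact key hy.2.2.2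
    · rw [← hy.1]
      exact ⟨Or.inl rfl, Or.inl rfl⟩
  refine Set.Finite.subset ?_ h1
  exact (((Set.finite_singleton _).union (P.tree_finite₁ _)).prod
    ((Set.finite_singleton _).union (P.tree_finite₂ _))).prod Set.finite_univ

end Pair

end BCC
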