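import Pool.Agent.Lib.MP_bcc336_al.Base

/-!
A criterion computing the distance of a graph.
-/

set_option autoImplicit false

namespace Pool.Agent.MPbcc336

theorem dist_of {V : Type} [Nonempty V] {G : SimpleGraph V} (D : V → V → ℕ)
    (h0 : ∀ x, D x x = 0) (h1 : ∀ x y z, G.Adj x y → D x z ≤ D y z + 1)
    (h2 : ∀ x z, x ≠ z → ∃ y, G.Adj x y ∧ D y z + 1 = D x z) :
    G.Connected ∧ ∀ x y, G.dist x y = D x y := by
  have key : ∀ n x z, D x z = n → ∃ w : G.Walk x z, w.length = n := by
    intro n
    induction n with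
    | zero =>
      intro x z h
      by_cases hxz : x = z
      · subst hxz
        exact ⟨SimpleGraph.Walk.nil, rfl⟩
      · obtain ⟨y, _, hy⟩ := h2 x z hxz
        omega
    | succ n ih =>
      intro x z h
      have hxz : x ≠ z := by
        rintro rfl
        rw [h0] at h
        omega
      obtain ⟨y, hy, hy2⟩ := h2 x z hxz
      obtain ⟨w, hw⟩ := ih y z (by omega)
      exact ⟨SimpleGraph.Walk.cons hy w, by rw [SimpleGraph.Walk.length_cons, hw]⟩
  have conn : G.Connected := by
    rw [SimpleGraph.connected_iff]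
    refine ⟨fun x z => ?_, inferInstance⟩
    obtain ⟨w, _⟩ := key _ x z rfl
    exact ⟨w⟩
  refine ⟨conn, fun x z => le_antisymm ?_ ?_⟩
  · obtain ⟨w, hw⟩ := key _ x z rfl
    rw [← hw]
    exact SimpleGraph.dist_le w
  · have h3 : ∀ (x z : V) (w : G.Walk x z), D x z ≤ w.length := by
      intro x z w
      induction w with
      | nil => rw [h0]; exact Nat.zero_le _
      | cons h w ih =>
        rw [SimpleGraph.Walk.length_cons]
        exact (h1 _ _ _ h).trans (by omega)
    obtain ⟨w, hw⟩ := conn.exists_walk_length_eq_dist x z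
    rw [← hw]
    exact h3 x z w

end Pool.Agent.MPbcc336
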