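import Pool.Agent.Lib.MP_bcc336_al.Base

/-!
The decorated product is locally finite.
-/

set_option autoImplicit false

namespace Pool.Agent.MPbcc336

theorem WG_lf {V V' H : Type} [Group H] [MulAction H V] [MulAction H V'] {T : SimpleGraph V}
    {T' : SimpleGraph V'} {o : V} {o' : V'} (hL : IsLat H T T' o o') (v : WW H T o o') :
    ((WG H T T' o o').neighborSet v).Finite := by
  sorry

end Pool.Agent.MPbcc336
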