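import Pool.Agent.Lib.MP_bcc336_al.Tab

/-!
A linear representation of the square structure in which the powers of two letters do not commute.
-/

set_option autoImplicit false

namespace Pool.Agent.MPbcc336

/-- The rotation matrix of a quaternion, times its norm. -/
def Rot_m (w x y z : ℤ) : Matrix (Fin 3) (Fin 3) ℤ :=
  !![w * w + x * x - y * y - z * z, 2 * (x * y - w * z), 2 * (x * z + w * y);
    2 * (x * y + w * z), w * w - x * x + y * y - z * z, 2 * (y * z - w * x);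
    2 * (x * z - w * y), 2 * (y * z + w * x), w * w - x * x - y * y + z * z]

/-- The matrices of the letters of the first tree. -/
def Rot_a : Fin 2 × Bool → Matrix (Fin 3) (Fin 3) ℤ
  | (0, true) => Rot_m 1 0 1 1
  | (0, false) => Rot_m 1 0 (-1) (-1)
  | (1, true) => Rot_m 1 0 1 (-1)
  | (1, false) => Rot_m 1 0 (-1) 1

/-- The matrices of the letters of the second tree. -/
def Rot_b : Fin 3 × Bool → Matrix (Fin 3) (Fin 3) ℤ
  | (0, true) => Rot_m 1 2 0 0
  | (0, false) => Rot_m 1 (-2) 0 0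
  | (1, true) => Rot_m 1 0 2 0
  | (1, false) => Rot_m 1 0 (-2) 0
  | (2, true) => Rot_m 1 0 0 2
  | (2, false) => Rot_m 1 0 0 (-2)

private theorem Rot_a_iv : ∀ s, Rot_a s * Rot_a (iv s) = (9 : ℤ) • (1 : Matrix (Fin 3) (Fin 3) ℤ) := by
  decide

private theorem Rot_b_iv : ∀ s, Rot_b s * Rot_b (iv s) = (25 : ℤ) • (1 : Matrix (Fin 3) (Fin 3) ℤ) := by
  decide

private theorem Rot_sq : ∀ r s, Rot_b r * Rot_a s = Rot_a (out1 r s) * Rot_b (nxt1 r s) := by
  decide

/-- Cast to rational matrices. -/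
noncomputable def Rot_c : Matrix (Fin 3) (Fin 3) ℤ →+* Matrix (Fin 3) (Fin 3) ℚ :=
  (Int.castRingHom ℚ).mapMatrix

private theorem Rot_c_inj : Function.Injective Rot_c := by
  intro A B h
  ext i j
  have := congrFun (congrFun h i) j
  simpa [Rot_c] using this

private theorem Rot_c_smul (c : ℤ) (A : Matrix (Fin 3) (Fin 3) ℤ) :
    Rot_c (c • A) = (c : ℚ) • Rot_c A := by
  ext i j
  change (((c • A) i j : ℤ) : ℚ) = (c : ℚ) * ((A i j : ℤ) : ℚ)
  rw [Matrix.smul_apply, smul_eq_mul, Int.cast_mul]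

private theorem Rot_iv_iv {α : Type} (s : α × Bool) : iv (iv s) = s := by
  unfold iv; simp

/-- A scaled integer matrix as a unit. -/
noncomputable def Rot_u (c : ℚ) (A B : Matrix (Fin 3) (Fin 3) ℤ) (d : ℤ) (hc : c * c * d = 1)
    (h1 : A * B = d • (1 : Matrix (Fin 3) (Fin 3) ℤ))
    (h2 : B * A = d • (1 : Matrix (Fin 3) (Fin 3) ℤ)) : (Matrix (Fin 3) (Fin 3) ℚ)ˣ where
  val := c • Rot_c A
  inv := c • Rot_c B
  val_inv := by
    rw [smul_mul_assoc, mul_smul_comm, smul_smul, ← map_mul, h1, Rot_c_smul, smul_smul, hc, map_one,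
      one_smul]
  inv_val := by
    rw [smul_mul_assoc, mul_smul_comm, smul_smul, ← map_mul, h2, Rot_c_smul, smul_smul, hc, map_one,
      one_smul]

private theorem Rot_a_mod : ∀ m : ℕ, ((Rot_a (0, true) ^ (m + 1)) 0 1 : ℤ) ≠ 0 := by
  intro m h
  have h1 : IsIdempotentElem ((Int.castRingHom (ZMod 3)).mapMatrix (Rot_a (0, true))) := by
    unfold IsIdempotentElem
    decide
  have h2 := h1.pow_succ_eq m
  rw [← map_pow] at h2
  have h3 := congrFun (congrFun h2 0) 1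
  rw [RingHom.mapMatrix_apply, Matrix.map_apply, h] at h3
  revert h3
  decide

private theorem Rot_four : (4 : ZMod 5) ≠ 0 := by decide

private theorem Rot_b_mod : ∀ k : ℕ, ((Rot_b (0, true) ^ (k + 1)) 2 1 : ℤ) ≠ 0 := by
  intro k h
  have h1 : ∀ k : ℕ, ((Int.castRingHom (ZMod 5)).mapMatrix (Rot_b (0, true))) ^ (k + 1) =
      (4 : ZMod 5) ^ k • ((Int.castRingHom (ZMod 5)).mapMatrix (Rot_b (0, true))) := by
    intro k
    induction k with
    | zero => rw [pow_zero, one_smul, zero_add, pow_one]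
    | succ k ih =>
      rw [pow_succ, ih, smul_mul_assoc]
      have : ((Int.castRingHom (ZMod 5)).mapMatrix (Rot_b (0, true))) *
          ((Int.castRingHom (ZMod 5)).mapMatrix (Rot_b (0, true))) =
          (4 : ZMod 5) • ((Int.castRingHom (ZMod 5)).mapMatrix (Rot_b (0, true))) := by
        decide
      rw [this, smul_smul, ← pow_succ]
  have h2 := h1 k
  rw [← map_pow] at h2
  have h3 := congrFun (congrFun h2 2) 1
  rw [RingHom.mapMatrix_apply, Matrix.map_apply, h, Matrix.smul_apply] at h3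
  have h4 : ((Int.castRingHom (ZMod 5)).mapMatrix (Rot_b (0, true))) 2 1 = 4 := by decide
  rw [h4, map_zero, smul_eq_mul, ← pow_succ] at h3
  have hp : Fact (Nat.Prime 5) := ⟨by norm_num⟩
  exact pow_ne_zero (k + 1) Rot_four h3.symm

private theorem Rot_b_form (k : ℕ) : ∃ p u v : ℤ,
    Rot_b (0, true) ^ k = !![p, 0, 0; 0, u, -v; 0, v, u] := by
  induction k with
  | zero =>
    refine ⟨1, 1, 0, ?_⟩
    rw [pow_zero]
    decide
  | succ k ih =>
    obtain ⟨p, u, v, h⟩ := ih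
    refine ⟨p * 5, u * (-3) - v * 4, v * (-3) + u * 4, ?_⟩
    rw [pow_succ, h]
    have : Rot_b (0, true) = !![5, 0, 0; 0, -3, -4; 0, 4, -3] := by decide
    rw [this]
    ext i j
    fin_cases i <;> fin_cases j <;> simp [Matrix.mul_apply, Fin.sum_univ_three] <;> ring

private theorem Rot_ne (m k : ℕ) (h : Rot_a (0, true) ^ (m + 1) * Rot_b (0, true) ^ (k + 1) =
    Rot_b (0, true) ^ (k + 1) * Rot_a (0, true) ^ (m + 1)) : False := by
  have ha := Rot_a_mod m
  have hb := Rot_b_mod k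
  obtain ⟨p, u, v, hB⟩ := Rot_b_form (k + 1)
  rw [hB] at h hb
  set A := Rot_a (0, true) ^ (m + 1) with hA
  have hv : v ≠ 0 := by simpa using hb
  have h1 := congrFun (congrFun h 0) 1
  have h2 := congrFun (congrFun h 0) 2
  simp [Matrix.mul_apply, Fin.sum_univ_three] at h1 h2
  have h3 : (A 0 1 ^ 2 + A 0 2 ^ 2) * v = 0 := by
    linear_combination (A 0 2) * h1 - (A 0 1) * h2
  have h4 : A 0 1 ^ 2 + A 0 2 ^ 2 = 0 := (mul_eq_zero.mp h3).resolve_right hv
  have h5 : 0 < A 0 1 ^ 2 := by positivity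
  nlinarith [sq_nonneg (A 0 2)]

theorem exists_rot : ∃ (K : Type) (_ : Group K) (qa : Fin 2 × Bool → K) (qb : Fin 3 × Bool → K),
    (∀ s, qa (iv s) = (qa s)⁻¹) ∧ (∀ r, qb (iv r) = (qb r)⁻¹) ∧
    (∀ r s, qb r * qa s = qa (A1.out r s) * qb (A1.nxt r s)) ∧
    ∀ m k : ℕ, 0 < m → 0 < k → qa (0, true) ^ m * qb (0, true) ^ k ≠
      qb (0, true) ^ k * qa (0, true) ^ m := by
  have ha2 : ∀ s, Rot_a (iv s) * Rot_a s = (9 : ℤ) • (1 : Matrix (Fin 3) (Fin 3) ℤ) := by
    intro s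
    have := Rot_a_iv (iv s)
    rwa [Rot_iv_iv] at this
  have hb2 : ∀ s, Rot_b (iv s) * Rot_b s = (25 : ℤ) • (1 : Matrix (Fin 3) (Fin 3) ℤ) := by
    intro s
    have := Rot_b_iv (iv s)
    rwa [Rot_iv_iv] at this
  refine ⟨(Matrix (Fin 3) (Fin 3) ℚ)ˣ, inferInstance,
    fun s => Rot_u (1 / 3) (Rot_a s) (Rot_a (iv s)) 9 (by norm_num) (Rot_a_iv s) (ha2 s),
    fun s => Rot_u (1 / 5) (Rot_b s) (Rot_b (iv s)) 25 (by norm_num) (Rot_b_iv s) (hb2 s),
    ?_, ?_, ?_, ?_⟩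
  · intro s
    apply Units.ext
    rfl
  · intro s
    apply Units.ext
    rfl
  · intro r s
    apply Units.ext
    change ((1 / 5 : ℚ) • Rot_c (Rot_b r)) * ((1 / 3 : ℚ) • Rot_c (Rot_a s)) =
      ((1 / 3 : ℚ) • Rot_c (Rot_a (out1 r s))) * ((1 / 5 : ℚ) • Rot_c (Rot_b (nxt1 r s)))
    rw [smul_mul_assoc, mul_smul_comm, smul_smul, ← map_mul, Rot_sq, smul_mul_assoc,
      mul_smul_comm, smul_smul, ← map_mul, mul_comm (1 / 5 : ℚ)]
  · intro m k hm hk h
    obtain ⟨m, rfl⟩ := Nat.exists_eq_succ_of_ne_zero hm.ne'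
    obtain ⟨k, rfl⟩ := Nat.exists_eq_succ_of_ne_zero hk.ne'
    have h1 := congrArg Units.val h
    simp only [Units.val_mul, Units.val_pow_eq_pow_val] at h1
    change ((1 / 3 : ℚ) • Rot_c (Rot_a (0, true))) ^ (m + 1) *
      ((1 / 5 : ℚ) • Rot_c (Rot_b (0, true))) ^ (k + 1) =
      ((1 / 5 : ℚ) • Rot_c (Rot_b (0, true))) ^ (k + 1) *
      ((1 / 3 : ℚ) • Rot_c (Rot_a (0, true))) ^ (m + 1) at h1
    rw [smul_pow, smul_pow, smul_mul_assoc, mul_smul_comm, smul_smul, smul_mul_assoc,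
      mul_smul_comm, smul_smul, mul_comm ((1 / 5 : ℚ) ^ (k + 1)), ← map_pow, ← map_pow,
      ← map_mul, ← map_mul] at h1
    have h2 : (1 / 3 : ℚ) ^ (m + 1) * (1 / 5 : ℚ) ^ (k + 1) ≠ 0 := by positivity
    have h3 := Rot_c_inj (smul_right_injective _ h2 h1)
    exact Rot_ne m k h3

end Pool.Agent.MPbcc336
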