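import Pool.Agent.Lib.MP_bcc336_al.AutoP
import Pool.Agent.Lib.MP_bcc336_al.Cay
import Pool.Agent.Lib.MP_bcc336_al.Rot

/-!
The lattice: a group acting simply transitively on the product of two trees.
-/

set_option autoImplicit false

namespace Pool.Agent.MPbcc336

/-- A group generated by two families of letters such that `r s = s' r'`. -/
private theorem Lat_dec {α β G : Type} [Group G] (hA : α × Bool → G) (hB : β × Bool → G)
    (hAi : ∀ s, hA (iv s) = (hA s)⁻¹) (hBi : ∀ r, hB (iv r) = (hB r)⁻¹)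
    (out : β × Bool → α × Bool → α × Bool) (nxt : β × Bool → α × Bool → β × Bool)
    (hrel : ∀ r s, hB r * hA s = hA (out r s) * hB (nxt r s)) :
    ∃ (φA : FreeGroup α →* G) (φB : FreeGroup β →* G),
      (∀ s, φA (ltr s) = hA s) ∧ (∀ r, φB (ltr r) = hB r) ∧
      ∀ h ∈ Subgroup.closure (Set.range hA ∪ Set.range hB), ∃ x y, h = φA x * φB y := by
  have hlt : ∀ (γ : Type) (g : γ × Bool → G) (hg : ∀ s, g (iv s) = (g s)⁻¹) (s : γ × Bool),
      FreeGroup.lift (fun a => g (a, true)) (ltr s) = g s := by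
    intro γ g hg s
    obtain ⟨a, b⟩ := s
    have h1 : FreeGroup.lift (fun a => g (a, true)) (ltr (a, true)) = g (a, true) :=
      FreeGroup.lift_apply_of
    cases b
    · have h2 : ((a, false) : γ × Bool) = iv (a, true) := rfl
      rw [h2, ltr_iv, map_inv, h1, hg]
    · exact h1
  have hφA := hlt α hA hAi
  have hφB := hlt β hB hBi
  refine ⟨FreeGroup.lift (fun a => hA (a, true)), FreeGroup.lift (fun a => hB (a, true)),
    hφA, hφB, ?_⟩
  generalize FreeGroup.lift (fun a => hA (a, true)) = φA at hφA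
  generalize FreeGroup.lift (fun a => hB (a, true)) = φB at hφB
  have hmove : ∀ (x : FreeGroup α) (r : β × Bool), ∃ x' r', hB r * φA x = φA x' * hB r' := by
    intro x
    induction x using FreeGroup.induction_on with
    | C1 => exact fun r => ⟨1, r, by simp⟩
    | of a =>
      intro r
      have h1 : (FreeGroup.of a : FreeGroup α) = ltr (a, true) := rfl
      refine ⟨ltr (out r (a, true)), nxt r (a, true), ?_⟩
      rw [h1, hφA, hφA, hrel]
    | inv_of a _ =>
      intro r
      have h1 : (FreeGroup.of a : FreeGroup α)⁻¹ = ltr (a, false) := by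
        rw [show ((a, false) : α × Bool) = iv (a, true) from rfl, ltr_iv]
        rfl
      refine ⟨ltr (out r (a, false)), nxt r (a, false), ?_⟩
      rw [h1, hφA, hφA, hrel]
    | mul x y hx hy =>
      intro r
      obtain ⟨x', r', h1⟩ := hx r
      obtain ⟨y', r'', h2⟩ := hy r'
      refine ⟨x' * y', r'', ?_⟩
      rw [map_mul, ← mul_assoc, h1, mul_assoc, h2, map_mul, mul_assoc]
  have hstep : ∀ g ∈ Set.range hA ∪ Set.range hB, ∀ h : G, (∃ x y, h = φA x * φB y) →
      ∃ x y, g * h = φA x * φB y := by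
    rintro g (⟨s, rfl⟩ | ⟨r, rfl⟩) h ⟨x, y, rfl⟩
    · exact ⟨ltr s * x, y, by rw [map_mul, hφA, mul_assoc]⟩
    · obtain ⟨x', r', h1⟩ := hmove x r
      exact ⟨x', ltr r' * y, by rw [map_mul, hφB, ← mul_assoc, h1, mul_assoc]⟩
  have hinv : ∀ g ∈ Set.range hA ∪ Set.range hB, g⁻¹ ∈ Set.range hA ∪ Set.range hB := by
    rintro g (⟨s, rfl⟩ | ⟨r, rfl⟩)
    · exact Or.inl ⟨iv s, hAi s⟩
    · exact Or.inr ⟨iv r, hBi r⟩
  intro h hh
  induction hh using Subgroup.closure_induction_left with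
  | one => exact ⟨1, 1, by simp⟩
  | mul_left g hg h _ ih => exact hstep g hg h ih
  | inv_mul_cancel g hg h _ ih => exact hstep _ (hinv g hg) h ih

/-- Generators preserve the adjacency. -/
private theorem Lat_adj {α ρ : Type} (A : Auto α ρ) (τ : ρ → Equiv.Perm (FreeGroup α))
    (hτi : ∀ r, τ (A.bar r) = (τ r)⁻¹)
    (hτs : ∀ r x s, ∃ s' : α × Bool, τ r (x * ltr s) = τ r x * ltr s') (r : ρ)
    (x y : FreeGroup α) : (cay α).Adj (τ r x) (τ r y) ↔ (cay α).Adj x y := by
  have h1 : ∀ r x y, (cay α).Adj x y → (cay α).Adj (τ r x) (τ r y) := by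
    intro r x y h
    obtain ⟨s, rfl⟩ := (cay_adj x y).mp h
    exact (cay_adj _ _).mpr (hτs r x s)
  refine ⟨fun h => ?_, h1 r x y⟩
  have h2 := h1 (A.bar r) _ _ h
  rw [hτi] at h2
  simpa using h2

/-- First coordinates of the two homomorphisms. -/
private theorem Lat_co {α β : Type} {G : Type} [Group G] (p : G →* Equiv.Perm (FreeGroup α))
    (φA : FreeGroup α →* G) (φB : FreeGroup β →* G)
    (h1 : ∀ s : α × Bool, p (φA (ltr s)) = Equiv.mulLeft (ltr s))
    (h2 : ∀ r : β × Bool, p (φB (ltr r)) 1 = 1) :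
    (∀ x z, p (φA x) z = x * z) ∧ ∀ y, p (φB y) 1 = 1 := by
  constructor
  · intro x
    induction x using FreeGroup.induction_on with
    | C1 => intro z; simp
    | of a =>
      intro z
      have h3 := h1 (a, true)
      have h4 := congrArg (fun f => f z) h3
      exact h4
    | inv_of a _ =>
      intro z
      have h3 := h1 (a, false)
      rw [show ((a, false) : α × Bool) = iv (a, true) from rfl, ltr_iv] at h3
      have h4 := congrArg (fun f => f z) h3
      exact h4
    | mul x y hx hy =>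
      intro z
      rw [map_mul, map_mul, Equiv.Perm.mul_apply, hy, hx, mul_assoc]
  · intro y
    induction y using FreeGroup.induction_on with
    | C1 => simp
    | of a => exact h2 (a, true)
    | inv_of a _ =>
      have h3 := h2 (a, false)
      rw [show ((a, false) : β × Bool) = iv (a, true) from rfl, ltr_iv] at h3
      exact h3
    | mul x y hx hy =>
      rw [map_mul, map_mul, Equiv.Perm.mul_apply, hy, hx]

theorem exists_lat : ∃ (V V' H : Type) (_ : Group H) (_ : MulAction H V) (_ : MulAction H V')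
    (T : SimpleGraph V) (T' : SimpleGraph V') (o : V) (o' : V') (a b : H),
    IsLat H T T' o o' ∧ a • o' = o' ∧ b • o = o ∧
      ∀ m k : ℕ, 0 < m → 0 < k → a ^ m * b ^ k ≠ b ^ k * a ^ m := by
  obtain ⟨τ, hτ1, hτ2, hτ3, hτ4⟩ := A1.exists_perm
  obtain ⟨σ, hσ1, hσ2, hσ3, hσ4⟩ := A2.exists_perm
  obtain ⟨K, gK, qa, qb, hqa, hqb, hq, hne⟩ := exists_rot
  let G : Type := Equiv.Perm (FreeGroup (Fin 2)) × Equiv.Perm (FreeGroup (Fin 3)) × K
  let hA : Fin 2 × Bool → G := fun s => (Equiv.mulLeft (ltr s), σ s, qa s)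
  let hB : Fin 3 × Bool → G := fun r => (τ r, Equiv.mulLeft (ltr r), qb r)
  have hmul : ∀ (α : Type) (s : α × Bool),
      Equiv.mulLeft (ltr (iv s)) = (Equiv.mulLeft (ltr s))⁻¹ := by
    intro α s
    rw [ltr_iv]
    exact Equiv.ext fun x => rfl
  have hAi : ∀ s, hA (iv s) = (hA s)⁻¹ := fun s =>
    Prod.ext (hmul _ s) (Prod.ext (hσ3 s) (hqa s))
  have hBi : ∀ r, hB (iv r) = (hB r)⁻¹ := fun r =>
    Prod.ext (hτ3 r) (Prod.ext (hmul _ r) (hqb r))
  have hrel : ∀ r s, hB r * hA s = hA (A1.out r s) * hB (A1.nxt r s) := by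
    intro r s
    refine Prod.ext (Equiv.ext fun x => hτ2 r s x) (Prod.ext (Equiv.ext fun y => ?_) (hq r s))
    have h1 := hσ2 (A1.out r s) (A1.nxt r s) y
    rw [(sw r s).1, (sw r s).2] at h1
    exact h1.symm
  obtain ⟨φA, φB, hφA, hφB, hdec⟩ := Lat_dec hA hB hAi hBi A1.out A1.nxt hrel
  let p1 : G →* Equiv.Perm (FreeGroup (Fin 2)) := MonoidHom.fst _ _
  let p2 : G →* Equiv.Perm (FreeGroup (Fin 3)) := (MonoidHom.fst _ _).comp (MonoidHom.snd _ _)
  let p3 : G →* K := (MonoidHom.snd _ _).comp (MonoidHom.snd _ _)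
  obtain ⟨hc1, hc2⟩ := Lat_co p1 φA φB (fun s => by rw [hφA]; rfl)
    (fun r => by rw [hφB]; exact hτ1 r)
  obtain ⟨hc3, hc4⟩ := Lat_co p2 φB φA (fun s => by rw [hφB]; rfl)
    (fun r => by rw [hφA]; exact hσ1 r)
  let H : Subgroup G := Subgroup.closure (Set.range hA ∪ Set.range hB)
  have hAH : ∀ s, hA s ∈ H := fun s => Subgroup.subset_closure (Or.inl ⟨s, rfl⟩)
  have hBH : ∀ r, hB r ∈ H := fun r => Subgroup.subset_closure (Or.inr ⟨r, rfl⟩)
  have hφAH : ∀ x, φA x ∈ H := by
    intro x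
    induction x using FreeGroup.induction_on with
    | C1 => rw [map_one]; exact H.one_mem
    | of a =>
      have h1 : φA (ltr (a, true)) ∈ H := by rw [hφA]; exact hAH _
      exact h1
    | inv_of a h => rw [map_inv]; exact H.inv_mem h
    | mul x y hx hy => rw [map_mul]; exact H.mul_mem hx hy
  have hφBH : ∀ x, φB x ∈ H := by
    intro x
    induction x using FreeGroup.induction_on with
    | C1 => rw [map_one]; exact H.one_mem
    | of a =>
      have h1 : φB (ltr (a, true)) ∈ H := by rw [hφB]; exact hBH _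
      exact h1
    | inv_of a h => rw [map_inv]; exact H.inv_mem h
    | mul x y hx hy => rw [map_mul]; exact H.mul_mem hx hy
  have hadj1 : ∀ h ∈ H, ∀ x y, (cay (Fin 2)).Adj (p1 h x) (p1 h y) ↔ (cay (Fin 2)).Adj x y := by
    intro h hh
    induction hh using Subgroup.closure_induction with
    | mem g hg =>
      rcases hg with ⟨s, rfl⟩ | ⟨r, rfl⟩
      · exact fun x y => cay_mul (ltr s) x y
      · exact fun x y => Lat_adj A1 τ hτ3 hτ4 r x y
    | one => exact fun x y => Iff.rfl
    | mul g h _ _ hg hh =>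
      intro x y
      rw [map_mul, Equiv.Perm.mul_apply, Equiv.Perm.mul_apply, hg, hh]
    | inv g _ hg =>
      intro x y
      rw [map_inv, ← hg]
      simp
  have hadj2 : ∀ h ∈ H, ∀ x y, (cay (Fin 3)).Adj (p2 h x) (p2 h y) ↔ (cay (Fin 3)).Adj x y := by
    intro h hh
    induction hh using Subgroup.closure_induction with
    | mem g hg =>
      rcases hg with ⟨s, rfl⟩ | ⟨r, rfl⟩
      · exact fun x y => Lat_adj A2 σ hσ3 hσ4 s x y
      · exact fun x y => cay_mul (ltr r) x y
    | one => exact fun x y => Iff.rfl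
    | mul g h _ _ hg hh =>
      intro x y
      rw [map_mul, Equiv.Perm.mul_apply, Equiv.Perm.mul_apply, hg, hh]
    | inv g _ hg =>
      intro x y
      rw [map_inv, ← hg]
      simp
  let f1 : H →* Equiv.Perm (FreeGroup (Fin 2)) := p1.comp H.subtype
  let f2 : H →* Equiv.Perm (FreeGroup (Fin 3)) := p2.comp H.subtype
  let m1 : MulAction H (FreeGroup (Fin 2)) := MulAction.compHom _ f1
  let m2 : MulAction H (FreeGroup (Fin 3)) := MulAction.compHom _ f2
  refine ⟨FreeGroup (Fin 2), FreeGroup (Fin 3), H, inferInstance, m1, m2, cay (Fin 2),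
    cay (Fin 3), 1, 1, ⟨hA (0, true), hAH _⟩, ⟨hB (0, true), hBH _⟩, ?_, ?_, ?_, ?_⟩
  · refine ⟨cay_tl _, cay_tl _, cay_lf, cay_lf, fun h x y => hadj1 h h.2 x y,
      fun h x y => hadj2 h h.2 x y, fun v v' => ?_⟩
    have hval : ∀ x y, p1 (φA x * φB y) 1 = x ∧ p2 (φA x * φB y) 1 = p2 (φA x) y := by
      intro x y
      refine ⟨?_, ?_⟩
      · rw [map_mul, Equiv.Perm.mul_apply, hc2, hc1, mul_one]
      · rw [map_mul, Equiv.Perm.mul_apply, hc3, mul_one]
    obtain ⟨y, hy⟩ := (p2 (φA v)).surjective v'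
    refine ⟨⟨φA v * φB y, H.mul_mem (hφAH v) (hφBH y)⟩, ⟨(hval v y).1, (hval v y).2.trans hy⟩, ?_⟩
    rintro ⟨h, hh⟩ ⟨h1, h2⟩
    obtain ⟨x, z, rfl⟩ := hdec h hh
    have h3 : x = v := (hval x z).1.symm.trans h1
    subst h3
    have h4 : p2 (φA x) z = v' := (hval x z).2.symm.trans h2
    have h5 : z = y := (p2 (φA x)).injective (h4.trans hy.symm)
    subst h5
    rfl
  · exact hσ1 _
  · exact hτ1 _
  · intro m k hm hk h
    have h1 := congrArg (fun g : H => p3 (g : G)) h
    have h2 : qa (0, true) ^ m * qb (0, true) ^ k = qb (0, true) ^ k * qa (0, true) ^ m := by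
      have h3 : ∀ g : H, ∀ n : ℕ, p3 ((g ^ n : H) : G) = p3 (g : G) ^ n := by
        intro g n
        rw [Subgroup.coe_pow, map_pow]
      simp only [Subgroup.coe_mul, map_mul, h3] at h1
      exact h1
    exact hne m k hm hk h2

end Pool.Agent.MPbcc336
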