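import Pool.Agent.Lib.MP_bcc336_al.RaagA

/-!
The labels of the edges of a convex subgraph of the Cayley graph of a right-angled Artin group.
-/

set_option autoImplicit false

namespace Pool.Agent.MPbcc336

private theorem RaagB_vec {n : ℕ} (i j l k : Fin n) (e e' e3 e2 : ℤ) (he : e = 1 ∨ e = -1)
    (he' : e' = 1 ∨ e' = -1) (he3 : e3 = 1 ∨ e3 = -1) (he2 : e2 = 1 ∨ e2 = -1)
    (h : (Pi.single i e + Pi.single j e' : Fin n → ℤ) = Pi.single l e3 + Pi.single k e2)
    (h1 : ¬ (i = l ∧ e = e3)) (h2 : ¬ (i = j ∧ e' = -e)) :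
    k = i ∧ e2 = e ∧ j = l ∧ e' = e3 ∧ i ≠ l := by
  have hi := congrFun h i
  simp only [Pi.add_apply, Pi.single_eq_same, Pi.single_apply] at hi
  have hki : k = i ∧ e2 = e ∧ i ≠ l := by
    by_cases a1 : i = j
    · by_cases a2 : i = l
      · by_cases a3 : i = k
        · rw [if_pos a1, if_pos a2, if_pos a3] at hi
          exfalso
          have b1 : e ≠ e3 := fun hh => h1 ⟨a2, hh⟩
          have b2 : e' ≠ -e := fun hh => h2 ⟨a1, hh⟩
          omega
        · rw [if_pos a1, if_pos a2, if_neg a3] at hi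
          exfalso
          have b1 : e ≠ e3 := fun hh => h1 ⟨a2, hh⟩
          have b2 : e' ≠ -e := fun hh => h2 ⟨a1, hh⟩
          omega
      · by_cases a3 : i = k
        · rw [if_pos a1, if_neg a2, if_pos a3] at hi
          exfalso
          have b2 : e' ≠ -e := fun hh => h2 ⟨a1, hh⟩
          omega
        · rw [if_pos a1, if_neg a2, if_neg a3] at hi
          exfalso
          have b2 : e' ≠ -e := fun hh => h2 ⟨a1, hh⟩
          omega
    · by_cases a2 : i = l
      · by_cases a3 : i = k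
        · rw [if_neg a1, if_pos a2, if_pos a3] at hi
          exfalso
          have b1 : e ≠ e3 := fun hh => h1 ⟨a2, hh⟩
          omega
        · rw [if_neg a1, if_pos a2, if_neg a3] at hi
          exfalso
          have b1 : e ≠ e3 := fun hh => h1 ⟨a2, hh⟩
          omega
      · by_cases a3 : i = k
        · rw [if_neg a1, if_neg a2, if_pos a3] at hi
          exact ⟨a3.symm, by omega, a2⟩
        · rw [if_neg a1, if_neg a2, if_neg a3] at hi
          exfalso
          omega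
  obtain ⟨rfl, rfl, hkl⟩ := hki
  have h3 : (Pi.single j e' : Fin n → ℤ) = Pi.single l e3 := by
    rw [add_comm (Pi.single l e3 : Fin n → ℤ)] at h
    exact add_left_cancel h
  have hjl : j = l := by
    by_contra hne
    have := congrFun h3 j
    rw [Pi.single_eq_same, Pi.single_eq_of_ne hne] at this
    omega
  subst hjl
  have h4 := congrFun h3 j
  rw [Pi.single_eq_same, Pi.single_eq_same] at h4
  exact ⟨rfl, rfl, rfl, h4, hkl⟩

private theorem RaagB_comm {G : Type*} [Group G] {a b : G} {e e3 : ℤ} (he : e = 1 ∨ e = -1)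
    (he3 : e3 = 1 ∨ e3 = -1) : Commute (a ^ e) (b ^ e3) ↔ Commute a b := by
  constructor
  · intro h
    have h1 := h.zpow_zpow e e3
    rw [← zpow_mul, ← zpow_mul] at h1
    have e1 : e * e = 1 := by rcases he with rfl | rfl <;> norm_num
    have e2 : e3 * e3 = 1 := by rcases he3 with rfl | rfl <;> norm_num
    rwa [e1, e2, zpow_one, zpow_one] at h1
  · intro h
    exact h.zpow_zpow e e3

theorem raag_labels {n : ℕ} (Γ : SimpleGraph (Fin n))
    (C : SimpleGraph (PresentedGroup (raagRels Γ)))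
    (hC : ∀ g h : PresentedGroup (raagRels Γ), C.Adj g h ↔
      (g ≠ h ∧ ∃ i : Fin n, h = g * PresentedGroup.of i ∨ g = h * PresentedGroup.of i))
    {W : Type} (X : SimpleGraph W) (hX : ∃ x y, X.Adj x y) (f : X ↪g C)
    (hf : ∀ a b c : PresentedGroup (raagRels Γ), a ∈ Set.range f → b ∈ Set.range f →
      C.dist a c + C.dist c b = C.dist a b → c ∈ Set.range f) :
    ∃ ℓ : W → W → Fin n,
      (∀ x y z w, X.Adj x y → X.Adj y z → X.Adj z w → X.Adj w x → x ≠ z → y ≠ w →
        ℓ x y = ℓ w z) ∧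
      (∀ x y z, X.Adj x y → X.Adj x z → y ≠ z →
        ((∃ w, w ≠ x ∧ X.Adj y w ∧ X.Adj z w) ↔ Γ.Adj (ℓ x y) (ℓ x z))) := by
  classical
  obtain ⟨χ, hχ⟩ := raag_ab Γ
  -- the additive version of `χ`
  set ψ : PresentedGroup (raagRels Γ) → (Fin n → ℤ) := fun g => Multiplicative.toAdd (χ g) with hψ
  have ψmul : ∀ g h, ψ (g * h) = ψ g + ψ h := by
    intro g h
    simp only [hψ, map_mul, toAdd_mul]
  have ψz : ∀ (i : Fin n) (e : ℤ), ψ ((PresentedGroup.of i : PresentedGroup (raagRels Γ)) ^ e) =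
      Pi.single i e := by
    intro i e
    simp only [hψ, map_zpow, hχ, toAdd_zpow, toAdd_ofAdd]
    funext k
    rw [Pi.smul_apply, Pi.single_apply, Pi.single_apply]
    split_ifs <;> simp
  have hne0 : ∀ (i : Fin n) (e : ℤ), (e = 1 ∨ e = -1) →
      (PresentedGroup.of i : PresentedGroup (raagRels Γ)) ^ e ≠ 1 := by
    intro i e he h
    have h1 := congrArg ψ h
    rw [ψz] at h1
    have h2 := congrFun h1 i
    rw [Pi.single_eq_same] at h2
    have h3 : ψ 1 i = 0 := by simp [hψ]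
    omega
  have hCadj : ∀ g h, C.Adj g h → ∃ (i : Fin n) (e : ℤ), (e = 1 ∨ e = -1) ∧
      h = g * (PresentedGroup.of i) ^ e := by
    intro g h hgh
    obtain ⟨-, i, hi | hi⟩ := (hC g h).mp hgh
    · exact ⟨i, 1, Or.inl rfl, by rw [zpow_one]; exact hi⟩
    · exact ⟨i, -1, Or.inr rfl, by rw [hi, zpow_neg, zpow_one, mul_inv_cancel_right]⟩
  have hCadj' : ∀ (g : PresentedGroup (raagRels Γ)) (i : Fin n) (e : ℤ), (e = 1 ∨ e = -1) →
      C.Adj g (g * (PresentedGroup.of i) ^ e) := by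
    intro g i e he
    rw [hC]
    refine ⟨fun h => hne0 i e he (by simpa using h), i, ?_⟩
    rcases he with rfl | rfl
    · left; rw [zpow_one]
    · right; rw [zpow_neg, zpow_one, inv_mul_cancel_right]
  obtain ⟨x0, y0, hxy0⟩ := hX
  obtain ⟨i0, -, -⟩ := hCadj _ _ (f.map_adj_iff.mpr hxy0)
  have key : ∀ x y : W, ∃ (i : Fin n) (e : ℤ), X.Adj x y → (e = 1 ∨ e = -1) ∧
      f y = f x * (PresentedGroup.of i) ^ e := by
    intro x y
    by_cases h : X.Adj x y
    · obtain ⟨i, e, he, hi⟩ := hCadj _ _ (f.map_adj_iff.mpr h)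
      exact ⟨i, e, fun _ => ⟨he, hi⟩⟩
    · exact ⟨i0, 1, fun h' => absurd h' h⟩
  choose ℓ σ hℓ using key
  -- the four-cycles
  have cyc : ∀ x y z w, X.Adj x y → X.Adj y z → X.Adj w z → X.Adj x w → x ≠ z → y ≠ w →
      ℓ w z = ℓ x y ∧ σ w z = σ x y ∧ ℓ y z = ℓ x w ∧ σ y z = σ x w ∧ ℓ x y ≠ ℓ x w := by
    intro x y z w hxy hyz hwz hxw hxz hyw
    obtain ⟨s1, t1⟩ := hℓ x y hxy
    obtain ⟨s2, t2⟩ := hℓ y z hyz
    obtain ⟨s3, t3⟩ := hℓ x w hxw
    obtain ⟨s4, t4⟩ := hℓ w z hwz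
    have e1 : (Pi.single (ℓ x y) (σ x y) + Pi.single (ℓ y z) (σ y z) : Fin n → ℤ) =
        Pi.single (ℓ x w) (σ x w) + Pi.single (ℓ w z) (σ w z) := by
      have h1 : ψ (f z) = ψ (f x) + (Pi.single (ℓ x y) (σ x y) + Pi.single (ℓ y z) (σ y z)) := by
        rw [t2, t1, ψmul, ψmul, ψz, ψz, add_assoc]
      have h2 : ψ (f z) = ψ (f x) + (Pi.single (ℓ x w) (σ x w) + Pi.single (ℓ w z) (σ w z)) := by
        rw [t4, t3, ψmul, ψmul, ψz, ψz, add_assoc]
      exact add_left_cancel (h1.symm.trans h2)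
    refine RaagB_vec _ _ _ _ _ _ _ _ s1 s2 s3 s4 e1 ?_ ?_
    · rintro ⟨a, b⟩
      apply hyw
      apply f.injective
      rw [t1, t3, a, b]
    · rintro ⟨a, b⟩
      apply hxz
      apply f.injective
      rw [t2, t1, ← a, b, mul_assoc, ← zpow_add, add_neg_cancel, zpow_zero, mul_one]
  refine ⟨ℓ, ?_, ?_⟩
  · intro x y z w hxy hyz hzw hwx hxz hyw
    exact (cyc x y z w hxy hyz hzw.symm hwx.symm hxz hyw).1.symm
  · intro x y z hxy hxz hyz
    obtain ⟨s1, t1⟩ := hℓ x y hxy
    obtain ⟨s3, t3⟩ := hℓ x z hxz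
    constructor
    · rintro ⟨w, hwx, hyw, hzw⟩
      obtain ⟨a1, a2, a3, a4, a5⟩ := cyc x y w z hxy hyw hzw hxz (Ne.symm hwx) hyz
      obtain ⟨s2, t2⟩ := hℓ y w hyw
      obtain ⟨s4, t4⟩ := hℓ z w hzw
      rw [← raag_comm Γ a5, ← RaagB_comm s1 s3]
      have h1 : f x * ((PresentedGroup.of (ℓ x y)) ^ (σ x y) *
          (PresentedGroup.of (ℓ x z)) ^ (σ x z)) = f x * ((PresentedGroup.of (ℓ x z)) ^ (σ x z) *
          (PresentedGroup.of (ℓ x y)) ^ (σ x y)) := by
        rw [← mul_assoc, ← mul_assoc, ← t1, ← t3]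
        rw [a1, a2] at t4
        rw [a3, a4] at t2
        rw [← t2, ← t4]
      exact mul_left_cancel h1
    · intro hadj
      have hne : ℓ x y ≠ ℓ x z := hadj.ne
      have hcomm : Commute ((PresentedGroup.of (ℓ x y) : PresentedGroup (raagRels Γ)) ^ (σ x y))
          ((PresentedGroup.of (ℓ x z)) ^ (σ x z)) :=
        (RaagB_comm s1 s3).mpr ((raag_comm Γ hne).mpr hadj)
      set c : PresentedGroup (raagRels Γ) := f y * (PresentedGroup.of (ℓ x z)) ^ (σ x z) with hc
      have hc2 : c = f z * (PresentedGroup.of (ℓ x y)) ^ (σ x y) := by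
        rw [hc, t1, t3, mul_assoc, mul_assoc, hcomm.eq]
      have hyc : C.Adj (f y) c := by rw [hc]; exact hCadj' _ _ _ s3
      have hzc : C.Adj (f z) c := by rw [hc2]; exact hCadj' _ _ _ s1
      have hyz' : f y ≠ f z := fun h => hyz (f.injective h)
      have hnadj : ¬ C.Adj (f y) (f z) := by
        intro h
        obtain ⟨k, ε, hε, hk⟩ := hCadj _ _ h
        have h1 : ψ (f x) + (Pi.single (ℓ x z) (σ x z) : Fin n → ℤ) =
            ψ (f x) + (Pi.single (ℓ x y) (σ x y) + Pi.single k ε) := by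
          have := congrArg ψ hk
          rw [t3, t1, ψmul, ψmul, ψmul, ψz, ψz, ψz, add_assoc] at this
          exact this
        have h2 := add_left_cancel h1
        have h3 := congrFun h2 (ℓ x z)
        have h4 := congrFun h2 (ℓ x y)
        simp only [Pi.add_apply, Pi.single_eq_same, Pi.single_apply, if_neg hne,
          if_neg (Ne.symm hne)] at h3 h4
        by_cases hk1 : ℓ x z = k
        · have hk2 : ¬ ℓ x y = k := fun h => hne (h.trans hk1.symm)
          rw [if_neg hk2] at h4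
          omega
        · rw [if_neg hk1] at h3
          omega
      have hreach : C.Reachable (f y) (f z) := hyc.reachable.trans hzc.symm.reachable
      have hd1 : C.dist (f y) c = 1 := SimpleGraph.dist_eq_one_iff_adj.mpr hyc
      have hd2 : C.dist c (f z) = 1 := SimpleGraph.dist_eq_one_iff_adj.mpr hzc.symm
      have hd : C.dist (f y) (f z) = 2 := by
        have h0 : C.dist (f y) (f z) ≠ 0 := fun h => hyz' (hreach.dist_eq_zero_iff.mp h)
        have h1 : C.dist (f y) (f z) ≠ 1 := fun h =>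
          hnadj (SimpleGraph.dist_eq_one_iff_adj.mp h)
        have h2 : C.dist (f y) (f z) ≤ 2 :=
          SimpleGraph.dist_le (SimpleGraph.Walk.cons hyc (SimpleGraph.Walk.cons hzc.symm
            SimpleGraph.Walk.nil))
        omega
      obtain ⟨w, hw⟩ := hf (f y) (f z) c ⟨y, rfl⟩ ⟨z, rfl⟩ (by rw [hd1, hd2, hd])
      refine ⟨w, ?_, ?_, ?_⟩
      · rintro rfl
        have h1 := congrArg ψ (hw.trans hc)
        rw [t1, ψmul, ψmul, ψz, ψz, add_assoc] at h1
        have h2 : ψ (f w) + (0 : Fin n → ℤ) = ψ (f w) + (Pi.single (ℓ w y) (σ w y) +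
            Pi.single (ℓ w z) (σ w z)) := by rw [add_zero]; exact h1
        have h3 := congrFun (add_left_cancel h2) (ℓ w y)
        simp only [Pi.add_apply, Pi.single_eq_same, Pi.single_apply, if_neg hne,
          Pi.zero_apply] at h3
        omega
      · rw [← hw] at hyc
        exact f.map_adj_iff.mp hyc
      · rw [← hw] at hzc
        exact f.map_adj_iff.mp hzc

end Pool.Agent.MPbcc336
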