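import Pool.Agent.Lib.MP_bcc336_al.Base

/-!
Labels of the pendant vertices of the decorated product.
-/

set_option autoImplicit false

namespace Pool.Agent.MPbcc336

theorem rows {V P V' P' : Type} {G : SimpleGraph V} {G' : SimpleGraph V'} (hG : G.Connected)
    (hG' : G'.Connected) (b : P → V) (b' : P' → V') (M : P → P' → Prop) {n : ℕ}
    (Γ : SimpleGraph (Fin n))
    (ℓ : XS (V := V) (V' := V') M → XS (V := V) (V' := V') M → Fin n)
    (h1 : ∀ x y z w, (XG G b G' b' M).Adj x y → (XG G b G' b' M).Adj y z →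
      (XG G b G' b' M).Adj z w → (XG G b G' b' M).Adj w x → x ≠ z → y ≠ w → ℓ x y = ℓ w z)
    (h2 : ∀ x y z, (XG G b G' b' M).Adj x y → (XG G b G' b' M).Adj x z → y ≠ z →
      ((∃ w, w ≠ x ∧ (XG G b G' b' M).Adj y w ∧ (XG G b G' b' M).Adj z w) ↔
        Γ.Adj (ℓ x y) (ℓ x z))) :
    ∃ (L : P → Fin n) (L' : P' → Fin n), ∀ p p', M p p' ↔ Γ.Adj (L p) (L' p') := by
  sorry

end Pool.Agent.MPbcc336
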