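import Pool.Agent.Lib.MP_bcc336_al.Base

/-!
If the pattern `MM` has finitely many different rows, then some powers of `a` and `b` commute.
-/

set_option autoImplicit false

namespace Pool.Agent.MPbcc336

private theorem soft_uniq {V V' H : Type} [Group H] [MulAction H V] [MulAction H V']
    {T : SimpleGraph V} {T' : SimpleGraph V'} {o : V} {o' : V'} (hL : IsLat H T T' o o')
    {g h : H} (h1 : g • o = h • o) (h2 : g • o' = h • o') : g = h :=
  (hL.st (h • o) (h • o')).unique ⟨h1, h2⟩ ⟨rfl, rfl⟩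

private theorem soft_pow {V H : Type} [Group H] [MulAction H V] {b : H} {o : V}
    (hb : b • o = o) (k : ℕ) : b ^ k • o = o :=
  MulAction.mem_stabilizer_iff.mp (pow_mem (MulAction.mem_stabilizer_iff.mpr hb) k)

private theorem soft_dist_le {V H : Type} [Group H] [MulAction H V] {G : SimpleGraph V}
    (hc : G.Connected) (ha : ∀ (h : H) (x y : V), G.Adj (h • x) (h • y) ↔ G.Adj x y) (h : H)
    (x y : V) : G.dist (h • x) (h • y) ≤ G.dist x y := by
  obtain ⟨p, hp⟩ := hc.exists_walk_length_eq_dist x y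
  let f : G →g G := ⟨fun x => h • x, fun {x y} hxy => (ha h x y).mpr hxy⟩
  have h1 := SimpleGraph.dist_le (p.map f)
  rw [SimpleGraph.Walk.length_map, hp] at h1
  exact h1

private theorem soft_dist {V H : Type} [Group H] [MulAction H V] {G : SimpleGraph V}
    (hc : G.Connected) (ha : ∀ (h : H) (x y : V), G.Adj (h • x) (h • y) ↔ G.Adj x y) (h : H)
    (x y : V) : G.dist (h • x) (h • y) = G.dist x y := by
  refine le_antisymm (soft_dist_le hc ha h x y) ?_
  have h1 := soft_dist_le hc ha h⁻¹ (h • x) (h • y)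
  rwa [inv_smul_smul, inv_smul_smul] at h1

private theorem soft_ball {V : Type} {G : SimpleGraph V} (hc : G.Connected)
    (hlf : ∀ v, (G.neighborSet v).Finite) (o : V) (r : ℕ) : {x | G.dist o x ≤ r}.Finite := by
  induction r with
  | zero =>
    refine (Set.finite_singleton o).subset fun x hx => ?_
    have h1 : G.dist o x = 0 := Nat.le_zero.mp hx
    exact (hc.dist_eq_zero_iff.mp h1).symm
  | succ r ih =>
    have h1 : (⋃ y ∈ {x | G.dist o x ≤ r}, G.neighborSet y).Finite :=
      ih.biUnion fun y _ => hlf y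
    refine (ih.union h1).subset fun x hx => ?_
    have hx' : G.dist o x ≤ r + 1 := hx
    by_cases hr : G.dist o x ≤ r
    · exact Or.inl hr
    · obtain ⟨p, hp⟩ := hc.exists_walk_length_eq_dist x o
      have hp' : p.length = r + 1 := by
        rw [hp, SimpleGraph.dist_comm]
        omega
      cases p with
      | nil => simp at hp'
      | cons h q =>
        rename_i y
        refine Or.inr ?_
        simp only [Set.mem_iUnion]
        refine ⟨y, ?_, h.symm⟩
        show G.dist o y ≤ r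
        rw [SimpleGraph.dist_comm]
        refine (SimpleGraph.dist_le q).trans ?_
        rw [SimpleGraph.Walk.length_cons] at hp'
        omega

/-- two powers of `b` act in the same way on the first tree -/
private theorem soft_row {V V' H : Type} [Group H] [MulAction H V] [MulAction H V']
    {T : SimpleGraph V} {T' : SimpleGraph V'} {o : V} {o' : V'} (hL : IsLat H T T' o o') {n : ℕ}
    (Γ : SimpleGraph (Fin n)) (L : PP T → Fin n) (L' : QQ V' T o → Fin n)
    (hM : ∀ p q, MM H T o o' p q ↔ Γ.Adj (L p) (L' q)) (b : H)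
    (hb : b • o = o) : ∃ k l : ℕ, k < l ∧ ∀ v : V, b ^ k • v = b ^ l • v := by
  have hfin : Finite {t : V // T.Adj o t} := (hL.lf o).to_subtype
  obtain ⟨k, l, hkl, hL'⟩ : ∃ k l : ℕ, k < l ∧ ∀ t : {t : V // T.Adj o t},
      L' (b ^ k • o', t) = L' (b ^ l • o', t) := by
    obtain ⟨x, y, hxy, he⟩ := Finite.exists_ne_map_eq_of_infinite
      (fun (k : ℕ) (t : {t : V // T.Adj o t}) => L' (b ^ k • o', t))
    rcases lt_or_gt_of_ne hxy with h | h
    · exact ⟨x, y, h, fun t => congrFun he t⟩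
    · exact ⟨y, x, h, fun t => (congrFun he t).symm⟩
  refine ⟨k, l, hkl, ?_⟩
  have hstep : ∀ v w : V, T.Adj v w → b ^ k • v = b ^ l • v → b ^ k • w = b ^ l • w := by
    intro v w hvw hv
    obtain ⟨u, ⟨hu1, hu2⟩, -⟩ := hL.st v o'
    have hut : u • (u⁻¹ • w) = w := smul_inv_smul u w
    have hadj : T.Adj o (u⁻¹ • w) := by
      rw [← hL.adj u, hu1, hut]
      exact hvw
    have hp : T.Adj (b ^ k • v) (b ^ k • w) := (hL.adj _ _ _).mpr hvw
    have h1 : MM H T o o' ⟨(b ^ k • v, b ^ k • w), hp⟩ (b ^ k • o', ⟨u⁻¹ • w, hadj⟩) := by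
      refine ⟨b ^ k * u, ?_, ?_, ?_⟩
      · rw [mul_smul, hu1]
      · show (b ^ k * u) • (u⁻¹ • w) = b ^ k • w
        rw [mul_smul, hut]
      · rw [mul_smul, hu2]
    rw [hM, hL', ← hM] at h1
    obtain ⟨h, h2, h3, h4⟩ := h1
    have h5 : h = b ^ l * u := by
      refine soft_uniq hL ?_ ?_
      · rw [h2, mul_smul, hu1]
        exact hv
      · rw [h4, mul_smul, hu2]
    have h6 : h • (u⁻¹ • w) = b ^ k • w := h3
    rw [h5, mul_smul, hut] at h6
    exact h6.symm
  have hwalk : ∀ (v w : V) (p : T.Walk v w), b ^ k • v = b ^ l • v → b ^ k • w = b ^ l • w := by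
    intro v w p
    induction p with
    | nil => exact fun h => h
    | cons h q ih => exact fun hv => ih (hstep _ _ h hv)
  intro v
  obtain ⟨p⟩ := hL.tl.conn.preconnected o v
  exact hwalk o v p (by rw [soft_pow hb, soft_pow hb])

theorem soft {V V' H : Type} [Group H] [MulAction H V] [MulAction H V'] {T : SimpleGraph V}
    {T' : SimpleGraph V'} {o : V} {o' : V'} (hL : IsLat H T T' o o') {n : ℕ}
    (Γ : SimpleGraph (Fin n)) (L : PP T → Fin n) (L' : QQ V' T o → Fin n)
    (hM : ∀ p q, MM H T o o' p q ↔ Γ.Adj (L p) (L' q)) (a b : H) (ha : a • o' = o')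
    (hb : b • o = o) : ∃ m k : ℕ, 0 < m ∧ 0 < k ∧ a ^ m * b ^ k = b ^ k * a ^ m := by
  obtain ⟨k, l, hkl, hrow⟩ := soft_row hL Γ L L' hM b hb
  set g : H := b ^ (l - k) with hg
  have hgv : ∀ v : V, g • v = v := by
    intro v
    have h1 : b ^ k • (g • v) = b ^ k • v := by
      rw [hrow v, hg, ← mul_smul, ← pow_add]
      congr 2
      omega
    exact smul_left_cancel _ h1
  set c : ℕ → H := fun i => (a ^ i)⁻¹ * g * a ^ i with hc
  have hco : ∀ i, c i • o = o := by
    intro i
    show ((a ^ i)⁻¹ * g * a ^ i) • o = o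
    rw [mul_smul, mul_smul, hgv, inv_smul_smul]
  have hco' : ∀ i, T'.dist o' (c i • o') = T'.dist o' (g • o') := by
    intro i
    show T'.dist o' (((a ^ i)⁻¹ * g * a ^ i) • o') = _
    rw [mul_smul, mul_smul, soft_pow ha, ← soft_dist hL.tl'.conn hL.adj' (a ^ i) o',
      soft_pow ha, smul_inv_smul]
  have hball := soft_ball hL.tl'.conn hL.lf' o' (T'.dist o' (g • o'))
  have hfin : Finite {x | T'.dist o' x ≤ T'.dist o' (g • o')} := hball.to_subtype
  obtain ⟨i, j, hij, he⟩ : ∃ i j : ℕ, i < j ∧ c i • o' = c j • o' := by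
    obtain ⟨x, y, hxy, he⟩ := Finite.exists_ne_map_eq_of_infinite
      (fun i : ℕ => (⟨c i • o', (hco' i).le⟩ : {x | T'.dist o' x ≤ T'.dist o' (g • o')}))
    have he' : c x • o' = c y • o' := congrArg Subtype.val he
    rcases lt_or_gt_of_ne hxy with h | h
    · exact ⟨x, y, h, he'⟩
    · exact ⟨y, x, h, he'.symm⟩
  have hcc : c i = c j := soft_uniq hL (by rw [hco, hco]) he
  refine ⟨j - i, l - k, by omega, by omega, ?_⟩
  rw [← hg]
  have h1 : (a ^ i)⁻¹ * g * a ^ i = (a ^ j)⁻¹ * g * a ^ j := hcc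
  have h2 : a ^ j = a ^ (j - i) * a ^ i := by
    rw [← pow_add]
    congr 1
    omega
  rw [h2, mul_inv_rev] at h1
  have h3 : g = (a ^ (j - i))⁻¹ * g * a ^ (j - i) := by
    have h4 : (a ^ i)⁻¹ * g * a ^ i =
        (a ^ i)⁻¹ * ((a ^ (j - i))⁻¹ * g * a ^ (j - i)) * a ^ i := by
      rw [h1]
      group
    exact mul_left_cancel (mul_right_cancel h4)
  calc a ^ (j - i) * g = a ^ (j - i) * ((a ^ (j - i))⁻¹ * g * a ^ (j - i)) := by rw [← h3]
    _ = g * a ^ (j - i) := by group

end Pool.Agent.MPbcc336
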