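import Pool.Agent.Lib.MP_bcc336_al.XMed
import Pool.Agent.Lib.MP_bcc336_al.RaagB
import Pool.Agent.Lib.MP_bcc336_al.Rows
import Pool.Agent.Lib.MP_bcc336_al.Soft
import Pool.Agent.Lib.MP_bcc336_al.Lat
import Pool.Agent.Lib.MP_bcc336_al.ActW
import Pool.Agent.Lib.MP_bcc336_al.LF

/-!
The final assembly.
-/

set_option autoImplicit false

namespace Pool.Agent.MPbcc336

private theorem exists_edge {V V' H : Type} [Group H] [MulAction H V] [MulAction H V']
    {T : SimpleGraph V} {T' : SimpleGraph V'} {o : V} {o' : V'} (hL : IsLat H T T' o o')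
    {a b : H} (ha : a • o' = o')
    (hab : ∀ m k : ℕ, 0 < m → 0 < k → a ^ m * b ^ k ≠ b ^ k * a ^ m) :
    ∃ x y, (WG H T T' o o').Adj x y := by
  have h1 : a ≠ 1 := by
    rintro rfl
    exact hab 1 1 one_pos one_pos (by simp)
  have h2 : a • o ≠ o := fun h3 => h1 ((hL.st o o').unique ⟨h3, ha⟩ ⟨one_smul _ _, one_smul _ _⟩)
  obtain ⟨w⟩ := hL.tl.conn.preconnected o (a • o)
  generalize a • o = z at w h2
  cases w with
  | nil => exact absurd rfl h2
  | @cons _ t _ h3 w =>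
    refine ⟨⟨(Sum.inl o, Sum.inl o'), ?_⟩, ⟨(Sum.inl t, Sum.inl o'), ?_⟩, ?_⟩
    · intro p p' hp
      exact absurd hp (by simp)
    · intro p p' hp
      exact absurd hp (by simp)
    · show (pend T _ □ pend T' _).Adj _ _
      rw [SimpleGraph.boxProd_adj]
      exact Or.inl ⟨h3, rfl⟩

theorem final :
    ¬ (∀ (V : Type) (G : SimpleGraph V) (H : Type) [Group H] [MulAction H V],
    G.Connected →
    (∀ x y z : V, ∃! m : V,
        G.dist x m + G.dist m y = G.dist x y ∧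
        G.dist y m + G.dist m z = G.dist y z ∧
        G.dist x m + G.dist m z = G.dist x z) →
    (∀ v : V, (G.neighborSet v).Finite) →
    (∀ (h : H) (x y : V), G.Adj (h • x) (h • y) ↔ G.Adj x y) →
    (∀ v : V, (MulAction.stabilizer H v : Set H).Finite) →
    Finite (MulAction.orbitRel.Quotient H V) →
    ∃ (n : ℕ) (Γ : SimpleGraph (Fin n)) (R : Set (FreeGroup (Fin n))),
      R = {r | ∃ i j : Fin n, Γ.Adj i j ∧
        r = FreeGroup.of i * FreeGroup.of j * (FreeGroup.of i)⁻¹ * (FreeGroup.of j)⁻¹} ∧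
      ∃ (C : SimpleGraph (PresentedGroup R)),
        (∀ g h : PresentedGroup R, C.Adj g h ↔
          (g ≠ h ∧ ∃ i : Fin n, h = g * PresentedGroup.of i ∨ g = h * PresentedGroup.of i)) ∧
        ∃ f : G ↪g C,
          ∀ a b c : PresentedGroup R, a ∈ Set.range f → b ∈ Set.range f →
            C.dist a c + C.dist c b = C.dist a b → c ∈ Set.range f) := by
  intro hall
  obtain ⟨V, V', H, gH, aV, aV', T, T', o, o', a, b, hL, ha, hb, hab⟩ := exists_lat
  obtain ⟨aW, h1, h2, h3⟩ := exists_act hL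
  obtain ⟨n, Γ, R, hR, C, hC, f, hf⟩ := hall (WW H T o o') (WG H T T' o o') H
    (XG_dist hL.tl hL.tl' _ _ _).1 (XG_med hL.tl hL.tl' _ _ _) (WG_lf hL) h1 h2 h3
  change R = raagRels Γ at hR
  subst hR
  obtain ⟨ℓ, e1, e2⟩ := raag_labels Γ C hC (WG H T T' o o') (exists_edge hL ha hab) f hf
  obtain ⟨L, L', hLL⟩ := rows hL.tl.conn hL.tl'.conn _ _ _ Γ ℓ e1 e2
  obtain ⟨m, k, hm, hk, hmk⟩ := soft hL Γ L L' hLL a b ha hb
  exact hab m k hm hk hmk

end Pool.Agent.MPbcc336
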