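import Pool.Agent.Lib.MP_bcc336_al.Mach

/-!
# The group of a pair of dual machines acting on the product of two trees (MP_bcc336_al)
-/

set_option autoImplicit false

namespace BCC

/-- A machine together with its dual. -/
structure Pair (A B : Type) where
  m : Mach A B
  d : Mach B A
  dA : d.iA = m.iB
  dB : d.iB = m.iA
  l1 : ∀ s x, d.π (m.π s x) (m.ρ s x) = s
  l2 : ∀ s x, d.ρ (m.π s x) (m.ρ s x) = x

namespace Pair

variable {A B : Type} [DecidableEq A] [DecidableEq B] (P : Pair A B)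

/-- Pairs of permutations of the two trees. -/
abbrev GP : Type := Equiv.Perm P.m.Tree × Equiv.Perm P.d.Tree

/-- the vertices of the product of the two trees -/
abbrev M : Type := P.m.Tree × P.d.Tree

/-- generator for a letter -/
def gA (x : A) : P.GP := (P.m.lmulE x, P.d.actE x)

/-- generator for a state -/
def gB (s : B) : P.GP := (P.m.actE s, P.d.lmulE s)

theorem gB_mul_gA (s : B) (x : A) : P.gB s * P.gA x = P.gA (P.m.π s x) * P.gB (P.m.ρ s x) := by
  apply Prod.ext
  · exact P.m.actE_mul_lmulE s x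
  · have := P.d.actE_mul_lmulE (P.m.π s x) (P.m.ρ s x)
    rw [P.l1, P.l2] at this
    exact this.symm

theorem gA_inv (x : A) : (P.gA x)⁻¹ = P.gA (P.m.iA x) := by
  apply Prod.ext
  · exact (P.m.lmulE_iA x).symm
  · have := P.d.actE_iB x
    rw [P.dB] at this
    exact this.symm

theorem gB_inv (s : B) : (P.gB s)⁻¹ = P.gB (P.m.iB s) := by
  apply Prod.ext
  · exact (P.m.actE_iB s).symm
  · have := P.d.lmulE_iA s
    rw [P.dA] at this
    exact this.symm

/-- the product of the generators of a word -/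
def wA (w : List A) : P.GP := (w.map P.gA).prod

/-- the product of the generators of a word -/
def wB (v : List B) : P.GP := (v.map P.gB).prod

@[simp] theorem wA_nil : P.wA [] = 1 := rfl
@[simp] theorem wB_nil : P.wB [] = 1 := rfl

theorem wA_cons (x : A) (w : List A) : P.wA (x :: w) = P.gA x * P.wA w := by simp [wA]

theorem wB_cons (s : B) (v : List B) : P.wB (s :: v) = P.gB s * P.wB v := by simp [wB]

theorem wA_lmul (x : A) (w : List A) : P.wA (P.m.lmul x w) = P.gA x * P.wA w := by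
  cases w with
  | nil => rw [Mach.lmul_nil, wA_cons]
  | cons y w =>
    by_cases hy : y = P.m.iA x
    · subst hy
      rw [Mach.lmul_cons_self, wA_cons, ← P.gA_inv, mul_inv_cancel_left]
    · rw [P.m.lmul_cons_of_ne hy, wA_cons]

theorem wB_lmul (s : B) (v : List B) : P.wB (P.d.lmul s v) = P.gB s * P.wB v := by
  cases v with
  | nil => rw [Mach.lmul_nil, wB_cons]
  | cons t v =>
    by_cases ht : t = P.d.iA s
    · subst ht
      rw [Mach.lmul_cons_self, wB_cons, P.dA, ← P.gB_inv, mul_inv_cancel_left]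
    · rw [P.d.lmul_cons_of_ne ht, wB_cons]

theorem gB_mul_wA (s : B) (w : List A) :
    P.gB s * P.wA w = P.wA (P.m.act s w) * P.gB (P.m.out s w) := by
  induction w generalizing s with
  | nil => simp [Mach.out]
  | cons x w ih =>
    rw [wA_cons, ← mul_assoc, gB_mul_gA, mul_assoc, ih, Mach.act_cons, wA_cons, mul_assoc]
    rfl

/-- The group. -/
def H : Subgroup P.GP := Subgroup.closure (Set.range P.gA ∪ Set.range P.gB)

theorem gA_mem (x : A) : P.gA x ∈ P.H := Subgroup.subset_closure (Or.inl ⟨x, rfl⟩)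

theorem gB_mem (s : B) : P.gB s ∈ P.H := Subgroup.subset_closure (Or.inr ⟨s, rfl⟩)

theorem wA_mem (w : List A) : P.wA w ∈ P.H := by
  induction w with
  | nil => exact one_mem _
  | cons x w ih => rw [wA_cons]; exact mul_mem (P.gA_mem x) ih

theorem wB_mem (v : List B) : P.wB v ∈ P.H := by
  induction v with
  | nil => exact one_mem _
  | cons x w ih => rw [wB_cons]; exact mul_mem (P.gB_mem x) ih

/-- induction principle: the generators are closed under inverses -/
theorem H_induction {p : P.GP → Prop} (h1 : p 1) (hA : ∀ x g, p g → p (P.gA x * g))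
    (hB : ∀ s g, p g → p (P.gB s * g)) {g : P.GP} (hg : g ∈ P.H) : p g := by
  induction hg using Subgroup.closure_induction_left with
  | one => exact h1
  | mul_left x hx y _ ih =>
    rcases hx with ⟨a, rfl⟩ | ⟨s, rfl⟩
    · exact hA a y ih
    · exact hB s y ih
  | inv_mul_cancel x hx y _ ih =>
    rcases hx with ⟨a, rfl⟩ | ⟨s, rfl⟩
    · rw [gA_inv]
      exact hA _ y ih
    · rw [gB_inv]
      exact hB _ y ih

/-- normal form -/
theorem exists_normal {g : P.GP} (hg : g ∈ P.H) :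
    ∃ (w : P.m.Tree) (v : P.d.Tree), g = P.wA w.1 * P.wB v.1 := by
  refine P.H_induction (p := fun g => ∃ (w : P.m.Tree) (v : P.d.Tree), g = P.wA w.1 * P.wB v.1)
    ?_ ?_ ?_ hg
  · exact ⟨P.m.root, P.d.root, by simp [Mach.root]⟩
  · rintro x _ ⟨w, v, rfl⟩
    refine ⟨P.m.lmulE x w, v, ?_⟩
    rw [Mach.lmulE_coe, wA_lmul, mul_assoc]
  · rintro s _ ⟨w, v, rfl⟩
    refine ⟨P.m.actE s w, P.d.lmulE (P.m.out s w.1) v, ?_⟩
    rw [Mach.lmulE_coe, Mach.actE_coe, wB_lmul, ← mul_assoc, ← mul_assoc, gB_mul_wA]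

/-- the base vertex -/
def o : P.M := (P.m.root, P.d.root)

/-- the action on the product of the trees -/
def ap (g : P.GP) (p : P.M) : P.M := (g.1 p.1, g.2 p.2)

@[simp] theorem ap_one (p : P.M) : P.ap 1 p = p := rfl

theorem ap_mul (g h : P.GP) (p : P.M) : P.ap (g * h) p = P.ap g (P.ap h p) := rfl

theorem ap_inv_ap (g : P.GP) (p : P.M) : P.ap g⁻¹ (P.ap g p) = p := by
  rw [← ap_mul, inv_mul_cancel, ap_one]

theorem ap_ap_inv (g : P.GP) (p : P.M) : P.ap g (P.ap g⁻¹ p) = p := by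
  rw [← ap_mul, mul_inv_cancel, ap_one]

theorem wA_fst_root (w : List A) (hw : P.m.Red w) : ((P.wA w).1 P.m.root).1 = w := by
  induction w with
  | nil => rfl
  | cons x w ih =>
    have hw' : P.m.Red w := by
      unfold Mach.Red at hw ⊢
      exact hw.tail
    rw [wA_cons]
    change P.m.lmul x ((P.wA w).1 P.m.root).1 = _
    rw [ih hw', P.m.lmul_of_red hw]

theorem wA_snd_root (w : List A) : (P.wA w).2 P.d.root = P.d.root := by
  induction w with
  | nil => rfl
  | cons x w ih =>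
    rw [wA_cons]
    change P.d.actE x ((P.wA w).2 P.d.root) = _
    rw [ih, Mach.actE_root]

theorem wB_snd_root (v : List B) (hv : P.d.Red v) : ((P.wB v).2 P.d.root).1 = v := by
  induction v with
  | nil => rfl
  | cons x w ih =>
    have hw' : P.d.Red w := by
      unfold Mach.Red at hv ⊢
      exact hv.tail
    rw [wB_cons]
    change P.d.lmul x ((P.wB w).2 P.d.root).1 = _
    rw [ih hw', P.d.lmul_of_red hv]

theorem wB_fst_root (v : List B) : (P.wB v).1 P.m.root = P.m.root := by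
  induction v with
  | nil => rfl
  | cons x w ih =>
    rw [wB_cons]
    change P.m.actE x ((P.wB w).1 P.m.root) = _
    rw [ih, Mach.actE_root]

/-- the action is free at the base vertex -/
theorem eq_one_of_ap_o {g : P.GP} (hg : g ∈ P.H) (h : P.ap g P.o = P.o) : g = 1 := by
  obtain ⟨w, v, rfl⟩ := P.exists_normal hg
  have h1 : (P.wA w.1).1 ((P.wB v.1).1 P.m.root) = P.m.root := congrArg Prod.fst h
  rw [wB_fst_root] at h1
  have h2 := P.wA_fst_root w.1 w.2
  rw [h1] at h2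
  have hw : w.1 = [] := h2.symm
  rw [hw, wA_nil, one_mul]
  have h3 : (P.wA w.1).2 ((P.wB v.1).2 P.d.root) = P.d.root := congrArg Prod.snd h
  rw [hw] at h3
  have h4 := P.wB_snd_root v.1 v.2
  have h5 : (P.wB v.1).2 P.d.root = P.d.root := h3
  rw [h5] at h4
  have hv : v.1 = [] := h4.symm
  rw [hv, wB_nil]

/-- the action is transitive -/
theorem exists_ap_o (p : P.M) : ∃ g ∈ P.H, P.ap g P.o = p := by
  let v := (P.wA p.1.1).2⁻¹ p.2
  refine ⟨P.wA p.1.1 * P.wB v.1, mul_mem (P.wA_mem _) (P.wB_mem _), ?_⟩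
  apply Prod.ext
  · change (P.wA p.1.1).1 ((P.wB v.1).1 P.m.root) = p.1
    rw [wB_fst_root]
    exact Subtype.ext (P.wA_fst_root _ p.1.2)
  · change (P.wA p.1.1).2 ((P.wB v.1).2 P.d.root) = p.2
    have : (P.wB v.1).2 P.d.root = v := Subtype.ext (P.wB_snd_root _ v.2)
    rw [this]
    change (P.wA p.1.1).2 ((P.wA p.1.1).2⁻¹ p.2) = p.2
    simp

/-- The element moving the base vertex to `p`. -/
noncomputable def el (p : P.M) : P.H := ⟨(P.exists_ap_o p).choose, (P.exists_ap_o p).choose_spec.1⟩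

theorem ap_el (p : P.M) : P.ap (P.el p).1 P.o = p := (P.exists_ap_o p).choose_spec.2

theorem el_eq {p : P.M} {g : P.H} (h : P.ap g.1 P.o = p) : P.el p = g := by
  have h1 : P.ap (g.1⁻¹ * (P.el p).1) P.o = P.o := by
    rw [ap_mul, ap_el, ← h, ap_inv_ap]
  have h2 := P.eq_one_of_ap_o (mul_mem (inv_mem g.2) (P.el p).2) h1
  rw [inv_mul_eq_one] at h2
  exact Subtype.ext h2.symm

theorem el_ap (g : P.H) (p : P.M) : P.el (P.ap g.1 p) = g * P.el p := by
  apply el_eq
  change P.ap (g.1 * (P.el p).1) P.o = _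
  rw [ap_mul, ap_el]

/-! ### adjacency -/

theorem tadj_of_mem {g : P.GP} (hg : g ∈ P.H) :
    (∀ u w : P.m.Tree, Mach.TAdj u.1 w.1 → Mach.TAdj (g.1 u).1 (g.1 w).1) ∧
    (∀ u w : P.d.Tree, Mach.TAdj u.1 w.1 → Mach.TAdj (g.2 u).1 (g.2 w).1) := by
  refine P.H_induction (p := fun g =>
    (∀ u w : P.m.Tree, Mach.TAdj u.1 w.1 → Mach.TAdj (g.1 u).1 (g.1 w).1) ∧
    (∀ u w : P.d.Tree, Mach.TAdj u.1 w.1 → Mach.TAdj (g.2 u).1 (g.2 w).1)) ?_ ?_ ?_ hg
  · exact ⟨fun u w h => h, fun u w h => h⟩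
  · rintro x g ih
    exact ⟨fun u w h => P.m.tadj_lmul x (ih.1 u w h), fun u w h => P.d.tadj_act x (ih.2 u w h)⟩
  · rintro s g ih
    exact ⟨fun u w h => P.m.tadj_act s (ih.1 u w h), fun u w h => P.d.tadj_lmul s (ih.2 u w h)⟩

/-- the family of the first tree -/
abbrev F₁ : P.m.Tree → Finset (List A) := wordFam P.m.Red

/-- the family of the second tree -/
abbrev F₂ : P.d.Tree → Finset (List B) := wordFam P.d.Red

theorem med₁ : MedFam P.F₁ := wordFam_medFam P.m.red_of_prefix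

theorem med₂ : MedFam P.F₂ := wordFam_medFam P.d.red_of_prefix

theorem adj₁_iff {g : P.GP} (hg : g ∈ P.H) (u w : P.m.Tree) :
    (famGraph P.F₁).Adj (g.1 u) (g.1 w) ↔ (famGraph P.F₁).Adj u w := by
  rw [wordFam_adj P.m.red_of_prefix, wordFam_adj P.m.red_of_prefix]
  constructor
  · intro h
    have h2 := (P.tadj_of_mem (inv_mem hg)).1 (g.1 u) (g.1 w) h
    have e : ∀ z, (g⁻¹).1 (g.1 z) = z := fun z => by simp
    rw [e, e] at h2
    exact h2
  · exact (P.tadj_of_mem hg).1 u w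

theorem adj₂_iff {g : P.GP} (hg : g ∈ P.H) (u w : P.d.Tree) :
    (famGraph P.F₂).Adj (g.2 u) (g.2 w) ↔ (famGraph P.F₂).Adj u w := by
  rw [wordFam_adj P.d.red_of_prefix, wordFam_adj P.d.red_of_prefix]
  constructor
  · intro h
    have h2 := (P.tadj_of_mem (inv_mem hg)).2 (g.2 u) (g.2 w) h
    have e : ∀ z, (g⁻¹).2 (g.2 z) = z := fun z => by simp
    rw [e, e] at h2
    exact h2
  · exact (P.tadj_of_mem hg).2 u w

/-- the family of the product -/
abbrev FM : P.M → Finset (List A ⊕ List B) := prodFam P.F₁ P.F₂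

theorem medM : MedFam P.FM := P.med₁.prod P.med₂

theorem adjM_iff {g : P.GP} (hg : g ∈ P.H) (p q : P.M) :
    (famGraph P.FM).Adj (P.ap g p) (P.ap g q) ↔ (famGraph P.FM).Adj p q := by
  rw [prodFam_adj _ _ P.med₁.inj P.med₂.inj, prodFam_adj _ _ P.med₁.inj P.med₂.inj]
  change ((famGraph P.F₁).Adj (g.1 p.1) (g.1 q.1) ∧ g.2 p.2 = g.2 q.2) ∨
    (g.1 p.1 = g.1 q.1 ∧ (famGraph P.F₂).Adj (g.2 p.2) (g.2 q.2)) ↔ _
  rw [P.adj₁_iff hg, P.adj₂_iff hg, g.1.apply_eq_iff_eq, g.2.apply_eq_iff_eq]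

theorem dist_le_of_map {V₁ V₂ : Type} {G₁ : SimpleGraph V₁} {G₂ : SimpleGraph V₂}
    (hc : G₁.Connected) (f : V₁ → V₂) (hf : ∀ x y, G₁.Adj x y → G₂.Adj (f x) (f y)) (x y : V₁) :
    G₂.dist (f x) (f y) ≤ G₁.dist x y := by
  obtain ⟨p, hp⟩ := (hc x y).exists_walk_length_eq_dist
  let F : G₁ →g G₂ := ⟨f, fun {a b} h => hf a b h⟩
  have := SimpleGraph.dist_le (p.map F)
  rw [SimpleGraph.Walk.length_map, hp] at this
  exact this

theorem distM_ap {g : P.GP} (hg : g ∈ P.H) (p q : P.M) :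
    (famGraph P.FM).dist (P.ap g p) (P.ap g q) = (famGraph P.FM).dist p q := by
  have : Nonempty P.M := ⟨P.o⟩
  have hc := P.medM.connected
  apply le_antisymm
  · exact dist_le_of_map hc (P.ap g) (fun x y h => (P.adjM_iff hg x y).2 h) p q
  · have := dist_le_of_map hc (P.ap g⁻¹) (fun x y h => (P.adjM_iff (inv_mem hg) x y).2 h)
      (P.ap g p) (P.ap g q)
    rwa [ap_inv_ap, ap_inv_ap] at this

theorem btwM_ap {g : P.GP} (hg : g ∈ P.H) {p m q : P.M} (h : Btw P.FM p m q) :
    Btw P.FM (P.ap g p) (P.ap g m) (P.ap g q) := by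
  rw [← P.medM.dist_add_iff] at h ⊢
  rwa [P.distM_ap hg, P.distM_ap hg, P.distM_ap hg]

end Pair

end BCC
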