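import Pool.Agent.Lib.MP_bcc336_al.Words

/-!
# Bireversible machines acting on trees of reduced words (MP_bcc336_al)

`s x = (π s x) (ρ s x)` : a letter `s` passes through a letter `x`.
-/

set_option autoImplicit false

namespace BCC

/-- A machine with states `B` and letters `A`; both have an involution `iA`, `iB` (inverse). -/
structure Mach (A B : Type) where
  iA : A → A
  iB : B → B
  π : B → A → A
  ρ : B → A → B
  iA_iA : ∀ x, iA (iA x) = x
  iB_iB : ∀ s, iB (iB s) = s
  c1 : ∀ s x, π (iB s) (π s x) = x
  c1' : ∀ s x, ρ (iB s) (π s x) = iB (ρ s x)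
  c2 : ∀ s x, π (ρ s x) (iA x) = iA (π s x)
  c2' : ∀ s x, ρ (ρ s x) (iA x) = s

namespace Mach

variable {A B : Type} [DecidableEq A] (m : Mach A B)

/-- Reduced words. -/
def Red (w : List A) : Prop := w.IsChain (fun x y => y ≠ m.iA x)

/-- The tree of reduced words. -/
abbrev Tree : Type := {w : List A // m.Red w}

theorem red_nil : m.Red [] := List.isChain_nil

theorem red_of_prefix (u w : List A) (h : u <+: w) (hw : m.Red w) : m.Red u := by
  obtain ⟨t, rfl⟩ := h
  exact (List.isChain_append.1 hw).1

/-- The action of a state on words. -/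
def act (s : B) : List A → List A
  | [] => []
  | x :: w => m.π s x :: act (m.ρ s x) w

/-- The state after reading a word. -/
def out (s : B) : List A → B
  | [] => s
  | x :: w => out (m.ρ s x) w

@[simp] theorem act_nil (s : B) : m.act s [] = [] := rfl

@[simp] theorem act_cons (s : B) (x : A) (w : List A) :
    m.act s (x :: w) = m.π s x :: m.act (m.ρ s x) w := rfl

theorem act_append (s : B) (u w : List A) :
    m.act s (u ++ w) = m.act s u ++ m.act (m.out s u) w := by
  induction u generalizing s with
  | nil => rfl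
  | cons x u ih => simp [out, ih]

theorem length_act (s : B) (w : List A) : (m.act s w).length = w.length := by
  induction w generalizing s with
  | nil => rfl
  | cons x w ih => simp [ih]

theorem act_take (s : B) (w : List A) (k : ℕ) : m.act s (w.take k) = (m.act s w).take k := by
  induction w generalizing s k with
  | nil => simp
  | cons x w ih =>
    cases k with
    | zero => simp
    | succ k => simp [ih]

theorem π_injective (s : B) : Function.Injective (m.π s) := by
  intro x y h
  rw [← m.c1 s x, h, m.c1]

theorem red_act (s : B) (w : List A) (h : m.Red w) : m.Red (m.act s w) := by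
  induction w generalizing s with
  | nil => exact h
  | cons x w ih =>
    unfold Red at h ih ⊢
    rw [act_cons]
    cases w with
    | nil => simp
    | cons y w =>
      rw [List.isChain_cons_cons] at h
      rw [act_cons, List.isChain_cons_cons]
      refine ⟨?_, ?_⟩
      · intro h'
        apply h.1
        rw [← m.c2 s x] at h'
        exact m.π_injective _ h'
      · have := ih (m.ρ s x) h.2
        rwa [act_cons] at this

theorem act_iB_act (s : B) (w : List A) : m.act (m.iB s) (m.act s w) = w := by
  induction w generalizing s with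
  | nil => rfl
  | cons x w ih => rw [act_cons, act_cons, m.c1, m.c1', ih]

/-- Left multiplication by a letter. -/
def lmul (x : A) : List A → List A
  | [] => [x]
  | y :: w => if y = m.iA x then w else x :: y :: w

@[simp] theorem lmul_nil (x : A) : m.lmul x [] = [x] := rfl

theorem lmul_cons_of_ne {x y : A} (h : y ≠ m.iA x) (w : List A) :
    m.lmul x (y :: w) = x :: y :: w := by simp [lmul, h]

theorem lmul_cons_self (x : A) (w : List A) : m.lmul x (m.iA x :: w) = w := by simp [lmul]

/-- For a reduced word `x :: w`, it is `lmul x w`. -/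
theorem lmul_of_red {x : A} {w : List A} (h : m.Red (x :: w)) : m.lmul x w = x :: w := by
  cases w with
  | nil => rfl
  | cons y w =>
    unfold Red at h
    rw [List.isChain_cons_cons] at h
    exact m.lmul_cons_of_ne h.1 w

theorem red_lmul (x : A) (w : List A) (h : m.Red w) : m.Red (m.lmul x w) := by
  cases w with
  | nil => simp [Red]
  | cons y w =>
    by_cases hy : y = m.iA x
    · subst hy
      rw [lmul_cons_self]
      unfold Red at h ⊢
      exact h.tail
    · rw [m.lmul_cons_of_ne hy]
      unfold Red at h ⊢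
      rw [List.isChain_cons_cons]
      exact ⟨hy, h⟩

theorem lmul_iA_lmul (x : A) (w : List A) (h : m.Red w) : m.lmul (m.iA x) (m.lmul x w) = w := by
  cases w with
  | nil =>
    rw [lmul_nil]
    have := m.lmul_cons_self (m.iA x) []
    rwa [m.iA_iA] at this
  | cons y w =>
    by_cases hy : y = m.iA x
    · subst hy
      rw [lmul_cons_self]
      exact m.lmul_of_red h
    · rw [m.lmul_cons_of_ne hy]
      have := m.lmul_cons_self (m.iA x) (y :: w)
      rwa [m.iA_iA] at this

theorem act_lmul (s : B) (x : A) (w : List A) :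
    m.act s (m.lmul x w) = m.lmul (m.π s x) (m.act (m.ρ s x) w) := by
  cases w with
  | nil => rfl
  | cons y w =>
    by_cases hy : y = m.iA x
    · subst hy
      rw [lmul_cons_self, act_cons, m.c2, m.c2', lmul_cons_self]
    · rw [m.lmul_cons_of_ne hy, act_cons, act_cons, lmul_cons_of_ne]
      rw [← m.c2 s x]
      exact fun h => hy (m.π_injective _ h)

/-- adjacency in the tree of words -/
def TAdj (u w : List A) : Prop := (∃ a, w = u ++ [a]) ∨ ∃ a, u = w ++ [a]

theorem tadj_symm {u w : List A} (h : TAdj u w) : TAdj w u := Or.symm h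

theorem tadj_act (s : B) {u w : List A} (h : TAdj u w) : TAdj (m.act s u) (m.act s w) := by
  rcases h with ⟨a, rfl⟩ | ⟨a, rfl⟩
  · left
    rw [act_append]
    exact ⟨_, rfl⟩
  · right
    rw [act_append]
    exact ⟨_, rfl⟩

theorem tadj_lmul_append (x : A) (u : List A) (a : A) : TAdj (m.lmul x u) (m.lmul x (u ++ [a])) := by
  cases u with
  | nil =>
    rw [List.nil_append, lmul_nil]
    by_cases ha : a = m.iA x
    · subst ha
      rw [lmul_cons_self]
      exact Or.inr ⟨x, rfl⟩
    · rw [m.lmul_cons_of_ne ha]
      exact Or.inl ⟨a, rfl⟩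
  | cons y u =>
    rw [List.cons_append]
    by_cases hy : y = m.iA x
    · subst hy
      rw [lmul_cons_self, lmul_cons_self]
      exact Or.inl ⟨a, rfl⟩
    · rw [m.lmul_cons_of_ne hy, m.lmul_cons_of_ne hy]
      exact Or.inl ⟨a, rfl⟩

theorem tadj_lmul (x : A) {u w : List A} (h : TAdj u w) : TAdj (m.lmul x u) (m.lmul x w) := by
  rcases h with ⟨a, rfl⟩ | ⟨a, rfl⟩
  · exact m.tadj_lmul_append x u a
  · exact tadj_symm (m.tadj_lmul_append x w a)

/-- The permutation of the tree given by a state. -/
def actE (s : B) : Equiv.Perm m.Tree where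
  toFun w := ⟨m.act s w.1, m.red_act s w.1 w.2⟩
  invFun w := ⟨m.act (m.iB s) w.1, m.red_act _ w.1 w.2⟩
  left_inv w := Subtype.ext (m.act_iB_act s w.1)
  right_inv w := Subtype.ext (by
    have := m.act_iB_act (m.iB s) w.1
    rwa [m.iB_iB] at this)

/-- Left multiplication as a permutation. -/
def lmulE (x : A) : Equiv.Perm m.Tree where
  toFun w := ⟨m.lmul x w.1, m.red_lmul x w.1 w.2⟩
  invFun w := ⟨m.lmul (m.iA x) w.1, m.red_lmul _ w.1 w.2⟩
  left_inv w := Subtype.ext (m.lmul_iA_lmul x w.1 w.2)
  right_inv w := Subtype.ext (by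
    have := m.lmul_iA_lmul (m.iA x) w.1 w.2
    rwa [m.iA_iA] at this)

@[simp] theorem actE_coe (s : B) (w : m.Tree) : ((m.actE s w : m.Tree) : List A) = m.act s w.1 := rfl

@[simp] theorem lmulE_coe (x : A) (w : m.Tree) :
    ((m.lmulE x w : m.Tree) : List A) = m.lmul x w.1 := rfl

/-- the root -/
def root : m.Tree := ⟨[], m.red_nil⟩

theorem actE_root (s : B) : m.actE s m.root = m.root := rfl

theorem actE_mul_lmulE (s : B) (x : A) :
    m.actE s * m.lmulE x = m.lmulE (m.π s x) * m.actE (m.ρ s x) := by
  ext1 w
  exact Subtype.ext (m.act_lmul s x w.1)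

theorem actE_iB (s : B) : m.actE (m.iB s) = (m.actE s)⁻¹ := by
  rw [eq_inv_iff_mul_eq_one]
  ext1 w
  exact Subtype.ext (m.act_iB_act s w.1)

theorem lmulE_iA (x : A) : m.lmulE (m.iA x) = (m.lmulE x)⁻¹ := by
  rw [eq_inv_iff_mul_eq_one]
  ext1 w
  exact Subtype.ext (m.lmul_iA_lmul x w.1 w.2)

end Mach

end BCC
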