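import Mathlib

/-!
# Median graphs from families of finite sets (MP_bcc336_al)
-/

set_option autoImplicit false

namespace BCC

open Finset

section general

variable {V W : Type*} [DecidableEq W]

/-- A family of finite sets closed under majority in which two different members can be joined by
changing one element at a time. -/
structure MedFam (S : V → Finset W) : Prop where
  inj : Function.Injective S
  step : ∀ x y, x ≠ y → ∃ z, ∃ w ∈ symmDiff (S x) (S y), S z = symmDiff (S x) {w}
  maj : ∀ x y z, ∃ m, ∀ w, w ∈ S m ↔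
    (w ∈ S x ∧ w ∈ S y) ∨ (w ∈ S y ∧ w ∈ S z) ∨ (w ∈ S x ∧ w ∈ S z)

/-- `m` is between `x` and `y`. -/
def Btw (S : V → Finset W) (x m y : V) : Prop :=
  ∀ w, (w ∈ S x → w ∈ S y → w ∈ S m) ∧ (w ∈ S m → w ∈ S x ∨ w ∈ S y)

/-- The graph of a family: two members are adjacent if they differ by one element. -/
def famGraph (S : V → Finset W) : SimpleGraph V where
  Adj x y := (symmDiff (S x) (S y)).card = 1
  symm := ⟨fun x y h => by rw [symmDiff_comm]; exact h⟩
  loopless := ⟨fun x h => by simp at h⟩

theorem famGraph_adj (S : V → Finset W) (x y : V) :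
    (famGraph S).Adj x y ↔ (symmDiff (S x) (S y)).card = 1 := Iff.rfl

theorem card_symmDiff_add (A B : Finset W) :
    (symmDiff A B).card + 2 * (A ∩ B).card = A.card + B.card := by
  have h1 : symmDiff A B = (A \ B) ∪ (B \ A) := rfl
  have h2 : Disjoint (A \ B) (B \ A) := by
    rw [Finset.disjoint_left]
    intro x hx hy
    rw [Finset.mem_sdiff] at hx hy
    exact hx.2 hy.1
  rw [h1, Finset.card_union_of_disjoint h2]
  have h3 := Finset.card_sdiff_add_card_inter A B
  have h4 := Finset.card_sdiff_add_card_inter B A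
  rw [Finset.inter_comm B A] at h4
  omega

theorem symmDiff_symmDiff_cancel (A B C : Finset W) :
    symmDiff (symmDiff A B) (symmDiff B C) = symmDiff A C := by
  rw [symmDiff_assoc, ← symmDiff_assoc B B C, symmDiff_self, bot_symmDiff]

theorem card_symmDiff_triangle (A B C : Finset W) :
    (symmDiff A C).card ≤ (symmDiff A B).card + (symmDiff B C).card := by
  have := card_symmDiff_add (symmDiff A B) (symmDiff B C)
  rw [symmDiff_symmDiff_cancel] at this
  omega

theorem card_eq_iff_btw (S : V → Finset W) (x m y : V) :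
    (symmDiff (S x) (S m)).card + (symmDiff (S m) (S y)).card = (symmDiff (S x) (S y)).card ↔
      Btw S x m y := by
  have h := card_symmDiff_add (symmDiff (S x) (S m)) (symmDiff (S m) (S y))
  rw [symmDiff_symmDiff_cancel] at h
  have h1 : (symmDiff (S x) (S m)).card + (symmDiff (S m) (S y)).card =
      (symmDiff (S x) (S y)).card ↔
      ((symmDiff (S x) (S m)) ∩ (symmDiff (S m) (S y))).card = 0 := by omega
  rw [h1, Finset.card_eq_zero, Finset.eq_empty_iff_forall_notMem]
  unfold Btw
  apply forall_congr'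
  intro w
  rw [Finset.mem_inter, Finset.mem_symmDiff, Finset.mem_symmDiff]
  tauto

theorem exists_walk {S : V → Finset W} (hS : MedFam S) (n : ℕ) :
    ∀ x y, (symmDiff (S x) (S y)).card = n → ∃ p : (famGraph S).Walk x y, p.length = n := by
  induction n with
  | zero =>
    intro x y h
    rw [Finset.card_eq_zero, Finset.symmDiff_eq_empty] at h
    obtain rfl := hS.inj h
    exact ⟨SimpleGraph.Walk.nil, rfl⟩
  | succ n ih =>
    intro x y h
    have hxy : x ≠ y := by
      rintro rfl
      simp at h
    obtain ⟨z, w, hw, hz⟩ := hS.step x y hxy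
    have h1 : symmDiff (S x) (S z) = {w} := by
      rw [hz, ← symmDiff_assoc, symmDiff_self, bot_symmDiff]
    have h2 : symmDiff (S z) (S y) = (symmDiff (S x) (S y)).erase w := by
      rw [hz]
      ext a
      simp only [Finset.mem_symmDiff, Finset.mem_erase, Finset.mem_singleton] at hw ⊢
      by_cases haw : a = w
      · subst haw
        tauto
      · tauto
    have h3 : (symmDiff (S z) (S y)).card = n := by
      rw [h2, Finset.card_erase_of_mem hw, h]
      rfl
    obtain ⟨p, hp⟩ := ih z y h3
    have hadj : (famGraph S).Adj x z := by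
      rw [famGraph_adj, h1, Finset.card_singleton]
    exact ⟨SimpleGraph.Walk.cons hadj p, by rw [SimpleGraph.Walk.length_cons, hp]⟩

theorem card_le_length (S : V → Finset W) {x y : V} (p : (famGraph S).Walk x y) :
    (symmDiff (S x) (S y)).card ≤ p.length := by
  induction p with
  | nil => simp
  | @cons u v w h p ih =>
    have h1 := card_symmDiff_triangle (S u) (S v) (S w)
    rw [famGraph_adj] at h
    rw [SimpleGraph.Walk.length_cons]
    omega

theorem MedFam.connected [Nonempty V] {S : V → Finset W} (hS : MedFam S) :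
    (famGraph S).Connected := by
  rw [SimpleGraph.connected_iff]
  refine ⟨fun x y => ?_, inferInstance⟩
  obtain ⟨p, -⟩ := exists_walk hS _ x y rfl
  exact ⟨p⟩

theorem MedFam.dist_eq {S : V → Finset W} (hS : MedFam S) (x y : V) :
    (famGraph S).dist x y = (symmDiff (S x) (S y)).card := by
  obtain ⟨p, hp⟩ := exists_walk hS _ x y rfl
  apply le_antisymm
  · rw [← hp]
    exact SimpleGraph.dist_le p
  · have hr : (famGraph S).Reachable x y := ⟨p⟩
    obtain ⟨q, hq⟩ := hr.exists_walk_length_eq_dist
    rw [← hq]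
    exact card_le_length S q

theorem MedFam.dist_add_iff {S : V → Finset W} (hS : MedFam S) (x m y : V) :
    (famGraph S).dist x m + (famGraph S).dist m y = (famGraph S).dist x y ↔ Btw S x m y := by
  rw [hS.dist_eq, hS.dist_eq, hS.dist_eq, card_eq_iff_btw]

theorem MedFam.median {S : V → Finset W} (hS : MedFam S) (x y z : V) : ∃! m : V,
    (famGraph S).dist x m + (famGraph S).dist m y = (famGraph S).dist x y ∧
    (famGraph S).dist y m + (famGraph S).dist m z = (famGraph S).dist y z ∧
    (famGraph S).dist x m + (famGraph S).dist m z = (famGraph S).dist x z := by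
  obtain ⟨m, hm⟩ := hS.maj x y z
  refine ⟨m, ?_, ?_⟩
  · change _ ∧ _ ∧ _
    rw [hS.dist_add_iff, hS.dist_add_iff, hS.dist_add_iff]
    refine ⟨fun w => ?_, fun w => ?_, fun w => ?_⟩ <;>
    · have := hm w
      tauto
  · intro m' h'
    change _ ∧ _ ∧ _ at h'
    rw [hS.dist_add_iff, hS.dist_add_iff, hS.dist_add_iff] at h'
    obtain ⟨h1, h2, h3⟩ := h'
    apply hS.inj
    ext w
    have a1 := h1 w
    have a2 := h2 w
    have a3 := h3 w
    have := hm w
    tauto

end general

section prod

variable {V₁ V₂ W₁ W₂ : Type*} [DecidableEq W₁] [DecidableEq W₂]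

/-- Product family. -/
def prodFam (S₁ : V₁ → Finset W₁) (S₂ : V₂ → Finset W₂) : V₁ × V₂ → Finset (W₁ ⊕ W₂) :=
  fun x => (S₁ x.1).disjSum (S₂ x.2)

theorem inl_mem_prodFam (S₁ : V₁ → Finset W₁) (S₂ : V₂ → Finset W₂) (x : V₁ × V₂) (w : W₁) :
    Sum.inl w ∈ prodFam S₁ S₂ x ↔ w ∈ S₁ x.1 := Finset.inl_mem_disjSum

theorem inr_mem_prodFam (S₁ : V₁ → Finset W₁) (S₂ : V₂ → Finset W₂) (x : V₁ × V₂) (w : W₂) :
    Sum.inr w ∈ prodFam S₁ S₂ x ↔ w ∈ S₂ x.2 := Finset.inr_mem_disjSum

theorem symmDiff_prodFam (S₁ : V₁ → Finset W₁) (S₂ : V₂ → Finset W₂) (x y : V₁ × V₂) :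
    symmDiff (prodFam S₁ S₂ x) (prodFam S₁ S₂ y) =
      (symmDiff (S₁ x.1) (S₁ y.1)).disjSum (symmDiff (S₂ x.2) (S₂ y.2)) := by
  ext (w | w)
  · rw [Finset.mem_symmDiff, inl_mem_prodFam, inl_mem_prodFam, Finset.inl_mem_disjSum,
      Finset.mem_symmDiff]
  · rw [Finset.mem_symmDiff, inr_mem_prodFam, inr_mem_prodFam, Finset.inr_mem_disjSum,
      Finset.mem_symmDiff]

theorem prodFam_adj (S₁ : V₁ → Finset W₁) (S₂ : V₂ → Finset W₂) (h₁ : Function.Injective S₁)
    (h₂ : Function.Injective S₂) (x y : V₁ × V₂) :
    (famGraph (prodFam S₁ S₂)).Adj x y ↔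
      ((famGraph S₁).Adj x.1 y.1 ∧ x.2 = y.2) ∨ (x.1 = y.1 ∧ (famGraph S₂).Adj x.2 y.2) := by
  rw [famGraph_adj, symmDiff_prodFam, Finset.card_disjSum, famGraph_adj, famGraph_adj,
    ← h₁.eq_iff, ← h₂.eq_iff, ← Finset.symmDiff_eq_empty (s := S₁ x.1),
    ← Finset.symmDiff_eq_empty (s := S₂ x.2), ← Finset.card_eq_zero, ← Finset.card_eq_zero]
  omega

theorem MedFam.prod {S₁ : V₁ → Finset W₁} {S₂ : V₂ → Finset W₂} (h₁ : MedFam S₁)
    (h₂ : MedFam S₂) : MedFam (prodFam S₁ S₂) where
  inj := by
    intro x y h
    apply Prod.ext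
    · apply h₁.inj
      ext w
      rw [← inl_mem_prodFam S₁ S₂, ← inl_mem_prodFam S₁ S₂, h]
    · apply h₂.inj
      ext w
      rw [← inr_mem_prodFam S₁ S₂, ← inr_mem_prodFam S₁ S₂, h]
  step := by
    rintro ⟨x₁, x₂⟩ ⟨y₁, y₂⟩ hxy
    by_cases h : x₁ = y₁
    · subst h
      have h' : x₂ ≠ y₂ := fun h => hxy (by rw [h])
      obtain ⟨z, w, hw, hz⟩ := h₂.step x₂ y₂ h'
      refine ⟨(x₁, z), Sum.inr w, ?_, ?_⟩
      · rw [symmDiff_prodFam, Finset.inr_mem_disjSum]
        exact hw
      · ext (v | v)
        · rw [inl_mem_prodFam, Finset.mem_symmDiff, inl_mem_prodFam]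
          simp
        · rw [inr_mem_prodFam, Finset.mem_symmDiff, inr_mem_prodFam, hz, Finset.mem_symmDiff]
          simp
    · obtain ⟨z, w, hw, hz⟩ := h₁.step x₁ y₁ h
      refine ⟨(z, x₂), Sum.inl w, ?_, ?_⟩
      · rw [symmDiff_prodFam, Finset.inl_mem_disjSum]
        exact hw
      · ext (v | v)
        · rw [inl_mem_prodFam, Finset.mem_symmDiff, inl_mem_prodFam, hz, Finset.mem_symmDiff]
          simp
        · rw [inr_mem_prodFam, Finset.mem_symmDiff, inr_mem_prodFam]
          simp
  maj := by
    intro x y z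
    obtain ⟨m₁, hm₁⟩ := h₁.maj x.1 y.1 z.1
    obtain ⟨m₂, hm₂⟩ := h₂.maj x.2 y.2 z.2
    refine ⟨(m₁, m₂), ?_⟩
    rintro (w | w)
    · rw [inl_mem_prodFam, inl_mem_prodFam, inl_mem_prodFam, inl_mem_prodFam]
      exact hm₁ w
    · rw [inr_mem_prodFam, inr_mem_prodFam, inr_mem_prodFam, inr_mem_prodFam]
      exact hm₂ w

theorem btw_prodFam (S₁ : V₁ → Finset W₁) (S₂ : V₂ → Finset W₂) (x m y : V₁ × V₂) :
    Btw (prodFam S₁ S₂) x m y ↔ Btw S₁ x.1 m.1 y.1 ∧ Btw S₂ x.2 m.2 y.2 := by
  constructor
  · intro h
    refine ⟨fun w => ?_, fun w => ?_⟩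
    · have := h (Sum.inl w)
      simpa only [inl_mem_prodFam] using this
    · have := h (Sum.inr w)
      simpa only [inr_mem_prodFam] using this
  · rintro ⟨h₁, h₂⟩ (w | w)
    · simpa only [inl_mem_prodFam] using h₁ w
    · simpa only [inr_mem_prodFam] using h₂ w

end prod

section fins

variable {M W K : Type*} [DecidableEq W] [DecidableEq K]

/-- The family of `M` with fins along the classes of `cls`. -/
def finFam (S : M → Finset W) (cls : M → K) : M × Bool → Finset (W ⊕ K) :=
  fun x => (S x.1).disjSum (if x.2 then {cls x.1} else ∅)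

theorem inl_mem_finFam (S : M → Finset W) (cls : M → K) (x : M × Bool) (w : W) :
    Sum.inl w ∈ finFam S cls x ↔ w ∈ S x.1 := Finset.inl_mem_disjSum

theorem inr_mem_finFam (S : M → Finset W) (cls : M → K) (x : M × Bool) (k : K) :
    Sum.inr k ∈ finFam S cls x ↔ x.2 = true ∧ k = cls x.1 := by
  unfold finFam
  rw [Finset.inr_mem_disjSum]
  split_ifs with h <;> simp [h]

theorem MedFam.fins {S : M → Finset W} (hS : MedFam S) (cls : M → K)
    (hcls : ∀ x m y, cls x = cls y → Btw S x m y → cls m = cls x) : MedFam (finFam S cls) where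
  inj := by
    rintro ⟨x, a⟩ ⟨y, b⟩ h
    have h1 : x = y := by
      apply hS.inj
      ext w
      have h2 := inl_mem_finFam S cls (x, a) w
      have h3 := inl_mem_finFam S cls (y, b) w
      rw [h] at h2
      exact h2.symm.trans h3
    subst h1
    have h2 := inr_mem_finFam S cls (x, a) (cls x)
    have h3 := inr_mem_finFam S cls (x, b) (cls x)
    rw [h] at h2
    have h4 := h2.symm.trans h3
    simp only [and_true] at h4
    rw [Bool.eq_iff_iff.2 h4]
  step := by
    have key : ∀ (x y : M) (a : Bool) (_ : x ≠ y) (z : M) (w : W)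
        (_ : w ∈ symmDiff (S x) (S y)) (_ : S z = symmDiff (S x) {w})
        (_ : a = true → cls z = cls x) (b : Bool),
        ∃ z', ∃ w' ∈ symmDiff (finFam S cls (x, a)) (finFam S cls (y, b)),
          finFam S cls z' = symmDiff (finFam S cls (x, a)) {w'} := by
      intro x y a _ z w hw hz hc b
      refine ⟨(z, a), Sum.inl w, ?_, ?_⟩
      · rw [Finset.mem_symmDiff, inl_mem_finFam, inl_mem_finFam]
        rwa [Finset.mem_symmDiff] at hw
      · ext (v | k)
        · rw [inl_mem_finFam, Finset.mem_symmDiff, inl_mem_finFam, hz, Finset.mem_symmDiff]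
          simp
        · rw [inr_mem_finFam, Finset.mem_symmDiff, inr_mem_finFam]
          cases a with
          | false => simp
          | true => simp [hc rfl]
    rintro ⟨x, a⟩ ⟨y, b⟩ hxy
    cases a with
    | false =>
      by_cases h : x = y
      · subst h
        have hb : b = true := by
          cases b with
          | false => exact absurd rfl hxy
          | true => rfl
        subst hb
        refine ⟨(x, true), Sum.inr (cls x), ?_, ?_⟩
        · rw [Finset.mem_symmDiff, inr_mem_finFam, inr_mem_finFam]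
          simp
        · ext (v | k)
          · rw [inl_mem_finFam, Finset.mem_symmDiff, inl_mem_finFam]
            simp
          · rw [inr_mem_finFam, Finset.mem_symmDiff, inr_mem_finFam]
            simp
      · obtain ⟨z, w, hw, hz⟩ := hS.step x y h
        exact key x y false h z w hw hz (fun h => absurd h (by simp)) b
    | true =>
      by_cases hc : b = true ∧ cls x = cls y
      · obtain ⟨rfl, hc⟩ := hc
        have h : x ≠ y := by
          rintro rfl
          exact hxy rfl
        obtain ⟨z, w, hw, hz⟩ := hS.step x y h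
        refine key x y true h z w hw hz (fun _ => ?_) true
        apply hcls x z y hc
        intro v
        rw [hz]
        simp only [Finset.mem_symmDiff, Finset.mem_singleton] at hw ⊢
        by_cases hv : v = w
        · subst hv
          tauto
        · tauto
      · refine ⟨(x, false), Sum.inr (cls x), ?_, ?_⟩
        · rw [Finset.mem_symmDiff, inr_mem_finFam, inr_mem_finFam]
          simp only [and_true, true_and]
          left
          exact hc
        · ext (v | k)
          · rw [inl_mem_finFam, Finset.mem_symmDiff, inl_mem_finFam]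
            simp
          · rw [inr_mem_finFam, Finset.mem_symmDiff, inr_mem_finFam]
            simp
  maj := by
    rintro ⟨x, a⟩ ⟨y, b⟩ ⟨z, c⟩
    obtain ⟨m, hm⟩ := hS.maj x y z
    have b1 : Btw S x m y := fun w => by have := hm w; tauto
    have b2 : Btw S y m z := fun w => by have := hm w; tauto
    have b3 : Btw S x m z := fun w => by have := hm w; tauto
    by_cases h : (a = true ∧ b = true ∧ cls x = cls y) ∨ (b = true ∧ c = true ∧ cls y = cls z) ∨
        (a = true ∧ c = true ∧ cls x = cls z)
    · refine ⟨(m, true), ?_⟩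
      rintro (w | k)
      · rw [inl_mem_finFam, inl_mem_finFam, inl_mem_finFam, inl_mem_finFam]
        exact hm w
      · rw [inr_mem_finFam, inr_mem_finFam, inr_mem_finFam, inr_mem_finFam]
        dsimp only
        have e1 : cls x = cls y → cls m = cls x := fun e => hcls x m y e b1
        have e2 : cls y = cls z → cls m = cls y := fun e => hcls y m z e b2
        have e3 : cls x = cls z → cls m = cls x := fun e => hcls x m z e b3
        rcases h with ⟨rfl, rfl, e⟩ | ⟨rfl, rfl, e⟩ | ⟨rfl, rfl, e⟩
        · rw [e1 e]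
          constructor
          · rintro ⟨-, rfl⟩
            exact Or.inl ⟨⟨rfl, rfl⟩, rfl, e⟩
          · rintro (h | h | h)
            · exact h.1
            · exact ⟨rfl, h.1.2.trans e.symm⟩
            · exact h.1
        · rw [e2 e]
          constructor
          · rintro ⟨-, rfl⟩
            exact Or.inr (Or.inl ⟨⟨rfl, rfl⟩, rfl, e⟩)
          · rintro (h | h | h)
            · exact h.2
            · exact h.1
            · exact ⟨rfl, h.2.2.trans e.symm⟩
        · rw [e3 e]
          constructor
          · rintro ⟨-, rfl⟩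
            exact Or.inr (Or.inr ⟨⟨rfl, rfl⟩, rfl, e⟩)
          · rintro (h | h | h)
            · exact h.1
            · exact ⟨rfl, h.2.2.trans e.symm⟩
            · exact h.1
    · refine ⟨(m, false), ?_⟩
      rintro (w | k)
      · rw [inl_mem_finFam, inl_mem_finFam, inl_mem_finFam, inl_mem_finFam]
        exact hm w
      · rw [inr_mem_finFam, inr_mem_finFam, inr_mem_finFam, inr_mem_finFam]
        dsimp only
        constructor
        · rintro ⟨h, -⟩
          exact absurd h (by simp)
        · intro h'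
          exfalso
          apply h
          rcases h' with h' | h' | h'
          · exact Or.inl ⟨h'.1.1, h'.2.1, h'.1.2.symm.trans h'.2.2⟩
          · exact Or.inr (Or.inl ⟨h'.1.1, h'.2.1, h'.1.2.symm.trans h'.2.2⟩)
          · exact Or.inr (Or.inr ⟨h'.1.1, h'.2.1, h'.1.2.symm.trans h'.2.2⟩)

theorem symmDiff_finFam (S : M → Finset W) (cls : M → K) (x y : M × Bool) :
    symmDiff (finFam S cls x) (finFam S cls y) = (symmDiff (S x.1) (S y.1)).disjSum
      (symmDiff (if x.2 then {cls x.1} else ∅) (if y.2 then {cls y.1} else ∅)) := by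
  ext (w | w)
  · rw [Finset.mem_symmDiff, inl_mem_finFam, inl_mem_finFam, Finset.inl_mem_disjSum,
      Finset.mem_symmDiff]
  · unfold finFam
    rw [Finset.mem_symmDiff, Finset.inr_mem_disjSum, Finset.inr_mem_disjSum,
      Finset.inr_mem_disjSum, Finset.mem_symmDiff]

theorem finFam_adj (S : M → Finset W) (hS : Function.Injective S) (cls : M → K)
    (x y : M × Bool) : (famGraph (finFam S cls)).Adj x y ↔
      (x.2 = false ∧ y.2 = false ∧ (famGraph S).Adj x.1 y.1) ∨
      (x.2 = true ∧ y.2 = true ∧ cls x.1 = cls y.1 ∧ (famGraph S).Adj x.1 y.1) ∨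
      (x.1 = y.1 ∧ x.2 ≠ y.2) := by
  rw [famGraph_adj, symmDiff_finFam, Finset.card_disjSum, famGraph_adj]
  obtain ⟨x, a⟩ := x
  obtain ⟨y, b⟩ := y
  have h0 : x = y ↔ (symmDiff (S x) (S y)).card = 0 := by
    rw [← hS.eq_iff, Finset.card_eq_zero, Finset.symmDiff_eq_empty]
  cases a <;> cases b
  · simp
  · have e : symmDiff (∅ : Finset K) {cls y} = {cls y} := by
      rw [← Finset.bot_eq_empty, bot_symmDiff]
    simp only [Bool.false_eq_true, if_false, if_true, e, Finset.card_singleton, h0]
    simp
  · have e : symmDiff {cls x} (∅ : Finset K) = {cls x} := by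
      rw [← Finset.bot_eq_empty, symmDiff_bot]
    simp only [Bool.false_eq_true, if_false, if_true, e, Finset.card_singleton, h0]
    simp
  · by_cases hc : cls x = cls y
    · simp [hc]
    · have h2 : (symmDiff ({cls x} : Finset K) {cls y}).card = 2 := by
        have := card_symmDiff_add ({cls x} : Finset K) {cls y}
        have h3 : ({cls x} : Finset K) ∩ {cls y} = ∅ := by
          rw [Finset.eq_empty_iff_forall_notMem]
          intro w hw
          rw [Finset.mem_inter, Finset.mem_singleton, Finset.mem_singleton] at hw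
          exact hc (hw.1.symm.trans hw.2)
        rw [h3] at this
        simpa using this
      simp [hc, h2]

end fins

end BCC
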