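import Pool.Agent.Lib.MP_bcc336_al.Pat

/-!
# The complex does not embed convexly in the Cayley graph of a RAAG (MP_bcc336_al)
-/

set_option autoImplicit false

namespace BCC

section raag

variable {n : ℕ} {R : Set (FreeGroup (Fin n))}

/-- signed generators -/
def gen (R : Set (FreeGroup (Fin n))) (l : Fin n × Bool) : PresentedGroup R :=
  if l.2 then PresentedGroup.of l.1 else (PresentedGroup.of l.1)⁻¹

/-- the vector of a signed generator -/
def vec (l : Fin n × Bool) : Fin n → ℤ := Pi.single l.1 (if l.2 then 1 else -1)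

theorem vec_four {l₁ l₂ l₃ l₄ : Fin n × Bool} (h : vec l₁ + vec l₂ = vec l₄ + vec l₃)
    (h14 : l₁ ≠ l₄) (h12 : l₂ ≠ (l₁.1, !l₁.2)) : l₃ = l₁ ∧ l₄ = l₂ := by
  obtain ⟨i₁, b₁⟩ := l₁
  obtain ⟨i₂, b₂⟩ := l₂
  obtain ⟨i₃, b₃⟩ := l₃
  obtain ⟨i₄, b₄⟩ := l₄
  have e1 := congrFun h i₁
  have e2 := congrFun h i₂
  simp only [vec, Pi.add_apply, Pi.single_apply] at e1 e2
  have k1 : i₁ = i₂ → b₁ = b₂ := by
    rintro rfl
    by_contra hb
    apply h12
    cases b₁ <;> cases b₂ <;> simp_all
  have k2 : i₁ = i₄ → b₁ ≠ b₄ := by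
    rintro rfl rfl
    exact h14 rfl
  by_cases h12' : i₁ = i₂
  · exfalso
    have hb := k1 h12'
    subst h12' hb
    by_cases h14' : i₁ = i₄
    · have hb := k2 h14'
      subst h14'
      by_cases h13 : i₁ = i₃
      · subst h13
        cases b₁ <;> cases b₄ <;> cases b₃ <;> simp_all
      · cases b₁ <;> cases b₄ <;> cases b₃ <;> simp_all
    · by_cases h13 : i₁ = i₃
      · subst h13
        cases b₁ <;> cases b₄ <;> cases b₃ <;> simp_all
      · cases b₁ <;> cases b₄ <;> cases b₃ <;> simp_all
  · by_cases h14' : i₁ = i₄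
    · exfalso
      have hb := k2 h14'
      subst h14'
      by_cases h13 : i₁ = i₃
      · subst h13
        cases b₁ <;> cases b₄ <;> cases b₃ <;> simp_all
      · cases b₁ <;> cases b₄ <;> cases b₃ <;> simp_all
    · by_cases h13 : i₁ = i₃
      · subst h13
        have h21 : ¬ i₂ = i₁ := fun h => h12' h.symm
        by_cases h24 : i₂ = i₄
        · subst h24
          cases b₁ <;> cases b₂ <;> cases b₄ <;> cases b₃ <;> simp_all
        · exfalso
          cases b₁ <;> cases b₂ <;> cases b₄ <;> cases b₃ <;> simp_all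
      · exfalso
        cases b₁ <;> cases b₂ <;> cases b₄ <;> cases b₃ <;> simp_all

theorem vec_injective : Function.Injective (vec : Fin n × Bool → Fin n → ℤ) := by
  rintro ⟨i, b⟩ ⟨j, c⟩ h
  have e1 := congrFun h i
  simp only [vec, Pi.single_apply] at e1
  by_cases hij : i = j
  · subst hij
    cases b <;> cases c <;> simp_all
  · cases b <;> cases c <;> simp_all

theorem exists_ab {Γ : SimpleGraph (Fin n)} (hR : R = {r | ∃ i j : Fin n, Γ.Adj i j ∧
    r = FreeGroup.of i * FreeGroup.of j * (FreeGroup.of i)⁻¹ * (FreeGroup.of j)⁻¹}) :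
    ∃ ab : PresentedGroup R →* Multiplicative (Fin n → ℤ),
      ∀ l, ab (gen R l) = Multiplicative.ofAdd (vec l) := by
  let φ : Fin n → Multiplicative (Fin n → ℤ) := fun i => Multiplicative.ofAdd (Pi.single i (1 : ℤ) : Fin n → ℤ)
  have hφ : ∀ r ∈ R, FreeGroup.lift φ r = 1 := by
    intro r hr
    rw [hR] at hr
    obtain ⟨i, j, -, rfl⟩ := hr
    simp only [map_mul, map_inv, FreeGroup.lift_apply_of]
    rw [mul_comm (φ i) (φ j), mul_inv_cancel_right, mul_inv_cancel]
  refine ⟨PresentedGroup.toGroup hφ, ?_⟩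
  rintro ⟨i, b⟩
  cases b with
  | true =>
    simp only [gen, if_true, vec]
    rw [PresentedGroup.toGroup.of]
  | false =>
    simp only [gen, Bool.false_eq_true, if_false, vec]
    rw [map_inv, PresentedGroup.toGroup.of]
    change (Multiplicative.ofAdd (Pi.single i (1 : ℤ) : Fin n → ℤ))⁻¹ = _
    rw [← ofAdd_neg, ← Pi.single_neg]

end raag

/-- main statement -/
theorem no_embedding {n : ℕ} {Γ : SimpleGraph (Fin n)} {R : Set (FreeGroup (Fin n))}
    (hR : R = {r | ∃ i j : Fin n, Γ.Adj i j ∧
      r = FreeGroup.of i * FreeGroup.of j * (FreeGroup.of i)⁻¹ * (FreeGroup.of j)⁻¹})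
    {C : SimpleGraph (PresentedGroup R)} (hC : ∀ g h : PresentedGroup R, C.Adj g h ↔
      (g ≠ h ∧ ∃ i : Fin n, h = g * PresentedGroup.of i ∨ g = h * PresentedGroup.of i))
    (f : BP.G x₀ ↪g C) (hf : ∀ a b c : PresentedGroup R, a ∈ Set.range f → b ∈ Set.range f →
      C.dist a c + C.dist c b = C.dist a b → c ∈ Set.range f) : False := by
  obtain ⟨ab, hab⟩ := exists_ab hR
  have hgen : ∀ l l', gen R l = gen R l' → l = l' := by
    intro l l' h
    apply vec_injective
    have := congrArg ab h
    rw [hab, hab] at this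
    exact this
  have hgen1 : ∀ l, gen R l ≠ 1 := by
    intro l h
    have h1 := congrArg ab h
    rw [hab, map_one] at h1
    have h2 : vec l = 0 := h1
    have h3 := congrFun h2 l.1
    simp only [vec, Pi.single_eq_same, Pi.zero_apply] at h3
    split_ifs at h3 <;> omega
  have hadj : ∀ g l, C.Adj g (g * gen R l) := by
    intro g l
    rw [hC]
    refine ⟨fun h => hgen1 l (mul_eq_left.1 h.symm), l.1, ?_⟩
    obtain ⟨i, b⟩ := l
    cases b with
    | true => left; simp [gen]
    | false => right; simp [gen]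
  have hadj' : ∀ g h, C.Adj g h → ∃ l, h = g * gen R l := by
    intro g h hgh
    rw [hC] at hgh
    obtain ⟨-, i, h1 | h1⟩ := hgh
    · exact ⟨(i, true), by simp [gen, h1]⟩
    · refine ⟨(i, false), ?_⟩
      simp [gen, h1]
  -- the label relation
  let LR : BP.V → BP.V → Fin n × Bool → Prop := fun x y l => f y = f x * gen R l
  have hLR : ∀ x y, (BP.G x₀).Adj x y → ∃ l, LR x y l := fun x y h =>
    hadj' _ _ (f.map_adj_iff.2 h)
  have hsq : ∀ x y z t l₁ l₂, (BP.G x₀).Adj x t → (BP.G x₀).Adj t z → x ≠ z → y ≠ t →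
      LR x y l₁ → LR y z l₂ → LR t z l₁ ∧ LR x t l₂ := by
    intro x y z t l₁ l₂ h1 h2 hxz hyt h3 h4
    obtain ⟨l₄, h5⟩ := hLR x t h1
    obtain ⟨l₃, h6⟩ := hLR t z h2
    change f y = f x * gen R l₁ at h3
    change f z = f y * gen R l₂ at h4
    change f t = f x * gen R l₄ at h5
    change f z = f t * gen R l₃ at h6
    have h7 : gen R l₁ * gen R l₂ = gen R l₄ * gen R l₃ := by
      rw [h4, h3, h5, mul_assoc, mul_assoc] at h6
      exact mul_left_cancel h6
    have h8 : vec l₁ + vec l₂ = vec l₄ + vec l₃ := by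
      have := congrArg ab h7
      rw [map_mul, map_mul, hab, hab, hab, hab] at this
      exact this
    have h9 : l₁ ≠ l₄ := by
      rintro rfl
      exact hyt (f.injective (h3.trans h5.symm))
    have h10 : l₂ ≠ (l₁.1, !l₁.2) := by
      rintro rfl
      apply hxz
      apply f.injective
      rw [h4, h3, mul_assoc]
      obtain ⟨i, b⟩ := l₁
      cases b <;> simp [gen]
    obtain ⟨rfl, rfl⟩ := vec_four h8 h9 h10
    exact ⟨h6, h5⟩
  -- transport along the second tree
  have htr : ∀ (p q : BP.m.Tree) (_ : (famGraph BP.F₁).Adj p q) (l : Fin n × Bool)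
      (v v' : BP.d.Tree), LR ((p, v), false) ((q, v), false) l →
      LR ((p, v'), false) ((q, v'), false) l := by
    intro p q hpq l v v' h
    have : Nonempty BP.d.Tree := ⟨BP.d.root⟩
    obtain ⟨w⟩ := BP.med₂.connected v v'
    induction w with
    | nil => exact h
    | @cons a b c hab' _ ih =>
      apply ih
      obtain ⟨l₂, hl₂⟩ := hLR ((q, a), false) ((q, b), false) (by
        rw [BP.G_adj]
        left
        refine ⟨rfl, rfl, ?_⟩
        rw [prodFam_adj _ _ BP.med₁.inj BP.med₂.inj]
        exact Or.inr ⟨rfl, hab'⟩)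
      refine (hsq ((p, a), false) ((q, a), false) ((q, b), false) ((p, b), false) l l₂ ?_ ?_ ?_ ?_
        h hl₂).1
      · rw [BP.G_adj]
        left
        refine ⟨rfl, rfl, ?_⟩
        rw [prodFam_adj _ _ BP.med₁.inj BP.med₂.inj]
        exact Or.inr ⟨rfl, hab'⟩
      · rw [BP.G_adj]
        left
        refine ⟨rfl, rfl, ?_⟩
        rw [prodFam_adj _ _ BP.med₁.inj BP.med₂.inj]
        exact Or.inl ⟨hpq, rfl⟩
      · intro e
        have : p = q := congrArg (fun x : BP.V => x.1.1) e
        exact hpq.ne this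
      · intro e
        have : q = p := congrArg (fun x : BP.V => x.1.1) e
        exact hpq.ne this.symm
  -- the pattern
  let N := Fintype.card ((Fin n × Bool) × (Fin n × Bool)) + 1
  obtain ⟨p, v, hp, hc, hnc⟩ := pattern N
  have hα : ∀ j : Fin N, ∃ l, LR ((p j, BP.d.root), false) ((p (j + 1), BP.d.root), false) l := by
    intro j
    apply hLR
    rw [BP.G_adj]
    left
    refine ⟨rfl, rfl, ?_⟩
    rw [prodFam_adj _ _ BP.med₁.inj BP.med₂.inj]
    exact Or.inl ⟨hp j j.2, rfl⟩
  have hβ : ∀ i : Fin N, ∃ l, LR ((p (i + 1), v i), false) ((p (i + 1), v i), true) l := by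
    intro i
    apply hLR
    rw [BP.G_adj]
    right
    right
    exact ⟨rfl, by simp⟩
  choose α hα using hα
  choose β hβ using hβ
  obtain ⟨i, j, hij, hαβ⟩ : ∃ i j : Fin N, i < j ∧ (α i, β i) = (α j, β j) := by
    have hcard : Fintype.card ((Fin n × Bool) × (Fin n × Bool)) < Fintype.card (Fin N) := by
      rw [Fintype.card_fin]
      exact Nat.lt_succ_self _
    obtain ⟨i, j, hij, h⟩ := Fintype.exists_ne_map_eq_of_card_lt (fun i => (α i, β i)) hcard
    rcases lt_or_gt_of_ne hij with h1 | h1
    · exact ⟨i, j, h1, h⟩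
    · exact ⟨j, i, h1, h.symm⟩
  have hαij : α i = α j := congrArg Prod.fst hαβ
  have hij' : (i : ℕ) < j := hij
  -- the labels of the strip along the line
  have hfin : ∀ k, (i : ℕ) + 1 + k ≤ j + 1 →
      LR ((p (i + 1 + k), v i), false) ((p (i + 1 + k), v i), true) (β i) := by
    intro k
    induction k with
    | zero => intro _; exact hβ i
    | succ k ih =>
      intro hk
      have hk1 := ih (by omega)
      have hlt : (i : ℕ) + 1 + k < N := by
        have := j.2
        omega
      have hcls := hc i (i + 1 + k) (by omega) hlt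
      have hpk := hp _ hlt
      have hM : (famGraph BP.FM).Adj (p (i + 1 + k), v i) (p (i + 1 + k + 1), v i) := by
        rw [prodFam_adj _ _ BP.med₁.inj BP.med₂.inj]
        exact Or.inl ⟨hpk, rfl⟩
      obtain ⟨l₂, hl₂⟩ := hLR ((p (i + 1 + k), v i), true) ((p (i + 1 + k + 1), v i), true) (by
        rw [BP.G_adj]
        right
        left
        exact ⟨rfl, rfl, hcls, hM⟩)
      refine (hsq _ _ _ ((p (i + 1 + k + 1), v i), false) (β i) l₂ ?_ ?_ ?_ ?_ hk1 hl₂).1
      · rw [BP.G_adj]
        left
        exact ⟨rfl, rfl, hM⟩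
      · rw [BP.G_adj]
        right
        right
        exact ⟨rfl, by simp⟩
      · intro e
        have := congrArg (fun x : BP.V => x.2) e
        simp at this
      · intro e
        have := congrArg (fun x : BP.V => x.2) e
        simp at this
  -- the square at `j`
  have hMj : (famGraph BP.FM).Adj (p j, v i) (p (j + 1), v i) := by
    rw [prodFam_adj _ _ BP.med₁.inj BP.med₂.inj]
    exact Or.inl ⟨hp j j.2, rfl⟩
  have hclsj := hc i j hij' j.2
  have h1 : LR ((p j, v i), false) ((p (j + 1), v i), false) (α j) :=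
    htr _ _ (hp j j.2) _ _ _ (hα j)
  have h2 : LR ((p (j + 1), v i), false) ((p (j + 1), v i), true) (β i) := by
    have := hfin (j - i) (by omega)
    have e : (i : ℕ) + 1 + (j - i) = j + 1 := by omega
    rwa [e] at this
  have h3 := hsq ((p j, v i), false) ((p (j + 1), v i), false) ((p (j + 1), v i), true)
    ((p j, v i), true) (α j) (β i)
    (by rw [BP.G_adj]; right; right; exact ⟨rfl, by simp⟩)
    (by rw [BP.G_adj]; right; left; exact ⟨rfl, rfl, hclsj, hMj⟩)
    (by
      intro e
      have := congrArg (fun x : BP.V => x.2) e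
      simp at this)
    (by
      intro e
      have := congrArg (fun x : BP.V => x.2) e
      simp at this) h1 h2
  have hcomm : gen R (α j) * gen R (β i) = gen R (β i) * gen R (α j) := by
    have e1 : f ((p (j + 1), v i), true) = f ((p j, v i), false) * (gen R (α j) * gen R (β i)) := by
      rw [← mul_assoc, ← h1]
      exact h2
    have e2 : f ((p (j + 1), v i), true) = f ((p j, v i), false) * (gen R (β i) * gen R (α j)) := by
      rw [← mul_assoc, ← h3.2]
      exact h3.1
    exact mul_left_cancel (e1.symm.trans e2)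
  have hne : α j ≠ β i := by
    intro e
    have e1 : f ((p (j + 1), v i), false) = f ((p j, v i), true) := by
      have e2 : f ((p (j + 1), v i), false) = f ((p j, v i), false) * gen R (α j) := h1
      have e3 : f ((p j, v i), true) = f ((p j, v i), false) * gen R (β i) := h3.2
      rw [e2, e3, e]
    have e4 := f.injective e1
    have := congrArg (fun x : BP.V => x.2) e4
    simp at this
  -- the osculation at `i`
  have g1 : f ((p (i + 1), v i), false) = f ((p i, v i), false) * gen R (α j) := by
    rw [← hαij]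
    exact htr _ _ (hp i i.2) _ _ _ (hα i)
  have g2 : f ((p (i + 1), v i), true) = f ((p (i + 1), v i), false) * gen R (β i) := hβ i
  set X := f ((p i, v i), false) with hX
  set Z := f ((p (i + 1), v i), true) with hZ
  set c := X * gen R (β i) with hcdef
  have hZc : Z = c * gen R (α j) := by
    rw [g2, g1, mul_assoc, hcomm, ← mul_assoc]
  have hXc : C.Adj X c := hadj _ _
  have hcZ : C.Adj c Z := by
    rw [hZc]
    exact hadj _ _
  have hXZne : X ≠ Z := by
    intro e
    have e4 := f.injective e
    have := congrArg (fun x : BP.V => x.2) e4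
    simp at this
  have hXZnadj : ¬ C.Adj X Z := by
    intro e
    rw [hX, hZ, f.map_adj_iff, BP.G_adj] at e
    rcases e with e | e | e
    · exact absurd e.2.1 (by simp)
    · exact absurd e.1 (by simp)
    · have : p i = p (i + 1) := congrArg Prod.fst e.1
      exact (hp i i.2).ne this
  have hreach : C.Reachable X Z := hXc.reachable.trans hcZ.reachable
  have hdist : C.dist X Z = 2 := by
    have hle : C.dist X Z ≤ 2 :=
      SimpleGraph.dist_le (SimpleGraph.Walk.cons hXc (SimpleGraph.Walk.cons hcZ
        SimpleGraph.Walk.nil))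
    have h0 : C.dist X Z ≠ 0 := by
      rw [Ne, hreach.dist_eq_zero_iff]
      exact hXZne
    have h1' : C.dist X Z ≠ 1 := by
      rw [Ne, SimpleGraph.dist_eq_one_iff_adj]
      exact hXZnadj
    omega
  obtain ⟨t, ht⟩ := hf X Z c ⟨_, rfl⟩ ⟨_, rfl⟩ (by
    rw [hdist, SimpleGraph.dist_eq_one_iff_adj.2 hXc, SimpleGraph.dist_eq_one_iff_adj.2 hcZ])
  have ht1 : (BP.G x₀).Adj ((p i, v i), false) t := by
    rw [← f.map_adj_iff, ht]
    exact hXc
  have ht2 : (BP.G x₀).Adj t ((p (i + 1), v i), true) := by
    rw [← f.map_adj_iff, ht]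
    exact hcZ
  rw [BP.G_adj] at ht1 ht2
  obtain ⟨t₁, tb⟩ := t
  dsimp only at ht1 ht2
  cases tb with
  | false =>
    rcases ht2 with e | e | e
    · exact absurd e.2.1 (by simp)
    · exact absurd e.1 (by simp)
    · rw [e.1, g1] at ht
      exact hne (hgen _ _ (mul_left_cancel ht))
  | true =>
    rcases ht1 with e | e | e
    · exact absurd e.2.1 (by simp)
    · exact absurd e.1 (by simp)
    · rcases ht2 with e' | e' | e'
      · exact absurd e'.1 (by simp)
      · have := e'.2.2.1
        rw [← e.1] at this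
        exact hnc i i.2 this
      · exact absurd e'.2 (by simp)

end BCC
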