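import Pool.Agent.Lib.MP_bcc336_al.Bell

/-!
# The pattern of crossing and osculating hyperplanes (MP_bcc336_al)
-/

set_option autoImplicit false

namespace BCC

/-- positive words -/
def emb (l : List Bool) : List (Bool × Bool) := l.map (fun x => (x, false))

theorem red_emb (l : List Bool) : BP.m.Red (emb l) := by
  unfold Mach.Red emb
  rw [List.isChain_map]
  induction l with
  | nil => exact List.isChain_nil
  | cons x l ih =>
    cases l with
    | nil => simp
    | cons y l =>
      rw [List.isChain_cons_cons]
      refine ⟨?_, ih⟩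
      intro h
      have h2 : false = true := congrArg Prod.snd h
      exact absurd h2 (by decide)

theorem act_emb (s : Fin 3) (l : List Bool) : BP.m.act s (emb l) = emb (bact s l) := by
  induction l generalizing s with
  | nil => rfl
  | cons x l ih =>
    have h1 : BP.m.π s (x, false) = (bπ s x, false) := rfl
    have h2 : BP.m.ρ s (x, false) = bρ s x := rfl
    change BP.m.π s (x, false) :: BP.m.act (BP.m.ρ s (x, false)) (emb l) = _
    rw [h1, h2, ih]
    rfl

theorem emb_append (l : List Bool) (x : Bool) : emb (l ++ [x]) = emb l ++ [(x, false)] := by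
  simp [emb]

/-- positive words as vertices of the tree -/
def embT (l : List Bool) : BP.m.Tree := ⟨emb l, red_emb l⟩

/-- the letter of the strips -/
abbrev x₀ : Bool × Bool := (false, false)

theorem hx₀ : BP.m.iA x₀ ≠ x₀ := by decide

/-- the odometer as element of the group -/
def hh : BP.GP := BP.gB 0 * BP.gB 2

theorem hh_mem : hh ∈ BP.H := mul_mem (BP.gB_mem 0) (BP.gB_mem 2)

theorem hh_embT (l : List Bool) : hh.1 (embT l) = embT (wact [0, 2] l) := by
  apply Subtype.ext
  change BP.m.act 0 (BP.m.act 2 (emb l)) = emb (bact 0 (bact 2 l))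
  rw [act_emb, act_emb]

theorem hh_pow_embT (k : ℕ) (l : List Bool) :
    (hh ^ k).1 (embT l) = embT ((wact [0, 2])^[k] l) := by
  induction k generalizing l with
  | zero => rfl
  | succ k ih =>
    rw [pow_succ]
    change (hh ^ k).1 (hh.1 (embT l)) = _
    rw [hh_embT, ih, Function.iterate_succ_apply]

theorem wact_take (t : List (Fin 3)) (l : List Bool) (j : ℕ) :
    wact t (l.take j) = (wact t l).take j := by
  induction t with
  | nil => rfl
  | cons s t ih => rw [wact, ih, bact_take, wact]

theorem iterate_wact_take (t : List (Fin 3)) (k : ℕ) (l : List Bool) (j : ℕ) :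
    (wact t)^[k] (l.take j) = ((wact t)^[k] l).take j := by
  induction k generalizing l with
  | zero => rfl
  | succ k ih => rw [Function.iterate_succ_apply, wact_take, ih, Function.iterate_succ_apply]

theorem ap_wA_emb (l : List Bool) : BP.ap (BP.wA (emb l)) BP.o = (embT l, BP.d.root) := by
  apply Prod.ext
  · exact Subtype.ext (BP.wA_fst_root _ (red_emb l))
  · exact BP.wA_snd_root _

/-- the word with one letter `true` at place `i` -/
def U (n i : ℕ) : List Bool := List.replicate i false ++ true :: List.replicate (n - 1 - i) false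

theorem length_U {n i : ℕ} (h : i < n) : (U n i).length = n := by
  simp [U]
  omega

theorem U_take_succ_of_lt {n i j : ℕ} (hi : i < j) (hj : j < n) :
    (U n i).take (j + 1) = (U n i).take j ++ [false] := by
  have hl : j < (U n i).length := by
    rw [length_U (hi.trans hj)]
    exact hj
  rw [List.take_succ_eq_append_getElem hl]
  congr 2
  unfold U
  rw [List.getElem_append_right (by simp; omega)]
  simp only [List.length_replicate]
  rw [List.getElem_cons]
  split_ifs with h
  · omega
  · simp

theorem U_take_succ_self {n i : ℕ} (hi : i < n) :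
    (U n i).take (i + 1) = (U n i).take i ++ [true] := by
  have hl : i < (U n i).length := by
    rw [length_U hi]
    exact hi
  rw [List.take_succ_eq_append_getElem hl]
  congr 2
  unfold U
  rw [List.getElem_append_right (by simp)]
  simp

theorem exists_level {n i : ℕ} (hi : i < n) : ∃ g : BP.H, ∀ j, j ≤ n →
    g.1.1 (embT ((U n i).take j)) = embT (List.replicate j false) := by
  obtain ⟨k, hk⟩ := odometer n [0, 2] (by decide) (by decide) (U n i) (List.replicate n false)
    (length_U hi) (by simp)
  refine ⟨⟨hh ^ k, pow_mem hh_mem k⟩, fun j hj => ?_⟩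
  change (hh ^ k).1 _ = _
  rw [hh_pow_embT, iterate_wact_take, hk, List.take_replicate, min_eq_left hj]

theorem el_level {n i : ℕ} {g : BP.H}
    (hg : ∀ j, j ≤ n → g.1.1 (embT ((U n i).take j)) = embT (List.replicate j false)) {j : ℕ}
    (hj : j ≤ n) : BP.el (embT (List.replicate j false), g.1.2 BP.d.root) =
      g * ⟨BP.wA (emb ((U n i).take j)), BP.wA_mem _⟩ := by
  apply BP.el_eq
  change BP.ap (g.1 * BP.wA (emb ((U n i).take j))) BP.o = _
  rw [BP.ap_mul, ap_wA_emb]
  apply Prod.ext
  · exact hg j hj
  · rfl

theorem pattern (n : ℕ) : ∃ (p : ℕ → BP.m.Tree) (v : ℕ → BP.d.Tree),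
    (∀ j, j < n → (famGraph BP.F₁).Adj (p j) (p (j + 1))) ∧
    (∀ i j, i < j → j < n → BP.cls x₀ (p j, v i) = BP.cls x₀ (p (j + 1), v i)) ∧
    (∀ i, i < n → BP.cls x₀ (p i, v i) ≠ BP.cls x₀ (p (i + 1), v i)) := by
  have hch : ∀ i, ∃ g : BP.H, i < n → ∀ j, j ≤ n →
      g.1.1 (embT ((U n i).take j)) = embT (List.replicate j false) := by
    intro i
    by_cases hi : i < n
    · obtain ⟨g, hg⟩ := exists_level hi
      exact ⟨g, fun _ => hg⟩
    · exact ⟨1, fun h => absurd h hi⟩
  choose g hg using hch
  refine ⟨fun j => embT (List.replicate j false), fun i => (g i).1.2 BP.d.root, ?_, ?_, ?_⟩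
  · intro j _
    rw [wordFam_adj BP.m.red_of_prefix]
    left
    refine ⟨(false, false), ?_⟩
    change emb (List.replicate (j + 1) false) = emb (List.replicate j false) ++ _
    rw [List.replicate_succ', emb_append]
  · intro i j hij hj
    rw [BP.cls_eq_iff]
    refine ⟨1, ?_⟩
    rw [el_level (hg i (hij.trans hj)) hj.le, el_level (hg i (hij.trans hj)) (Nat.succ_le_of_lt hj),
      mul_assoc, zpow_one]
    congr 1
    apply Subtype.ext
    change BP.wA _ = BP.wA _ * BP.gA x₀
    rw [U_take_succ_of_lt hij hj, emb_append, Pair.wA, Pair.wA, List.map_append, List.prod_append]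
    simp
  · intro i hi
    rw [Ne, BP.cls_eq_iff]
    rintro ⟨k, hk⟩
    rw [el_level (hg i hi) hi.le, el_level (hg i hi) (Nat.succ_le_of_lt hi), mul_assoc,
      mul_right_inj] at hk
    have h1 : BP.wA (emb ((U n i).take (i + 1))) = BP.wA (emb ((U n i).take i)) *
        BP.gA (true, false) := by
      rw [U_take_succ_self hi, emb_append, Pair.wA, Pair.wA, List.map_append, List.prod_append]
      simp
    have h2 : BP.gA (true, false) = ((BP.f0 x₀) ^ k).1 := by
      have := congrArg Subtype.val hk
      change BP.wA (emb ((U n i).take (i + 1))) = BP.wA (emb ((U n i).take i)) * _ at this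
      rw [h1] at this
      exact mul_left_cancel this
    have h3 : BP.ap (BP.gA (true, false)) BP.o = (⟨[(true, false)], by simp [Mach.Red]⟩,
        BP.d.root) := rfl
    rcases BP.f0_zpow_o hx₀ k with ⟨m, hm⟩ | ⟨m, hm⟩
    · rw [← h2, h3] at hm
      have h4 : [((true, false) : Bool × Bool)] = List.replicate m x₀ :=
        congrArg (fun p : BP.M => p.1.1) hm
      have h5 : ((true, false) : Bool × Bool) ∈ List.replicate m x₀ := by
        rw [← h4]
        simp
      rw [List.mem_replicate] at h5
      exact absurd h5.2 (by decide)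
    · rw [← h2, h3] at hm
      have h4 : [((true, false) : Bool × Bool)] = List.replicate m (BP.m.iA x₀) :=
        congrArg (fun p : BP.M => p.1.1) hm
      have h5 : ((true, false) : Bool × Bool) ∈ List.replicate m (BP.m.iA x₀) := by
        rw [← h4]
        simp
      rw [List.mem_replicate] at h5
      exact absurd h5.2 (by decide)

end BCC
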