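import Pool.Agent.Lib.MP_bcc336_al.Dst

/-!
Attaching pendant vertices to a tree gives a tree.
-/

set_option autoImplicit false

namespace Pool.Agent.MPbcc336

open Classical in
/-- The distance of the graph with pendant vertices. -/
private noncomputable def pendD {V P : Type} (G : SimpleGraph V) (b : P → V) :
    V ⊕ P → V ⊕ P → ℕ
  | .inl v, .inl w => G.dist v w
  | .inl v, .inr p => G.dist v (b p) + 1
  | .inr p, .inl v => G.dist (b p) v + 1
  | .inr p, .inr q => if p = q then 0 else G.dist (b p) (b q) + 2

private theorem pend_next {V : Type} {G : SimpleGraph V} (hc : G.Connected) {v w : V}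
    (hne : v ≠ w) : ∃ y, G.Adj v y ∧ G.dist y w + 1 = G.dist v w := by
  obtain ⟨p, hp⟩ := hc.exists_walk_length_eq_dist v w
  cases p with
  | nil => exact (hne rfl).elim
  | @cons _ y _ hadj q =>
    refine ⟨y, hadj, ?_⟩
    rw [SimpleGraph.Walk.length_cons] at hp
    have h1 : G.dist y w ≤ q.length := SimpleGraph.dist_le q
    have h2 : G.dist v w ≤ G.dist v y + G.dist y w := hc.dist_triangle
    have h3 : G.dist v y = 1 := SimpleGraph.dist_eq_one_iff_adj.2 hadj
    omega

private theorem pend_dist {V P : Type} {G : SimpleGraph V} (hc : G.Connected) (b : P → V) :
    (pend G b).Connected ∧ ∀ x y, (pend G b).dist x y = pendD G b x y := by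
  classical
  have : Nonempty V := hc.nonempty
  have : Nonempty (V ⊕ P) := ⟨Sum.inl (Classical.arbitrary V)⟩
  refine dist_of (pendD G b) ?_ ?_ ?_
  · rintro (v | p)
    · simp [pendD]
    · simp [pendD]
  · rintro (v | p) (w | q) z hadj
    · have h1 : G.dist v w = 1 := SimpleGraph.dist_eq_one_iff_adj.2 hadj
      rcases z with u | r
      · have h2 : G.dist v u ≤ G.dist v w + G.dist w u := hc.dist_triangle
        simp only [pendD]
        omega
      · have h2 : G.dist v (b r) ≤ G.dist v w + G.dist w (b r) := hc.dist_triangle
        simp only [pendD]
        omega
    · have h1 : b q = v := hadj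
      subst h1
      rcases z with u | r
      · simp only [pendD]
        omega
      · simp only [pendD]
        split_ifs with h2
        · subst h2
          simp
        · omega
    · have h1 : b p = w := hadj
      subst h1
      rcases z with u | r
      · simp only [pendD]
        omega
      · simp only [pendD]
        split_ifs with h2
        · omega
        · omega
    · exact (hadj : False).elim
  · rintro (v | p) (w | q) hne
    · have h1 : v ≠ w := fun h => hne (by rw [h])
      obtain ⟨y, hy, hyd⟩ := pend_next hc h1
      exact ⟨Sum.inl y, hy, hyd⟩
    · by_cases h1 : v = b q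
      · refine ⟨Sum.inr q, h1.symm, ?_⟩
        subst h1
        simp [pendD]
      · obtain ⟨y, hy, hyd⟩ := pend_next hc h1
        refine ⟨Sum.inl y, hy, ?_⟩
        simp only [pendD]
        omega
    · exact ⟨Sum.inl (b p), rfl, rfl⟩
    · have h1 : p ≠ q := fun h => hne (by rw [h])
      refine ⟨Sum.inl (b p), rfl, ?_⟩
      simp only [pendD, if_neg h1]

theorem TL.pend {V P : Type} {G : SimpleGraph V} (h : TL G) (b : P → V) :
    TL (Pool.Agent.MPbcc336.pend G b) := by
  classical
  obtain ⟨hcon, hdist⟩ := pend_dist h.conn b
  refine ⟨hcon, ?_, ?_⟩
  · rintro u (v | p) (w | q) hadj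
    · rw [hdist, hdist]
      rcases u with a | r
      · exact h.ne a v w hadj
      · have h1 := h.ne (b r) v w hadj
        simp only [pendD]
        omega
    · have h1 : b q = v := hadj
      subst h1
      rw [hdist, hdist]
      rcases u with a | r
      · simp only [pendD]
        omega
      · simp only [pendD]
        split_ifs with h2
        · omega
        · omega
    · have h1 : b p = w := hadj
      subst h1
      rw [hdist, hdist]
      rcases u with a | r
      · simp only [pendD]
        omega
      · simp only [pendD]
        split_ifs with h2
        · omega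
        · omega
    · exact (hadj : False).elim
  · rintro u (v | p) w w' hw hw' hd hd'
    · rw [hdist, hdist] at hd hd'
      have key : ∀ (z : V ⊕ P) (q : P), b q = v →
          pendD G b u (Sum.inr q) < pendD G b u (Sum.inl v) →
          (Pool.Agent.MPbcc336.pend G b).Adj (Sum.inl v) z →
          pendD G b u z < pendD G b u (Sum.inl v) → z = Sum.inr q := by
        intro z q hq h1 hz h2
        subst hq
        rcases u with a | r
        · simp only [pendD] at h1
          omega
        · simp only [pendD] at h1
          split_ifs at h1 with h3
          · subst h3
            rcases z with y | q'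
            · simp only [pendD, SimpleGraph.dist_self] at h2
              omega
            · simp only [pendD, SimpleGraph.dist_self] at h2
              split_ifs at h2 with h4
              · rw [h4]
              · omega
          · omega
      rcases w with x | q
      · rcases w' with x' | q'
        · rcases u with a | r
          · simp only [pendD] at hd hd'
            rw [h.uniq a v x x' hw hw' hd hd']
          · simp only [pendD] at hd hd'
            rw [h.uniq (b r) v x x' hw hw' (by omega) (by omega)]
        · exact key _ q' hw' hd' hw hd
      · exact (key _ q hw hd hw' hd').symm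
    · have h1 : ∀ z, (Pool.Agent.MPbcc336.pend G b).Adj (Sum.inr p) z → z = Sum.inl (b p) := by
        rintro (y | q) hz
        · have h2 : b p = y := hz
          rw [h2]
        · exact (hz : False).elim
      rw [h1 w hw, h1 w' hw']

end Pool.Agent.MPbcc336
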