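import Pool.Agent.Lib.MP_bcc336_al.Base

/-!
Two algebraic facts on right-angled Artin groups.
-/

set_option autoImplicit false

namespace Pool.Agent.MPbcc336

theorem raag_ab {n : ℕ} (Γ : SimpleGraph (Fin n)) :
    ∃ χ : PresentedGroup (raagRels Γ) →* Multiplicative (Fin n → ℤ),
      ∀ i, χ (PresentedGroup.of i) = Multiplicative.ofAdd (Pi.single i 1) := by
  have h : ∀ r ∈ raagRels Γ, FreeGroup.lift
      (fun i : Fin n => Multiplicative.ofAdd (Pi.single i 1 : Fin n → ℤ)) r = 1 := by
    rintro r ⟨i, j, _, rfl⟩
    simp only [map_mul, map_inv, FreeGroup.lift_apply_of]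
    rw [mul_inv_eq_one, mul_inv_eq_iff_eq_mul, mul_comm]
  exact ⟨PresentedGroup.toGroup h, fun i => PresentedGroup.toGroup.of h⟩

theorem raag_comm {n : ℕ} (Γ : SimpleGraph (Fin n)) {i j : Fin n} (hij : i ≠ j) :
    Commute (PresentedGroup.of i : PresentedGroup (raagRels Γ)) (PresentedGroup.of j) ↔
      Γ.Adj i j := by
  constructor
  · intro hc
    by_contra hn
    have h : ∀ r ∈ raagRels Γ, FreeGroup.lift
        (fun k : Fin n => if k = i then (Equiv.swap 0 1 : Equiv.Perm (Fin 3)) else
          if k = j then Equiv.swap 1 2 else 1) r = 1 := by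
      rintro r ⟨k, l, hkl, rfl⟩
      simp only [map_mul, map_inv, FreeGroup.lift_apply_of]
      have hkl' := hkl.ne
      by_cases h1 : k = i
      · subst h1
        have h2 : l ≠ j := by
          rintro rfl
          exact hn hkl
        simp [h2, hkl'.symm]
      · by_cases h2 : k = j
        · subst h2
          have h3 : l ≠ i := by
            rintro rfl
            exact hn hkl.symm
          simp [h3, hkl'.symm]
        · simp [h1, h2]
    have h3 := congrArg (PresentedGroup.toGroup h) hc.eq
    rw [map_mul, map_mul, PresentedGroup.toGroup.of, PresentedGroup.toGroup.of] at h3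
    simp only [if_true, if_neg hij.symm] at h3
    revert h3
    decide
  · intro h
    have h1 : (PresentedGroup.mk (raagRels Γ) (FreeGroup.of i * FreeGroup.of j *
        (FreeGroup.of i)⁻¹ * (FreeGroup.of j)⁻¹)) = 1 :=
      PresentedGroup.one_of_mem ⟨i, j, h, rfl⟩
    simp only [map_mul, map_inv] at h1
    rw [mul_inv_eq_one, mul_inv_eq_iff_eq_mul] at h1
    exact h1

end Pool.Agent.MPbcc336
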