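import Pool.Agent.Lib.MP_bcc336_al.Base

/-!
The square structure of the quaternion lattice for the primes 3 and 5: for a letter `r` of the second
tree and a letter `s` of the first tree, `r * s = s' * r'` with `s' = out1 r s` and `r' = nxt1 r s`.
-/

set_option autoImplicit false

namespace Pool.Agent.MPbcc336

/-- The letter `s'` of the square `r * s = s' * r'`. -/
def out1 : Fin 3 × Bool → Fin 2 × Bool → Fin 2 × Bool
  | (0, true), (0, true) => (1, true)
  | (0, true), (0, false) => (1, false)
  | (0, true), (1, true) => (0, false)
  | (0, true), (1, false) => (0, true)
  | (0, false), (0, true) => (1, false)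
  | (0, false), (0, false) => (1, true)
  | (0, false), (1, true) => (0, true)
  | (0, false), (1, false) => (0, false)
  | (1, true), (0, true) => (1, false)
  | (1, true), (0, false) => (0, true)
  | (1, true), (1, true) => (0, false)
  | (1, true), (1, false) => (1, true)
  | (1, false), (0, true) => (0, false)
  | (1, false), (0, false) => (1, true)
  | (1, false), (1, true) => (1, false)
  | (1, false), (1, false) => (0, true)
  | (2, true), (0, true) => (1, true)
  | (2, true), (0, false) => (0, true)
  | (2, true), (1, true) => (1, false)
  | (2, true), (1, false) => (0, false)
  | (2, false), (0, true) => (0, false)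
  | (2, false), (0, false) => (1, false)
  | (2, false), (1, true) => (0, true)
  | (2, false), (1, false) => (1, true)

/-- The letter `r'` of the square `r * s = s' * r'`. -/
def nxt1 : Fin 3 × Bool → Fin 2 × Bool → Fin 3 × Bool
  | (0, true), (0, true) => (2, false)
  | (0, true), (0, false) => (2, true)
  | (0, true), (1, true) => (1, false)
  | (0, true), (1, false) => (1, true)
  | (0, false), (0, true) => (1, false)
  | (0, false), (0, false) => (1, true)
  | (0, false), (1, true) => (2, true)
  | (0, false), (1, false) => (2, false)
  | (1, true), (0, true) => (0, false)
  | (1, true), (0, false) => (2, false)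
  | (1, true), (1, true) => (0, true)
  | (1, true), (1, false) => (2, true)
  | (1, false), (0, true) => (2, true)
  | (1, false), (0, false) => (0, false)
  | (1, false), (1, true) => (2, false)
  | (1, false), (1, false) => (0, true)
  | (2, true), (0, true) => (0, true)
  | (2, true), (0, false) => (1, false)
  | (2, true), (1, true) => (1, true)
  | (2, true), (1, false) => (0, false)
  | (2, false), (0, true) => (1, true)
  | (2, false), (0, false) => (0, true)
  | (2, false), (1, true) => (0, false)
  | (2, false), (1, false) => (1, false)

/-- The letter `r` of the square `s' * r' = r * s`. -/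
def out2 : Fin 2 × Bool → Fin 3 × Bool → Fin 3 × Bool
  | (0, true), (0, true) => (1, false)
  | (0, true), (0, false) => (2, false)
  | (0, true), (1, true) => (0, true)
  | (0, true), (1, false) => (2, true)
  | (0, true), (2, true) => (0, false)
  | (0, true), (2, false) => (1, true)
  | (0, false), (0, true) => (1, true)
  | (0, false), (0, false) => (2, true)
  | (0, false), (1, true) => (2, false)
  | (0, false), (1, false) => (0, true)
  | (0, false), (2, true) => (1, false)
  | (0, false), (2, false) => (0, false)
  | (1, true), (0, true) => (2, true)
  | (1, true), (0, false) => (1, false)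
  | (1, true), (1, true) => (0, false)
  | (1, true), (1, false) => (2, false)
  | (1, true), (2, true) => (1, true)
  | (1, true), (2, false) => (0, true)
  | (1, false), (0, true) => (2, false)
  | (1, false), (0, false) => (1, true)
  | (1, false), (1, true) => (2, true)
  | (1, false), (1, false) => (0, false)
  | (1, false), (2, true) => (0, true)
  | (1, false), (2, false) => (1, false)

/-- The letter `s` of the square `s' * r' = r * s`. -/
def nxt2 : Fin 2 × Bool → Fin 3 × Bool → Fin 2 × Bool
  | (0, true), (0, true) => (1, false)
  | (0, true), (0, false) => (1, true)
  | (0, true), (1, true) => (1, false)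
  | (0, true), (1, false) => (0, false)
  | (0, true), (2, true) => (1, true)
  | (0, true), (2, false) => (0, false)
  | (0, false), (0, true) => (1, true)
  | (0, false), (0, false) => (1, false)
  | (0, false), (1, true) => (0, true)
  | (0, false), (1, false) => (1, true)
  | (0, false), (2, true) => (0, true)
  | (0, false), (2, false) => (1, false)
  | (1, true), (0, true) => (0, true)
  | (1, true), (0, false) => (0, false)
  | (1, true), (1, true) => (0, false)
  | (1, true), (1, false) => (1, false)
  | (1, true), (2, true) => (1, false)
  | (1, true), (2, false) => (0, true)
  | (1, false), (0, true) => (0, false)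
  | (1, false), (0, false) => (0, true)
  | (1, false), (1, true) => (1, true)
  | (1, false), (1, false) => (0, true)
  | (1, false), (2, true) => (0, false)
  | (1, false), (2, false) => (1, true)

/-- The automaton acting on the first tree. -/
def A1 : Auto (Fin 2) (Fin 3 × Bool) where
  out := out1
  nxt := nxt1
  bar := iv
  bar_bar := by decide
  out_iv := by decide
  nxt_iv := by decide
  out_bar := by decide
  nxt_bar := by decide

/-- The automaton acting on the second tree. -/
def A2 : Auto (Fin 3) (Fin 2 × Bool) where
  out := out2
  nxt := nxt2
  bar := iv
  bar_bar := by decide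
  out_iv := by decide
  nxt_iv := by decide
  out_bar := by decide
  nxt_bar := by decide

theorem sw : ∀ r s, A2.out (A1.out r s) (A1.nxt r s) = r ∧ A2.nxt (A1.out r s) (A1.nxt r s) = s := by
  decide

theorem sw' : ∀ s r, A1.out (A2.out s r) (A2.nxt s r) = s ∧ A1.nxt (A2.out s r) (A2.nxt s r) = r := by
  decide

end Pool.Agent.MPbcc336
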