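import Pool.Agent.Lib.MP_bcc336_al.Base

/-!
Trees are median graphs.
-/

set_option autoImplicit false

namespace Pool.Agent.MPbcc336

theorem TL.med {V : Type} {G : SimpleGraph V} (h : TL G) : Med G := by
  sorry

end Pool.Agent.MPbcc336
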