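import Pool.Agent.Lib.MP_bcc336_al.MedFam

/-!
# The tree of words (MP_bcc336_al)
-/

set_option autoImplicit false

namespace BCC

open Finset

section words

variable {α : Type*} [DecidableEq α]

/-- The set of nonempty prefixes of a word. -/
def pre (w : List α) : Finset (List α) := (w.inits.toFinset).erase []

theorem mem_pre {u w : List α} : u ∈ pre w ↔ u ≠ [] ∧ u <+: w := by
  unfold pre
  rw [Finset.mem_erase, List.mem_toFinset, List.mem_inits]

theorem prefix_of_pre_subset {u w : List α} (h : ∀ v, v ∈ pre u → v ∈ pre w) : u <+: w := by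
  by_cases hu : u = []
  · rw [hu]
    exact List.nil_prefix
  · exact (mem_pre.1 (h u (mem_pre.2 ⟨hu, List.prefix_rfl⟩))).2

theorem prefix_antisymm {u w : List α} (h1 : u <+: w) (h2 : w <+: u) : u = w :=
  h1.eq_of_length (le_antisymm h1.length_le h2.length_le)

theorem pre_injective : Function.Injective (pre : List α → Finset (List α)) := by
  intro u w h
  apply prefix_antisymm
  · apply prefix_of_pre_subset
    intro v hv
    rwa [← h]
  · apply prefix_of_pre_subset
    intro v hv
    rwa [h]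

theorem mem_pre_append {w v : List α} {a : α} :
    v ∈ pre (w ++ [a]) ↔ v = w ++ [a] ∨ v ∈ pre w := by
  rw [mem_pre, mem_pre, List.prefix_concat_iff]
  constructor
  · rintro ⟨h, rfl | h'⟩
    · exact Or.inl rfl
    · exact Or.inr ⟨h, h'⟩
  · rintro (rfl | ⟨h, h'⟩)
    · exact ⟨by simp, Or.inl rfl⟩
    · exact ⟨h, Or.inr h'⟩

theorem notMem_pre_append (w : List α) (a : α) : w ++ [a] ∉ pre w := by
  intro h
  have := (mem_pre.1 h).2.length_le
  simp at this

theorem symmDiff_pre_append (w : List α) (a : α) :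
    symmDiff (pre w) (pre (w ++ [a])) = {w ++ [a]} := by
  ext v
  rw [Finset.mem_symmDiff, mem_pre_append, Finset.mem_singleton]
  constructor
  · rintro (⟨h1, h2⟩ | ⟨h1, h2⟩)
    · exact absurd (Or.inr h1) h2
    · exact h1.resolve_right h2
  · rintro rfl
    exact Or.inr ⟨Or.inl rfl, notMem_pre_append w a⟩

/-- Two different words: one step from `x` towards `y`. -/
theorem exists_step {x y : List α} (h : x ≠ y) :
    ∃ z, (z <+: x ∨ z <+: y) ∧ ((∃ a, z = x ++ [a]) ∨ ∃ a, x = z ++ [a]) ∧
      ∃ w ∈ symmDiff (pre x) (pre y), pre z = symmDiff (pre x) {w} := by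
  by_cases hxy : x <+: y
  · obtain ⟨t, rfl⟩ := hxy
    cases t with
    | nil => simp at h
    | cons a t =>
      refine ⟨x ++ [a], Or.inr ⟨t, by simp⟩, Or.inl ⟨a, rfl⟩, x ++ [a], ?_, ?_⟩
      · rw [Finset.mem_symmDiff]
        right
        refine ⟨mem_pre.2 ⟨by simp, ⟨t, by simp⟩⟩, notMem_pre_append x a⟩
      · rw [← symmDiff_pre_append, ← symmDiff_assoc, symmDiff_self, bot_symmDiff]
  · have hx : x ≠ [] := by
      rintro rfl
      exact hxy List.nil_prefix
    obtain ⟨z, a, rfl⟩ : ∃ z a, x = z ++ [a] := ⟨x.dropLast, x.getLast hx,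
      (List.dropLast_append_getLast hx).symm⟩
    refine ⟨z, Or.inl ⟨[a], rfl⟩, Or.inr ⟨a, rfl⟩, z ++ [a], ?_, ?_⟩
    · rw [Finset.mem_symmDiff]
      left
      exact ⟨mem_pre.2 ⟨by simp, List.prefix_rfl⟩, fun h' => hxy (mem_pre.1 h').2⟩
    · rw [← symmDiff_pre_append, symmDiff_comm (pre z), ← symmDiff_assoc, symmDiff_self,
        bot_symmDiff]

variable (P : List α → Prop)

/-- The family of the words with property `P`. -/
def wordFam : {w : List α // P w} → Finset (List α) := fun w => pre w.1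

variable {P}

theorem wordFam_medFam (hP : ∀ u w : List α, u <+: w → P w → P u) : MedFam (wordFam P) where
  inj := by
    rintro ⟨u, hu⟩ ⟨w, hw⟩ h
    exact Subtype.ext (pre_injective h)
  step := by
    rintro ⟨x, hx⟩ ⟨y, hy⟩ h
    have h' : x ≠ y := fun e => h (Subtype.ext e)
    obtain ⟨z, hz, -, w, hw, hzw⟩ := exists_step h'
    refine ⟨⟨z, ?_⟩, w, hw, hzw⟩
    rcases hz with hz | hz
    · exact hP z x hz hx
    · exact hP z y hz hy
  maj := by
    classical
    rintro ⟨x, hx⟩ ⟨y, hy⟩ ⟨z, hz⟩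
    -- common prefixes of two of the three words
    let Q : List α → Prop := fun u => (u <+: x ∧ u <+: y) ∨ (u <+: y ∧ u <+: z) ∨ (u <+: x ∧ u <+: z)
    have hQlen : ∀ u, Q u → u.length ≤ x.length + y.length := by
      rintro u (h | h | h)
      · have := h.1.length_le
        omega
      · have := h.1.length_le
        omega
      · have := h.1.length_le
        omega
    obtain ⟨m, hm, hmax⟩ : ∃ m, Q m ∧ ∀ u, Q u → u.length ≤ m.length := by
      have h0 : ∃ n, ∃ u, Q u ∧ u.length = n :=
        ⟨0, [], Or.inl ⟨List.nil_prefix, List.nil_prefix⟩, rfl⟩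
      have hb : ∀ n, (∃ u, Q u ∧ u.length = n) → n ≤ x.length + y.length := by
        rintro n ⟨u, hu, rfl⟩
        exact hQlen u hu
      obtain ⟨u, hu, hul⟩ := Nat.findGreatest_spec (P := fun n => ∃ u, Q u ∧ u.length = n)
        (hb _ h0.choose_spec) h0.choose_spec
      refine ⟨u, hu, fun v hv => ?_⟩
      rw [hul]
      exact Nat.le_findGreatest (hQlen v hv) ⟨v, hv, rfl⟩
    have hPm : P m := by
      rcases hm with h | h | h
      · exact hP m x h.1 hx
      · exact hP m y h.1 hy
      · exact hP m x h.1 hx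
    refine ⟨⟨m, hPm⟩, fun w => ?_⟩
    change w ∈ pre m ↔ (w ∈ pre x ∧ w ∈ pre y) ∨ (w ∈ pre y ∧ w ∈ pre z) ∨ (w ∈ pre x ∧ w ∈ pre z)
    simp only [mem_pre]
    constructor
    · rintro ⟨h1, h2⟩
      rcases hm with h | h | h
      · exact Or.inl ⟨⟨h1, h2.trans h.1⟩, h1, h2.trans h.2⟩
      · exact Or.inr (Or.inl ⟨⟨h1, h2.trans h.1⟩, h1, h2.trans h.2⟩)
      · exact Or.inr (Or.inr ⟨⟨h1, h2.trans h.1⟩, h1, h2.trans h.2⟩)
    · intro h
      have hw0 : w ≠ [] := by
        rcases h with h | h | h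
        · exact h.1.1
        · exact h.1.1
        · exact h.1.1
      have hQw : Q w := by
        rcases h with h | h | h
        · exact Or.inl ⟨h.1.2, h.2.2⟩
        · exact Or.inr (Or.inl ⟨h.1.2, h.2.2⟩)
        · exact Or.inr (Or.inr ⟨h.1.2, h.2.2⟩)
      refine ⟨hw0, ?_⟩
      have hlen := hmax w hQw
      have key : ∀ v : List α, w <+: v → m <+: v → w <+: m := fun v h1 h2 =>
        List.prefix_of_prefix_length_le h1 h2 hlen
      rcases hQw with ⟨a, b⟩ | ⟨a, b⟩ | ⟨a, b⟩ <;> rcases hm with ⟨c, d⟩ | ⟨c, d⟩ | ⟨c, d⟩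
      · exact key x a c
      · exact key y b c
      · exact key x a c
      · exact key y a d
      · exact key y a c
      · exact key z b d
      · exact key x a c
      · exact key z b d
      · exact key x a c

theorem wordFam_adj (hP : ∀ u w : List α, u <+: w → P w → P u) (x y : {w : List α // P w}) :
    (famGraph (wordFam P)).Adj x y ↔ (∃ a, y.1 = x.1 ++ [a]) ∨ ∃ a, x.1 = y.1 ++ [a] := by
  rw [famGraph_adj]
  change (symmDiff (pre x.1) (pre y.1)).card = 1 ↔ _
  constructor
  · intro h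
    have hxy : x.1 ≠ y.1 := by
      intro e
      rw [e] at h
      simp at h
    obtain ⟨z, hz, hzx, w, hw, hzw⟩ := exists_step hxy
    have h1 : symmDiff (pre x.1) (pre y.1) = {w} := by
      rw [Finset.card_eq_one] at h
      obtain ⟨v, hv⟩ := h
      rw [hv, Finset.mem_singleton] at hw
      rw [hv, hw]
    have h2 : pre z = pre y.1 := by
      rw [hzw, ← h1, ← symmDiff_assoc, symmDiff_self, bot_symmDiff]
    have h3 := pre_injective h2
    rw [h3] at hzx
    exact hzx
  · rintro (⟨a, ha⟩ | ⟨a, ha⟩)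
    · rw [ha, symmDiff_pre_append, Finset.card_singleton]
    · rw [ha, symmDiff_comm, symmDiff_pre_append, Finset.card_singleton]

end words

end BCC
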