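import Pool.Agent.Lib.MP_bcc336_al.Dst
import Pool.Agent.Lib.MP_bcc336_al.Pend

/-!
The decorated product is an isometric subgraph of the product.
-/

set_option autoImplicit false

namespace Pool.Agent.MPbcc336

private theorem XDist_step {V : Type} {K : SimpleGraph V} (hc : K.Connected) {u u' : V}
    (h : u ≠ u') : ∃ u1, K.Adj u u1 ∧ K.dist u1 u' + 1 = K.dist u u' := by
  obtain ⟨p, hp⟩ := hc.exists_walk_length_eq_dist u u'
  cases p with
  | nil => exact absurd rfl h
  | @cons _ u1 _ hadj q =>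
    refine ⟨u1, hadj, ?_⟩
    rw [SimpleGraph.Walk.length_cons] at hp
    have h1 : K.dist u1 u' ≤ q.length := SimpleGraph.dist_le q
    have h2 : K.dist u u' ≤ K.dist u u1 + K.dist u1 u' := hc.dist_triangle
    have h3 : K.dist u u1 = 1 := SimpleGraph.dist_eq_one_iff_adj.2 hadj
    omega

private theorem XDist_leaf {V P : Type} {G : SimpleGraph V} {b : P → V}
    (hc : (pend G b).Connected) {u u' : V ⊕ P} {a : P} (hadj : (pend G b).Adj u (Sum.inr a))
    (hd : (pend G b).dist (Sum.inr a) u' + 1 = (pend G b).dist u u') :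
    u' = Sum.inr a ∧ u = Sum.inl (b a) := by
  have hu : ∀ w : V ⊕ P, (pend G b).Adj w (Sum.inr a) → w = Sum.inl (b a) := by
    rintro (v | c) hw
    · have h1 : b a = v := hw
      rw [h1]
    · exact absurd hw (fun h => h)
  refine ⟨?_, hu u hadj⟩
  by_contra hne
  obtain ⟨w, hw, hwd⟩ := XDist_step hc (u := Sum.inr a) (u' := u') (fun h => hne h.symm)
  rw [hu w hw.symm, ← hu u hadj] at hwd
  omega

theorem XG_dist {V P V' P' : Type} {G : SimpleGraph V} {G' : SimpleGraph V'} (h : TL G)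
    (h' : TL G') (b : P → V) (b' : P' → V') (M : P → P' → Prop) :
    (XG G b G' b' M).Connected ∧ ∀ p q : XS (V := V) (V' := V') M,
      (XG G b G' b' M).dist p q =
        (pend G b).dist p.1.1 q.1.1 + (pend G' b').dist p.1.2 q.1.2 := by
  have hc : (pend G b).Connected := (h.pend b).conn
  have hc' : (pend G' b').Connected := (h'.pend b').conn
  have hne : Nonempty (XS (V := V) (V' := V') M) := by
    obtain ⟨v⟩ := h.conn.nonempty
    obtain ⟨v'⟩ := h'.conn.nonempty
    exact ⟨⟨(Sum.inl v, Sum.inl v'), fun p p' h1 _ => absurd h1 (by simp)⟩⟩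
  have hadj : ∀ x y : XS (V := V) (V' := V') M, (XG G b G' b' M).Adj x y ↔
      ((pend G b).Adj x.1.1 y.1.1 ∧ x.1.2 = y.1.2) ∨
        ((pend G' b').Adj x.1.2 y.1.2 ∧ x.1.1 = y.1.1) := by
    intro x y
    exact SimpleGraph.boxProd_adj
  refine dist_of (G := XG G b G' b' M) (fun p q : XS (V := V) (V' := V') M =>
    (pend G b).dist p.1.1 q.1.1 + (pend G' b').dist p.1.2 q.1.2) ?_ ?_ ?_
  · intro x
    simp
  · intro x y z hxy
    rcases (hadj x y).1 hxy with ⟨h1, h2⟩ | ⟨h1, h2⟩
    · have h3 : (pend G b).dist x.1.1 z.1.1 ≤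
          (pend G b).dist x.1.1 y.1.1 + (pend G b).dist y.1.1 z.1.1 := hc.dist_triangle
      have h4 : (pend G b).dist x.1.1 y.1.1 = 1 := SimpleGraph.dist_eq_one_iff_adj.2 h1
      rw [h2]
      omega
    · have h3 : (pend G' b').dist x.1.2 z.1.2 ≤
          (pend G' b').dist x.1.2 y.1.2 + (pend G' b').dist y.1.2 z.1.2 := hc'.dist_triangle
      have h4 : (pend G' b').dist x.1.2 y.1.2 = 1 := SimpleGraph.dist_eq_one_iff_adj.2 h1
      rw [h2]
      omega
  · rintro ⟨⟨u, v⟩, hp⟩ ⟨⟨u', v'⟩, hq⟩ hne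
    dsimp only
    by_cases hA : u = u'
    · subst hA
      have hB : v ≠ v' := by
        rintro rfl
        exact hne rfl
      obtain ⟨v1, hv1, hd⟩ := XDist_step hc' hB
      by_cases hm : ((u, v1) : (V ⊕ P) × (V' ⊕ P')) ∈ XS (V := V) (V' := V') M
      · refine ⟨⟨(u, v1), hm⟩, (hadj _ _).2 (Or.inr ⟨hv1, rfl⟩), ?_⟩
        dsimp only
        omega
      · exfalso
        apply hm
        intro c c' h1 h2
        dsimp only at h1 h2
        subst h2
        obtain ⟨h3, -⟩ := XDist_leaf hc' hv1 hd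
        exact hq c c' h1 h3
    · obtain ⟨u1, hu1, hd⟩ := XDist_step hc hA
      by_cases hm : ((u1, v) : (V ⊕ P) × (V' ⊕ P')) ∈ XS (V := V) (V' := V') M
      · refine ⟨⟨(u1, v), hm⟩, (hadj _ _).2 (Or.inl ⟨hu1, rfl⟩), ?_⟩
        dsimp only
        omega
      · have hex : ∃ c c', u1 = Sum.inr c ∧ v = Sum.inr c' ∧ ¬ M c c' := by
          by_contra hcon
          push Not at hcon
          exact hm fun c c' h1 h2 => hcon c c' h1 h2
        obtain ⟨c, c', h1, h2, h3⟩ := hex
        subst h1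
        obtain ⟨h4, h5⟩ := XDist_leaf hc hu1 hd
        have hB : v ≠ v' := by
          intro hvv
          exact h3 (hq c c' h4 (hvv.symm.trans h2))
        obtain ⟨v1, hv1, hd1⟩ := XDist_step hc' hB
        refine ⟨⟨(u, v1), ?_⟩, (hadj _ _).2 (Or.inr ⟨hv1, rfl⟩), ?_⟩
        · intro e e' h6 _
          dsimp only at h6
          rw [h5] at h6
          exact absurd h6 (by simp)
        · dsimp only
          omega

end Pool.Agent.MPbcc336
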