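import Pool.Agent.Lib.MP_bcc336_al.TreeMed
import Pool.Agent.Lib.MP_bcc336_al.XDist

/-!
The decorated product of two trees is a median graph.
-/

set_option autoImplicit false

namespace Pool.Agent.MPbcc336

theorem XG_med {V P V' P' : Type} {G : SimpleGraph V} {G' : SimpleGraph V'} (h : TL G)
    (h' : TL G') (b : P → V) (b' : P' → V') (M : P → P' → Prop) :
    Med (XG G b G' b' M) := by
  sorry

end Pool.Agent.MPbcc336
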